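import Pool.Agent.H97.DR.Pcn
import Pool.Agent.H96.DR.Def

/-!
# [DR PCR] MP_4d57ea_nt, chapter P: the `m ∈ (X, 2X]` with `m^3 + k = p^2 r` for one `r`, 80-140 lines. File Pool/Agent/H97/DR/Pcr.lean

`L = ∏_{l ∈ T} l`, prime to `r`. Let `Z` be the set of the classes `(m mod r, (m mod l)_{l ∈ T})` of the `m` in question. If `m^3 + k = p^2 r` then `r ∣ m^3 + k`: `m mod r` is one of `ρ(r)` classes, and for
`l ∈ T` the class of `m` in `ZMod l` lies in `U_l = {x : ∃ y, x^3 + k = r y^2}`, `#U_l ≤ (3/4) l` (`cnt`; `k ≠ 0`, `r ≠ 0` in `ZMod l` by hypothesis). So `#Z ≤ ρ(r) ∏_{l ∈ T} (3/4) l`.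
For given residues modulo `r` and all `l ∈ T` two such `m` differ by a multiple of `r L` (pairwise coprime: `Finset.prod_dvd_of_coprime`, `Int.emod_emod_of_dvd`, `IsCoprime.mul_dvd`), so there are at most
`X / (r L) + 1` in `(X, 2X]` (`Int.Ioc_filter_modEq_card` or: the elements of one class in an interval of length `X`). Multiply (`Finset.card_le_mul_card_image`).
-/

set_option autoImplicit false

namespace H97.DR

open Finset H23.LP H96.DR

/-- residues modulo `l` -/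
private noncomputable def Al (k : ℤ) (r l : ℕ) : Finset ℕ := by
  classical
  exact (range l).filter fun m : ℕ => ∃ y : ZMod l, (m : ZMod l) ^ 3 + (k : ZMod l) = (r : ZMod l) * y ^ 2

private theorem mem_Al (k : ℤ) (r l m : ℕ) : m ∈ Al k r l ↔
    m < l ∧ ∃ y : ZMod l, (m : ZMod l) ^ 3 + (k : ZMod l) = (r : ZMod l) * y ^ 2 := by
  simp only [Al, mem_filter, mem_range]

private theorem al_card (k : ℤ) (r l : ℕ) (hl : l.Prime) (h128 : 128 ≤ l) (hk : ¬ (l : ℤ) ∣ k) (hr : ¬ l ∣ r) :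
    4 * (Al k r l).card ≤ 3 * l := by
  classical
  have : Fact l.Prime := ⟨hl⟩
  have h1 : ((Al k r l).image fun m : ℕ => (m : ZMod l)).card = (Al k r l).card := by
    refine card_image_of_injOn fun a ha b hb hab => ?_
    have ha' : a < l := ((mem_Al k r l a).1 ha).1
    have hb' : b < l := ((mem_Al k r l b).1 hb).1
    have h2 := (ZMod.natCast_eq_natCast_iff' a b l).1 hab
    rwa [Nat.mod_eq_of_lt ha', Nat.mod_eq_of_lt hb'] at h2
  rw [← h1]
  refine cnt h128 (k : ZMod l) (r : ZMod l) (fun h => hk ((ZMod.intCast_zmod_eq_zero_iff_dvd _ _).1 h))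
    (fun h => hr ((ZMod.natCast_eq_zero_iff _ _).1 h)) _ fun m hm => ?_
  obtain ⟨a, ha, rfl⟩ := mem_image.1 hm
  exact ((mem_Al k r l a).1 ha).2

private theorem cls_cnt (X M : ℕ) (hM : 0 < M) (S : Finset ℤ) (h1 : ∀ m ∈ S, m ∈ Ioc (X : ℤ) (2 * X))
    (h2 : ∀ m ∈ S, ∀ m' ∈ S, (M : ℤ) ∣ m - m') : S.card ≤ X / M + 1 := by
  have hM' : (0 : ℤ) < M := by exact_mod_cast hM
  have h3 : S.card ≤ (range (X / M + 1)).card := by
    refine card_le_card_of_injOn (fun m => ((m - X - 1) / M).toNat) (fun m hm => ?_) (fun m hm m' hm' he => ?_)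
    · have h4 := mem_Ioc.1 (h1 m hm)
      have h5 : (0 : ℤ) ≤ (m - X - 1) / M := Int.ediv_nonneg (by omega) hM'.le
      have h6 : (m - X - 1) / M ≤ (X : ℤ) / M := Int.ediv_le_ediv hM' (by omega)
      rw [coe_range, Set.mem_Iio]
      have h7 : ((X / M : ℕ) : ℤ) = (X : ℤ) / M := by norm_cast
      rw [← h7] at h6
      show ((m - X - 1) / M).toNat < X / M + 1
      omega
    · have h4 := mem_Ioc.1 (h1 m hm)
      have h4' := mem_Ioc.1 (h1 m' hm')
      have h5 : (0 : ℤ) ≤ (m - X - 1) / M := Int.ediv_nonneg (by omega) hM'.le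
      have h5' : (0 : ℤ) ≤ (m' - X - 1) / M := Int.ediv_nonneg (by omega) hM'.le
      have h6 : (m - X - 1) / M = (m' - X - 1) / M := by
        have : ((m - X - 1) / M).toNat = ((m' - X - 1) / M).toNat := he
        omega
      have h7 : (m - X - 1) % M = (m' - X - 1) % M := by
        refine Int.emod_emod_of_dvd _ (dvd_refl (M : ℤ)) ▸ ?_
        refine (Int.emod_emod_of_dvd _ (dvd_refl (M : ℤ))).trans ?_
        refine Int.ModEq.symm ?_
        refine Int.modEq_iff_dvd.2 ?_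
        have h8 := h2 m hm m' hm'
        have h9 : (m - X - 1) - (m' - X - 1) = m - m' := by ring
        rwa [h9]
      have h8 := Int.mul_ediv_add_emod (m - X - 1) M
      have h9 := Int.mul_ediv_add_emod (m' - X - 1) M
      rw [h6, h7] at h8
      linarith
  rwa [card_range] at h3

theorem crt_cnt (k : ℤ) (r X : ℕ) (hr : 0 < r) (T : Finset ℕ)
    (hT : ∀ l ∈ T, l.Prime ∧ 128 ≤ l ∧ ¬ (l : ℤ) ∣ k ∧ ¬ l ∣ r) (Z : Finset ℤ)
    (hZ : ∀ m ∈ Z, m ∈ Ioc (X : ℤ) (2 * X) ∧ ∃ p : ℕ, m ^ 3 + k = (p : ℤ) ^ 2 * r) :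
    (Z.card : ℝ) ≤ ((X : ℝ) / (r * ∏ l ∈ T, (l : ℝ)) + 1) *
      (rho k r * (3 / 4) ^ T.card * ∏ l ∈ T, (l : ℝ)) := by
  classical
  have hr' : (0 : ℤ) < r := by exact_mod_cast hr
  obtain ⟨M, hMe⟩ : ∃ M : ℕ, M = r * ∏ l ∈ T, l := ⟨_, rfl⟩
  have hLpos : 0 < ∏ l ∈ T, l := prod_pos fun l hl => (hT l hl).1.pos
  have hM : 0 < M := by
    rw [hMe]
    exact Nat.mul_pos hr hLpos
  let f : ℤ → ℕ × (∀ l ∈ T, ℕ) := fun m => ((m % r).toNat, fun l _ => (m % l).toNat)
  obtain ⟨t, ht⟩ : ∃ t, t = ((range r).filter fun m : ℕ => (r : ℤ) ∣ (m : ℤ) ^ 3 + k) ×ˢ (T.pi fun l => Al k r l) := ⟨_, rfl⟩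
  have hmod : ∀ (m : ℤ) (q : ℕ), 0 < q → (((m % q).toNat : ℕ) : ℤ) = m % q := fun m q hq =>
    Int.toNat_of_nonneg (Int.emod_nonneg _ (by omega))
  have hcard : Z.card ≤ (X / M + 1) * t.card := by
    refine card_le_mul_card_image_of_maps_to (f := f) (fun m hm => ?_) _ (fun b _ => ?_)
    · obtain ⟨h1, p, hp⟩ := hZ m hm
      rw [ht, mem_product]
      constructor
      · refine mem_filter.2 ⟨mem_range.2 ?_, ?_⟩
        · have h2 := hmod m r hr
          have h3 := Int.emod_lt_of_pos m hr'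
          have : (((m % r).toNat : ℕ) : ℤ) < r := by rw [h2]; exact h3
          exact_mod_cast this
        · show (r : ℤ) ∣ (((m % r).toNat : ℕ) : ℤ) ^ 3 + k
          rw [hmod m r hr]
          have h2 : (r : ℤ) ∣ m ^ 3 + k := ⟨(p : ℤ) ^ 2, by rw [hp]; ring⟩
          have h3 : m % r ≡ m [ZMOD r] := Int.mod_modEq _ _
          have h4 : (m % r) ^ 3 + k ≡ m ^ 3 + k [ZMOD r] := (h3.pow 3).add_right k
          exact (Int.modEq_zero_iff_dvd).1 (h4.trans ((Int.modEq_zero_iff_dvd).2 h2))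
      · refine mem_pi.2 fun l hl => ?_
        obtain ⟨hlp, h128, hlk, hlr⟩ := hT l hl
        refine (mem_Al k r l _).2 ⟨?_, (p : ZMod l), ?_⟩
        · have h2 := hmod m l hlp.pos
          have h3 := Int.emod_lt_of_pos m (show (0 : ℤ) < l by exact_mod_cast hlp.pos)
          have : (((m % l).toNat : ℕ) : ℤ) < l := by rw [h2]; exact h3
          exact_mod_cast this
        · have h2 : (((m % l).toNat : ℕ) : ZMod l) = (m : ZMod l) := by
            have h3 : (((((m % l).toNat : ℕ) : ℤ)) : ZMod l) = ((m % l : ℤ) : ZMod l) := by rw [hmod m l hlp.pos]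
            rw [Int.cast_natCast] at h3
            rw [h3]
            exact ZMod.intCast_mod m l
          show (((m % l).toNat : ℕ) : ZMod l) ^ 3 + (k : ZMod l) = _
          rw [h2]
          have h3 := congrArg (fun a : ℤ => (a : ZMod l)) hp
          simp only [Int.cast_add, Int.cast_pow, Int.cast_mul, Int.cast_natCast] at h3
          rw [h3]
          ring
    · refine cls_cnt X M hM _ (fun m hm => (hZ m (mem_filter.1 hm).1).1) fun m hm m' hm' => ?_
      have h1 : f m = f m' := (mem_filter.1 hm).2.trans (mem_filter.1 hm').2.symm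
      have h2 : (m % r).toNat = (m' % r).toNat := congrArg Prod.fst h1
      have h3 : ∀ l ∈ T, (m % l).toNat = (m' % l).toNat := fun l hl =>
        congrFun (congrFun (congrArg Prod.snd h1) l) hl
      have h4 : ∀ q : ℕ, 0 < q → (m % q).toNat = (m' % q).toNat → (q : ℤ) ∣ m - m' := fun q hq h => by
        have h5 : m % q = m' % q := by rw [← hmod m q hq, ← hmod m' q hq, h]
        exact Int.ModEq.dvd (show m' ≡ m [ZMOD q] from h5.symm)
      have h5 : (r : ℤ) ∣ m - m' := h4 r hr h2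
      have h6 : (∏ l ∈ T, (l : ℤ)) ∣ m - m' := by
        refine Finset.prod_dvd_of_coprime (fun a ha b hb hab => ?_) fun l hl => h4 l (hT l hl).1.pos (h3 l hl)
        exact Nat.isCoprime_iff_coprime.2 ((Nat.coprime_primes (hT a ha).1 (hT b hb).1).2 hab)
      have h7 : IsCoprime (r : ℤ) (∏ l ∈ T, (l : ℤ)) := by
        refine IsCoprime.prod_right fun l hl => ?_
        exact Nat.isCoprime_iff_coprime.2 (((Nat.Prime.coprime_iff_not_dvd (hT l hl).1).2 (hT l hl).2.2.2).symm)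
      have h8 := h7.mul_dvd h5 h6
      have h9 : ((M : ℕ) : ℤ) = r * ∏ l ∈ T, (l : ℤ) := by
        rw [hMe]
        push_cast
        rfl
      rwa [h9]
  have hT1 : (t.card : ℝ) ≤ rho k r * ((3 / 4) ^ T.card * ∏ l ∈ T, (l : ℝ)) := by
    rw [ht, card_product, card_pi]
    push_cast
    refine mul_le_mul_of_nonneg_left ?_ (Nat.cast_nonneg _)
    rw [← prod_const, ← prod_mul_distrib]
    refine prod_le_prod (fun l _ => Nat.cast_nonneg _) fun l hl => ?_
    obtain ⟨hlp, h128, hlk, hlr⟩ := hT l hl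
    have h1 := al_card k r l hlp h128 hlk hlr
    have h2 : (4 : ℝ) * (Al k r l).card ≤ 3 * l := by exact_mod_cast h1
    linarith
  have hX1 : ((X / M + 1 : ℕ) : ℝ) ≤ (X : ℝ) / (r * ∏ l ∈ T, (l : ℝ)) + 1 := by
    have h1 : (M : ℝ) = r * ∏ l ∈ T, (l : ℝ) := by
      rw [hMe]
      push_cast
      rfl
    rw [← h1]
    push_cast
    have := @Nat.cast_div_le ℝ _ _ _ X M
    linarith
  calc (Z.card : ℝ) ≤ ((X / M + 1 : ℕ) : ℝ) * t.card := by exact_mod_cast hcard
    _ ≤ ((X : ℝ) / (r * ∏ l ∈ T, (l : ℝ)) + 1) * (rho k r * ((3 / 4) ^ T.card * ∏ l ∈ T, (l : ℝ))) :=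
      mul_le_mul hX1 hT1 (Nat.cast_nonneg _) (le_trans (Nat.cast_nonneg _) hX1)
    _ = _ := by ring

end H97.DR
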