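import Mathlib

/-!
# [DR PPR] MP_4d57ea_nt, chapter P: `n` primes `> P` with a small product, 20-50 lines. File Pool/Agent/H97/DR/Ppr.lean

Bertrand (`Nat.exists_prime_lt_and_le_two_mul`): from a number `N ≥ 1` there is a prime `l` with `N < l ≤ 2 N`. Start with `N = P + 1` and iterate: `P + 1 < l₁ ≤ 2 (P+1)`, `l_i < l_{i+1} ≤ 2 l_i`,
so `l_i ≤ (P + 1) 2^i ≤ (P + 1) 2^n` and the product of `n` of them is `≤ ((P+1) 2^n)^n`. Induction on `n` with the stronger statement `l ≤ (P + 1) * 2 ^ n` for `l ∈ T` and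
`(P + 1) 2^n` (not in `T`) as next starting point; the new prime is `> ` all of `T`. (`Finset.prod_le_pow_card`.)
-/

set_option autoImplicit false

namespace H97.DR

private theorem prs_aux (P n : ℕ) : ∃ T : Finset ℕ, T.card = n ∧
    ∀ l ∈ T, l.Prime ∧ P < l ∧ l ≤ (P + 1) * 2 ^ n := by
  induction n with
  | zero => exact ⟨∅, rfl, fun l hl => absurd hl (Finset.notMem_empty l)⟩
  | succ n ih =>
    obtain ⟨T, hT, h⟩ := ih
    have hN : (P + 1) * 2 ^ n ≠ 0 := by positivity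
    obtain ⟨q, hq, h1, h2⟩ := Nat.exists_prime_lt_and_le_two_mul _ hN
    have hqT : q ∉ T := fun hq' => absurd (h q hq').2.2 (not_le.2 h1)
    have h3 : P + 1 ≤ (P + 1) * 2 ^ n := Nat.le_mul_of_pos_right _ (by positivity)
    have h4 : (P + 1) * 2 ^ (n + 1) = 2 * ((P + 1) * 2 ^ n) := by ring
    refine ⟨insert q T, by rw [Finset.card_insert_of_notMem hqT, hT], fun l hl => ?_⟩
    rcases Finset.mem_insert.1 hl with rfl | hl
    · exact ⟨hq, by omega, by rw [h4]; exact h2⟩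
    · obtain ⟨g1, g2, g3⟩ := h l hl
      exact ⟨g1, g2, by rw [h4]; omega⟩

theorem prs (P n : ℕ) : ∃ T : Finset ℕ, T.card = n ∧ (∀ l ∈ T, l.Prime ∧ P < l) ∧
    ∏ l ∈ T, l ≤ ((P + 1) * 2 ^ n) ^ n := by
  obtain ⟨T, hT, h⟩ := prs_aux P n
  refine ⟨T, hT, fun l hl => ⟨(h l hl).1, (h l hl).2.1⟩, ?_⟩
  have h1 := Finset.prod_le_pow_card T (fun l => l) ((P + 1) * 2 ^ n) fun l hl => (h l hl).2.2
  rw [hT] at h1
  exact h1

end H97.DR
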