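import Pool.Agent.H97.DR.Psu
import Pool.Agent.H97.DR.Pcr
import Pool.Agent.H97.DR.Ppr

/-!
# [DR PFI] MP_4d57ea_nt, chapter P: `p^2 ∣ m^3 + k`, `p > X^(1+κ)`, 100-180 lines. File Pool/Agent/H97/DR/Pfi.lean

WLOG `κ ≤ 1/4` (a larger `κ` gives a smaller set). `k ≠ 0`. Let `X` be large, `m ∈ (X, 2X]`, `p > X^(1+κ)`, `p^2 ∣ m^3 + k`. `0 < m^3 + k ≤ 9 X^3` (`X^3 ≥ |k|`), so `m^3 + k = p^2 r`, `1 ≤ r ≤ 9 X^(1-2κ) =: N`.
Let `n = ⌈20 log log X⌉₊` and `T` from `prs (128 + |k|) n` (so all `l ∈ T` are primes `≥ 128`, not dividing `k`), `L₀ = ∏_{l ∈ T} l ≤ ((129 + |k|) 2^n)^n ≤ X^κ / 9` for large `X`, since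
`log` of the left side is `≤ n log(129 + |k|) + n^2` and `n = O(log log X)`. For every `r` use `T_r = {l ∈ T : l ∤ r}`: `#T_r ≥ n - ω(r)`. `crt_cnt`: the number of `m` for this `r` is
`≤ (X / (r L) + 1) ρ(r) (3/4)^{#T_r} L ≤ 2 (X / r) ρ(r) (3/4)^n (4/3)^ω(r)` because `r L ≤ 9 X^(1-2κ) X^κ / 9 ≤ X`. Sum over `r ≤ N` (`N ≤ X`, `rho_sum`; terms are nonnegative):
`≤ 2 C X (3/4)^n (log X)^4` and `(3/4)^n ≤ exp(-20 * 0.28 log log X) = (log X)^(-5.6)` (`log (4/3) > 0.28`: `Real.log_two_gt_d9`.. or `(3/4)^5 ≤ 1/4 ≤ e^(-1.2)`, any bound `(3/4)^20 ≤ e^(-5)` is enough: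
`(3/4)^20 < 0.0032`, `e^(-5) > 0.0067`), so the total is `≤ 2 C X (log X)^(-1)` or smaller, `≤ ε X` for large `X`.
-/

set_option autoImplicit false

namespace H97.DR

open Finset H23.LP H96.DR

private theorem pfi_ev (P : ℕ) (a C ε : ℝ) (ha : 0 < a) (hC : 0 < C) (hε : 0 < ε) :
    ∃ Y : ℝ, ∀ y : ℝ, Y ≤ y → ∃ n : ℕ, (n : ℝ) * (P + n) + 8 ≤ a * y ∧
      (3 / 4 : ℝ) ^ n * (2 * C * y ^ 4) ≤ ε := by
  have h1 : ∀ᶠ y : ℝ in Filter.atTop, Real.log y ^ 2 ≤ (a / (2 * (21 * (P + 21)))) * y := by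
    have h := (Real.isLittleO_pow_log_id_atTop (n := 2)).bound
      (c := a / (2 * (21 * ((P : ℝ) + 21)))) (by positivity)
    filter_upwards [h, Filter.eventually_ge_atTop (1 : ℝ)] with y hy hy1
    rw [Real.norm_eq_abs, Real.norm_eq_abs, abs_of_nonneg (sq_nonneg _), id, abs_of_nonneg (by linarith)] at hy
    exact hy
  have h2 : ∀ᶠ y : ℝ in Filter.atTop, 1 ≤ Real.log y := Real.tendsto_log_atTop.eventually_ge_atTop 1
  have h3 : ∀ᶠ y : ℝ in Filter.atTop, 16 / a ≤ y := Filter.eventually_ge_atTop _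
  have h4 : ∀ᶠ y : ℝ in Filter.atTop, 2 * C / ε ≤ y := Filter.eventually_ge_atTop _
  have h5 : ∀ᶠ y : ℝ in Filter.atTop, 1 ≤ y := Filter.eventually_ge_atTop _
  have hall := h1.and (h2.and (h3.and (h4.and h5)))
  obtain ⟨Y, hY⟩ := Filter.eventually_atTop.1 hall
  refine ⟨Y, fun y hy => ?_⟩
  obtain ⟨g1, g2, g3, g4, g5⟩ := hY y hy
  obtain ⟨u, hu⟩ : ∃ u, u = Real.log y := ⟨_, rfl⟩
  rw [← hu] at g1 g2
  have hn1 : 20 * u ≤ (⌈20 * u⌉₊ : ℝ) := Nat.le_ceil _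
  have hn2 : (⌈20 * u⌉₊ : ℝ) < 20 * u + 1 := Nat.ceil_lt_add_one (by linarith)
  obtain ⟨n, hn⟩ : ∃ n : ℕ, n = ⌈20 * u⌉₊ := ⟨_, rfl⟩
  rw [← hn] at hn1 hn2
  refine ⟨n, ?_, ?_⟩
  · have hn3 : (n : ℝ) ≤ 21 * u := by linarith
    have hn0 : (0 : ℝ) ≤ n := Nat.cast_nonneg n
    have hP0 : (0 : ℝ) ≤ P := Nat.cast_nonneg P
    have k1 : (P : ℝ) + n ≤ (P + 21) * u := by nlinarith
    have k2 : (n : ℝ) * (P + n) ≤ (21 * u) * ((P + 21) * u) :=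
      mul_le_mul hn3 k1 (by positivity) (by linarith)
    have k3 : (21 * u) * ((P + 21) * u) = (21 * (P + 21)) * u ^ 2 := by ring
    have k4 : (21 * ((P : ℝ) + 21)) * u ^ 2 ≤ (21 * (P + 21)) * ((a / (2 * (21 * (P + 21)))) * y) :=
      mul_le_mul_of_nonneg_left g1 (by positivity)
    have k5 : (21 * ((P : ℝ) + 21)) * ((a / (2 * (21 * (P + 21)))) * y) = a * y / 2 := by
      field_simp
    have k6 : 16 ≤ a * y := by
      rw [div_le_iff₀ ha] at g3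
      linarith
    linarith
  · have y0 : 0 < y := by linarith
    have e1 : (3 / 4 : ℝ) ≤ Real.exp (-(1 / 4)) := by
      have := Real.add_one_le_exp (-(1 / 4) : ℝ)
      linarith
    have e2 : (3 / 4 : ℝ) ^ n ≤ Real.exp (-(1 / 4)) ^ n := pow_le_pow_left₀ (by norm_num) e1 n
    have e3 : Real.exp (-(1 / 4)) ^ n = Real.exp (-(n / 4)) := by
      rw [← Real.exp_nat_mul]
      congr 1
      ring
    have e4 : Real.exp (-((n : ℝ) / 4)) ≤ Real.exp (-(5 * u)) := by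
      apply Real.exp_le_exp.2
      linarith
    have e5 : y ^ 5 = Real.exp (5 * u) := by
      rw [hu, show (5 : ℝ) * Real.log y = ((5 : ℕ) : ℝ) * Real.log y by norm_num, Real.exp_nat_mul,
        Real.exp_log y0]
    have e6 : (3 / 4 : ℝ) ^ n * y ^ 5 ≤ 1 := by
      have : (3 / 4 : ℝ) ^ n * y ^ 5 ≤ Real.exp (-(5 * u)) * Real.exp (5 * u) := by
        rw [e5]
        exact mul_le_mul_of_nonneg_right (e2.trans (e3.le.trans e4)) (Real.exp_pos _).le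
      rw [← Real.exp_add] at this
      simpa using this
    have e7 : 2 * C ≤ ε * y := by
      rw [div_le_iff₀ hε] at g4
      linarith
    have e8 : ((3 / 4 : ℝ) ^ n * (2 * C * y ^ 4)) * y ≤ ε * y := by
      have : ((3 / 4 : ℝ) ^ n * (2 * C * y ^ 4)) * y = 2 * C * ((3 / 4 : ℝ) ^ n * y ^ 5) := by ring
      rw [this]
      have := mul_le_mul_of_nonneg_left e6 (by linarith : (0 : ℝ) ≤ 2 * C)
      linarith
    exact le_of_mul_le_mul_right e8 y0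

private theorem pfi_one (k : ℤ) (hk0 : k ≠ 0) (X n : ℕ) (T : Finset ℕ) (hTn : T.card = n)
    (hT : ∀ l ∈ T, l.Prime ∧ 128 + k.natAbs < l) (r : ℕ) (hr : 0 < r)
    (hL : (r : ℝ) * ∏ l ∈ T, (l : ℝ) ≤ X) (Z : Finset ℤ)
    (hZ : ∀ m ∈ Z, m ∈ Ioc (X : ℤ) (2 * X) ∧ ∃ p : ℕ, m ^ 3 + k = (p : ℤ) ^ 2 * r) :
    (Z.card : ℝ) ≤ 2 * X * (3 / 4) ^ n *
      ((rho k r : ℝ) * (4 / 3) ^ r.primeFactors.card / (r : ℝ)) := by
  classical
  obtain ⟨T', hT'⟩ : ∃ T' : Finset ℕ, T' = T.filter fun l => ¬ l ∣ r := ⟨_, rfl⟩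
  have hr' : (0 : ℝ) < r := by exact_mod_cast hr
  have hsub : T' ⊆ T := by rw [hT']; exact Finset.filter_subset _ _
  have hT1 : ∀ l ∈ T', l.Prime ∧ 128 ≤ l ∧ ¬ (l : ℤ) ∣ k ∧ ¬ l ∣ r := by
    intro l hl
    rw [hT', Finset.mem_filter] at hl
    obtain ⟨h1, h2⟩ := hT l hl.1
    refine ⟨h1, by omega, ?_, hl.2⟩
    intro hd
    have h3 : l ∣ k.natAbs := by
      have := Int.natAbs_dvd_natAbs.2 hd
      simpa using this
    have h4 := Nat.le_of_dvd (Int.natAbs_pos.2 hk0) h3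
    omega
  have hc := crt_cnt k r X hr T' hT1 Z hZ
  obtain ⟨L, hLd⟩ : ∃ L : ℝ, L = ∏ l ∈ T', (l : ℝ) := ⟨_, rfl⟩
  rw [← hLd] at hc
  have hL0 : 0 < L := by
    rw [hLd]
    refine Finset.prod_pos fun l hl => ?_
    exact_mod_cast (hT1 l hl).1.pos
  have hLL : L ≤ ∏ l ∈ T, (l : ℝ) := by
    have h1 : ∏ l ∈ T', l ≤ ∏ l ∈ T, l := by
      refine Nat.le_of_dvd (Finset.prod_pos fun l hl => (hT l hl).1.pos) ?_
      exact Finset.prod_dvd_prod_of_subset _ _ _ hsub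
    have h2 : ((∏ l ∈ T', l : ℕ) : ℝ) ≤ ((∏ l ∈ T, l : ℕ) : ℝ) := Nat.cast_le.2 h1
    rw [Nat.cast_prod, Nat.cast_prod] at h2
    rw [hLd]
    exact h2
  have hrL : (r : ℝ) * L ≤ X := (mul_le_mul_of_nonneg_left hLL hr'.le).trans hL
  have hrL0 : 0 < (r : ℝ) * L := mul_pos hr' hL0
  have h1 : (1 : ℝ) ≤ (X : ℝ) / (r * L) := by rw [le_div_iff₀ hrL0]; linarith
  obtain ⟨ρ, hρ⟩ : ∃ ρ : ℝ, ρ = (rho k r : ℝ) := ⟨_, rfl⟩
  have hρ0 : 0 ≤ ρ := by rw [hρ]; exact Nat.cast_nonneg _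
  rw [← hρ] at hc ⊢
  have h2 : ((X : ℝ) / (r * L) + 1) * (ρ * (3 / 4) ^ T'.card * L) ≤
      (2 * ((X : ℝ) / (r * L))) * (ρ * (3 / 4) ^ T'.card * L) := by
    apply mul_le_mul_of_nonneg_right
    · linarith
    · positivity
  have h3 : (2 * ((X : ℝ) / (r * L))) * (ρ * (3 / 4) ^ T'.card * L) =
      2 * X * (ρ / r) * (3 / 4) ^ T'.card := by
    field_simp
  have hcard : n ≤ T'.card + r.primeFactors.card := by
    have h4 : (T.filter fun l => l ∣ r).card ≤ r.primeFactors.card := by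
      refine Finset.card_le_card fun l hl => ?_
      rw [Finset.mem_filter] at hl
      exact Nat.mem_primeFactors.2 ⟨(hT l hl.1).1, hl.2, hr.ne'⟩
    have h5 := Finset.card_filter_add_card_filter_not (s := T) (fun l => l ∣ r)
    rw [← hT'] at h5
    omega
  obtain ⟨w, hw⟩ : ∃ w : ℕ, w = r.primeFactors.card := ⟨_, rfl⟩
  rw [← hw] at hcard ⊢
  have h6 : (3 / 4 : ℝ) ^ T'.card ≤ (3 / 4) ^ n * (4 / 3) ^ w := by
    have h7 : (3 / 4 : ℝ) ^ (T'.card + w) ≤ (3 / 4) ^ n :=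
      pow_le_pow_of_le_one (by norm_num) (by norm_num) hcard
    have h8 : (3 / 4 : ℝ) ^ (T'.card + w) * (4 / 3) ^ w = (3 / 4) ^ T'.card := by
      rw [pow_add, mul_assoc, ← mul_pow]
      norm_num
    rw [← h8]
    exact mul_le_mul_of_nonneg_right h7 (by positivity)
  have h9 : 2 * (X : ℝ) * (ρ / r) * (3 / 4) ^ T'.card ≤ 2 * X * (ρ / r) * ((3 / 4) ^ n * (4 / 3) ^ w) :=
    mul_le_mul_of_nonneg_left h6 (by positivity)
  have h10 : 2 * (X : ℝ) * (ρ / r) * ((3 / 4) ^ n * (4 / 3) ^ w) =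
      2 * X * (3 / 4) ^ n * (ρ * (4 / 3) ^ w / r) := by ring
  linarith

theorem sq_div (k : ℤ) (hk : ∀ t : ℤ, t ^ 3 ≠ k) (κ ε : ℝ) (hκ : 0 < κ) (hε : 0 < ε) :
    ∃ X0 : ℕ, ∀ X : ℕ, X0 ≤ X → ∀ Z : Finset ℤ,
      (∀ m ∈ Z, m ∈ Ioc (X : ℤ) (2 * X) ∧
        ∃ p : ℕ, p.Prime ∧ (X : ℝ) ^ (1 + κ) < p ∧ (p : ℤ) ^ 2 ∣ m ^ 3 + k) →
      (Z.card : ℝ) ≤ ε * X := by
  classical
  have hk0 : k ≠ 0 := fun h => hk 0 (by rw [h]; norm_num)
  obtain ⟨C, hC1, hC⟩ := rho_sum k hk0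
  obtain ⟨Y, hY⟩ := pfi_ev (128 + k.natAbs) (2 * κ) C ε (by linarith) (by linarith) hε
  have hlog : Filter.Tendsto (fun X : ℕ => Real.log (X : ℝ)) Filter.atTop Filter.atTop :=
    Real.tendsto_log_atTop.comp tendsto_natCast_atTop_atTop
  obtain ⟨X1, hX1⟩ := Filter.eventually_atTop.1 (hlog.eventually_ge_atTop Y)
  refine ⟨max X1 (2 + k.natAbs), fun X hX Z hZ => ?_⟩
  have hXa : X1 ≤ X := (le_max_left _ _).trans hX
  have hXb : 2 + k.natAbs ≤ X := (le_max_right _ _).trans hX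
  have hX2 : 2 ≤ X := by omega
  have hX0 : (0 : ℝ) < X := by
    have : 0 < X := by omega
    exact_mod_cast this
  have hXge1 : (1 : ℝ) ≤ X := by
    have : 1 ≤ X := by omega
    exact_mod_cast this
  obtain ⟨n, hn1, hn2⟩ := hY (Real.log X) (hX1 X hXa)
  obtain ⟨T, hTn, hT, hTL⟩ := prs (128 + k.natAbs) n
  -- the product
  have hLX : 9 * (∏ l ∈ T, (l : ℝ)) ≤ (X : ℝ) ^ (2 * κ) := by
    have a1 : (∏ l ∈ T, (l : ℝ)) ≤ (((128 + k.natAbs : ℕ) : ℝ) + 1) ^ n * ((2 : ℝ) ^ n) ^ n := by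
      have : ((∏ l ∈ T, l : ℕ) : ℝ) ≤ (((128 + k.natAbs + 1) * 2 ^ n) ^ n : ℕ) := by exact_mod_cast hTL
      push_cast at this
      rw [mul_pow] at this
      push_cast
      exact this
    have a2 : (((128 + k.natAbs : ℕ) : ℝ) + 1) ^ n ≤ Real.exp (n * ((128 + k.natAbs : ℕ) : ℝ)) := by
      rw [Real.exp_nat_mul]
      exact pow_le_pow_left₀ (by positivity) (Real.add_one_le_exp _) n
    have a3 : ((2 : ℝ) ^ n) ^ n ≤ Real.exp (n * n) := by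
      rw [Real.exp_nat_mul]
      refine pow_le_pow_left₀ (by positivity) ?_ n
      have h2 : (2 : ℝ) ≤ Real.exp 1 := by
        have := Real.add_one_le_exp (1 : ℝ)
        linarith
      calc (2 : ℝ) ^ n ≤ Real.exp 1 ^ n := pow_le_pow_left₀ (by norm_num) h2 n
        _ = Real.exp (n : ℝ) := by rw [← Real.exp_nat_mul]; simp
    have a4 : (9 : ℝ) ≤ Real.exp 8 := by
      have := Real.add_one_le_exp (8 : ℝ)
      linarith
    have a5 : (∏ l ∈ T, (l : ℝ)) ≤ Real.exp (n * ((128 + k.natAbs : ℕ) : ℝ)) * Real.exp (n * n) :=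
      a1.trans (mul_le_mul a2 a3 (by positivity) (Real.exp_pos _).le)
    have a6 : (0 : ℝ) ≤ ∏ l ∈ T, (l : ℝ) := Finset.prod_nonneg fun l _ => Nat.cast_nonneg l
    have a7 : 9 * (∏ l ∈ T, (l : ℝ)) ≤
        Real.exp 8 * (Real.exp (n * ((128 + k.natAbs : ℕ) : ℝ)) * Real.exp (n * n)) :=
      mul_le_mul a4 a5 a6 (Real.exp_pos _).le
    refine a7.trans ?_
    rw [← Real.exp_add, ← Real.exp_add, Real.rpow_def_of_pos hX0]
    apply Real.exp_le_exp.2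
    have : (8 : ℝ) + (n * ((128 + k.natAbs : ℕ) : ℝ) + n * n) =
        n * (((128 + k.natAbs : ℕ) : ℝ) + n) + 8 := by ring
    rw [this]
    linarith
  -- the pieces
  obtain ⟨W, hW⟩ : ∃ W : ℕ → Finset ℤ, W = fun r : ℕ => Z.filter fun m : ℤ =>
      (r : ℝ) * 1 ≤ 9 * (X : ℝ) ^ (1 - 2 * κ) ∧ ∃ p : ℕ, m ^ 3 + k = (p : ℤ) ^ 2 * r := ⟨_, rfl⟩
  have hLge1 : (1 : ℝ) ≤ ∏ l ∈ T, (l : ℝ) := by
    have h1 : 1 ≤ ∏ l ∈ T, l := Finset.prod_pos fun l hl => (hT l hl).1.pos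
    have h2 : ((1 : ℕ) : ℝ) ≤ ((∏ l ∈ T, l : ℕ) : ℝ) := Nat.cast_le.2 h1
    rw [Nat.cast_prod, Nat.cast_one] at h2
    exact h2
  have hXk : (X : ℝ) ^ (1 - 2 * κ) * (X : ℝ) ^ (2 * κ) = X := by
    rw [← Real.rpow_add hX0]
    norm_num
  have hXp : (0 : ℝ) < (X : ℝ) ^ (1 - 2 * κ) := Real.rpow_pos_of_pos hX0 _
  have hprod : 9 * (X : ℝ) ^ (1 - 2 * κ) * (∏ l ∈ T, (l : ℝ)) ≤ X := by
    have := mul_le_mul_of_nonneg_left hLX hXp.le
    rw [hXk] at this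
    linarith
  have hXle : 9 * (X : ℝ) ^ (1 - 2 * κ) ≤ X := by
    have : 9 * (X : ℝ) ^ (1 - 2 * κ) * 1 ≤ 9 * (X : ℝ) ^ (1 - 2 * κ) * (∏ l ∈ T, (l : ℝ)) :=
      mul_le_mul_of_nonneg_left hLge1 (by positivity)
    linarith
  have hZW : Z ⊆ (Icc 1 X).biUnion W := by
    intro m hm
    obtain ⟨hm1, p, hp, hpX, hd⟩ := hZ m hm
    rw [Finset.mem_Ioc] at hm1
    obtain ⟨r0, hr0⟩ := hd
    have hk1 : -(X : ℤ) < k ∧ k < X := by omega
    have hXz : (2 : ℤ) ≤ X := by exact_mod_cast hX2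
    have hpos : 0 < m ^ 3 + k := by
      have : (X : ℤ) ≤ m ^ 3 := by
        have h1 : (X : ℤ) ≤ m := hm1.1.le
        have h2 : m ≤ m ^ 3 := by
          have : (1 : ℤ) ≤ m := by omega
          exact le_self_pow₀ this (by norm_num)
        omega
      omega
    have hp0 : (0 : ℤ) < (p : ℤ) ^ 2 := by
      have := hp.pos
      positivity
    have hr0pos : 0 < r0 := by
      rw [hr0] at hpos
      exact (mul_pos_iff_of_pos_left hp0).1 hpos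
    obtain ⟨r, hr⟩ : ∃ r : ℕ, (r : ℤ) = r0 := ⟨r0.toNat, Int.toNat_of_nonneg hr0pos.le⟩
    have hr1 : 0 < r := by
      have : (0 : ℤ) < (r : ℤ) := by rw [hr]; exact hr0pos
      exact_mod_cast this
    have hub : (m : ℝ) ^ 3 + k ≤ 9 * (X : ℝ) ^ 3 := by
      have h1 : (m : ℝ) ≤ 2 * X := by exact_mod_cast hm1.2
      have h2 : (0 : ℝ) ≤ (m : ℝ) := by
        have : (0 : ℤ) ≤ m := by omega
        exact_mod_cast this
      have h3 : (m : ℝ) ^ 3 ≤ (2 * X) ^ 3 := pow_le_pow_left₀ h2 h1 3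
      have h4 : (k : ℝ) ≤ X := by exact_mod_cast hk1.2.le
      have h5 : (X : ℝ) ≤ (X : ℝ) ^ 3 := le_self_pow₀ hXge1 (by norm_num)
      nlinarith
    have heq : (m : ℝ) ^ 3 + k = (p : ℝ) ^ 2 * r := by
      have : m ^ 3 + k = (p : ℤ) ^ 2 * (r : ℤ) := by rw [hr]; exact hr0
      exact_mod_cast this
    have hp2 : (X : ℝ) ^ (2 + 2 * κ) ≤ (p : ℝ) ^ 2 := by
      have h1 : (X : ℝ) ^ (2 + 2 * κ) = ((X : ℝ) ^ (1 + κ)) ^ 2 := by
        rw [← Real.rpow_natCast ((X : ℝ) ^ (1 + κ)) 2, ← Real.rpow_mul hX0.le]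
        congr 1
        push_cast
        ring
      rw [h1]
      exact pow_le_pow_left₀ (Real.rpow_pos_of_pos hX0 _).le hpX.le 2
    have hr2 : (r : ℝ) ≤ 9 * (X : ℝ) ^ (1 - 2 * κ) := by
      have hr0' : (0 : ℝ) ≤ r := Nat.cast_nonneg r
      have h1 : (X : ℝ) ^ (2 + 2 * κ) * r ≤ 9 * (X : ℝ) ^ 3 := by
        have := mul_le_mul_of_nonneg_right hp2 hr0'
        linarith
      have h2 : (X : ℝ) ^ 3 = (X : ℝ) ^ (2 + 2 * κ) * (X : ℝ) ^ (1 - 2 * κ) := by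
        rw [← Real.rpow_add hX0, ← Real.rpow_natCast (X : ℝ) 3]
        congr 1
        push_cast
        ring
      rw [h2] at h1
      have h3 : (0 : ℝ) < (X : ℝ) ^ (2 + 2 * κ) := Real.rpow_pos_of_pos hX0 _
      have h4 : (X : ℝ) ^ (2 + 2 * κ) * r ≤ (X : ℝ) ^ (2 + 2 * κ) * (9 * (X : ℝ) ^ (1 - 2 * κ)) := by
        linarith
      exact le_of_mul_le_mul_left h4 h3
    have hrX : r ≤ X := by
      have : (r : ℝ) ≤ X := hr2.trans hXle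
      exact_mod_cast this
    rw [Finset.mem_biUnion]
    refine ⟨r, Finset.mem_Icc.2 ⟨hr1, hrX⟩, ?_⟩
    rw [hW]
    simp only [Finset.mem_filter]
    refine ⟨hm, by linarith, p, ?_⟩
    rw [hr]
    exact hr0
  have hcard : (Z.card : ℝ) ≤ ∑ r ∈ Icc 1 X, ((W r).card : ℝ) := by
    have h1 : Z.card ≤ ∑ r ∈ Icc 1 X, (W r).card :=
      (Finset.card_le_card hZW).trans Finset.card_biUnion_le
    exact_mod_cast h1
  have hpiece : ∀ r ∈ Icc 1 X, ((W r).card : ℝ) ≤ 2 * X * (3 / 4) ^ n *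
      ((rho k r : ℝ) * (4 / 3) ^ r.primeFactors.card / (r : ℝ)) := by
    intro r hr
    rw [Finset.mem_Icc] at hr
    by_cases hrr : (r : ℝ) ≤ 9 * (X : ℝ) ^ (1 - 2 * κ)
    · refine pfi_one k hk0 X n T hTn hT r hr.1 ?_ (W r) ?_
      · exact (mul_le_mul_of_nonneg_right hrr (by linarith)).trans hprod
      · intro m hm
        rw [hW] at hm
        simp only [Finset.mem_filter] at hm
        exact ⟨(hZ m hm.1).1, hm.2.2⟩
    · have h0 : W r = ∅ := by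
        rw [hW]
        refine Finset.filter_eq_empty_iff.2 fun m _ h => hrr ?_
        linarith [h.1]
      rw [h0, Finset.card_empty, Nat.cast_zero]
      positivity
  have hsum := hC X hX2
  calc (Z.card : ℝ) ≤ ∑ r ∈ Icc 1 X, ((W r).card : ℝ) := hcard
    _ ≤ ∑ r ∈ Icc 1 X, 2 * X * (3 / 4) ^ n *
        ((rho k r : ℝ) * (4 / 3) ^ r.primeFactors.card / (r : ℝ)) := Finset.sum_le_sum hpiece
    _ = 2 * X * (3 / 4) ^ n * ∑ r ∈ Icc 1 X,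
        ((rho k r : ℝ) * (4 / 3) ^ r.primeFactors.card / (r : ℝ)) := by rw [Finset.mul_sum]
    _ ≤ 2 * X * (3 / 4) ^ n * (C * Real.log X ^ 4) :=
        mul_le_mul_of_nonneg_left hsum (by positivity)
    _ = ((3 / 4) ^ n * (2 * C * Real.log X ^ 4)) * X := by ring
    _ ≤ ε * X := mul_le_mul_of_nonneg_right hn2 hX0.le

end H97.DR
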