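import Pool.Agent.H96.DR.Def
import Pool.Agent.H92.LP.Roots

/-!
# [DR PRH] MP_4d57ea_nt, chapter P: `ρ(r)` for general `r`, 80-150 lines. File Pool/Agent/H97/DR/Prh.lean

`pk k r` is the part of `r` composed of the primes dividing `6 k`. CLAIM `ρ(r) ≤ C 3^ω(r) pk(r)^(5/6)`, `C = 9 ^ ω(6k)`.
(1) `ρ(a b) = ρ(a) ρ(b)` for `(a, b) = 1`, `ρ(1) = 1` (Chinese remainder theorem; only `≤` is needed: `m ↦ (m mod a, m mod b)` is injective on the roots
modulo `a b` in `range (a b)`: `Nat.modEq_and_modEq_iff_modEq_mul`), so `ρ(r) ≤ ∏_{p ∣ r} ρ(p^{v_p(r)})` (induction: `Nat.recOnPosPrimePosCoprime` or over `r.primeFactors`,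
`Nat.factorization_prod_pow_eq_self`).
(2) `p ∤ 6 k`, `a ≥ 1`: `ρ(p^a) ≤ 3` (`Pool.Agent.H92.LP.rk_le`; `rk` and `rho` are the same number: `FF_dvd`).
(3) `q = p^a`, any prime power `≥ 2`: `ρ(q) ≤ 9 q^(5/6)`: `Nq_gen k q q y` (`H92/LP/Roots.lean`) with a natural number `y ≥ 1`, `y^6 < q ≤ (2 y)^6`
[`y` = the largest natural number with `y^6 < q`, `q ≤ (y+1)^6 ≤ (2y)^6`]: `ρ(q) = Nq k q q ≤ 3 (q / y + 1) ≤ 3 (2 q^(5/6) + 1) ≤ 9 q^(5/6)` (`1 / y ≤ 2 q^(-1/6)`).
`Nq k q q` counts `1 ≤ m ≤ q` and `rho` counts `0 ≤ m < q`: replace `q` by `0`.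
(4) The product over `p ∣ r`, `p ∣ 6 k` of `9 (p^a)^(5/6)` is `≤ 9^ω(6k) pk^(5/6)` (`Real.finsetProd_rpow`); `k ≠ 0` gives that `(6k).natAbs.primeFactors` contains all these primes.
-/

set_option autoImplicit false

namespace H97.DR

open Finset H23.LP H96.DR

/-- the part of `r` composed of the primes dividing `6 k` -/
def pk (k : ℤ) (r : ℕ) : ℕ :=
  ∏ p ∈ r.primeFactors.filter fun p : ℕ => (p : ℤ) ∣ 6 * k, p ^ r.factorization p

theorem rho_eq (k : ℤ) (r : ℕ) : rho k r = Pool.Agent.H92.LP.rk k r := by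
  unfold rho Pool.Agent.H92.LP.rk
  congr 1
  refine filter_congr fun m _ => ?_
  exact (Pool.Agent.H92.LP.FF_dvd).symm

theorem rk_mul (k : ℤ) {a b : ℕ} (ha : 0 < a) (hb : 0 < b) (hab : Nat.Coprime a b) :
    Pool.Agent.H92.LP.rk k (a * b) ≤ Pool.Agent.H92.LP.rk k a * Pool.Agent.H92.LP.rk k b := by
  unfold Pool.Agent.H92.LP.rk
  rw [← card_product]
  refine card_le_card_of_injOn (fun m => (m % a, m % b)) ?_ ?_
  · intro m hm
    have hm' := mem_filter.1 (mem_coe.1 hm)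
    have h1 := hm'.2
    refine mem_coe.2 (mem_product.2 ⟨mem_filter.2 ⟨mem_range.2 (Nat.mod_lt _ ha), ?_⟩,
      mem_filter.2 ⟨mem_range.2 (Nat.mod_lt _ hb), ?_⟩⟩)
    · exact (Pool.Agent.H92.LP.FF_mod k a m).1 ((Dvd.intro _ rfl).trans h1)
    · exact (Pool.Agent.H92.LP.FF_mod k b m).1 ((Dvd.intro_left _ rfl).trans h1)
  · intro m hm m' hm' h
    have h1 := mem_range.1 (mem_filter.1 (mem_coe.1 hm)).1
    have h2 := mem_range.1 (mem_filter.1 (mem_coe.1 hm')).1
    have h3 : m % a = m' % a := congrArg Prod.fst h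
    have h4 : m % b = m' % b := congrArg Prod.snd h
    have h5 : m ≡ m' [MOD a * b] := (Nat.modEq_and_modEq_iff_modEq_mul hab).1 ⟨h3, h4⟩
    have h6 : m % (a * b) = m' % (a * b) := h5
    rwa [Nat.mod_eq_of_lt h1, Nat.mod_eq_of_lt h2] at h6

theorem rk_Nq (k : ℤ) {q : ℕ} (hq : 0 < q) :
    Pool.Agent.H92.LP.rk k q ≤ Pool.Agent.H92.LP.Nq k q q := by
  unfold Pool.Agent.H92.LP.rk Pool.Agent.H92.LP.Nq
  refine card_le_card_of_injOn (fun m => if m = 0 then q else m) ?_ ?_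
  · intro m hm
    have hm' := mem_filter.1 (mem_coe.1 hm)
    have h1 := mem_range.1 hm'.1
    have h2 := hm'.2
    refine mem_coe.2 ?_
    by_cases h0 : m = 0
    · subst h0
      simp only [if_true]
      refine mem_filter.2 ⟨mem_Icc.2 ⟨hq, le_refl _⟩, ?_⟩
      rw [Pool.Agent.H92.LP.FF_mod, Nat.mod_self]
      exact h2
    · simp only [if_neg h0]
      exact mem_filter.2 ⟨mem_Icc.2 ⟨by omega, h1.le⟩, h2⟩
  · intro m hm m' hm' h
    have h1 := mem_range.1 (mem_filter.1 (mem_coe.1 hm)).1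
    have h2 := mem_range.1 (mem_filter.1 (mem_coe.1 hm')).1
    simp only at h
    split_ifs at h <;> omega

theorem rk_pow (k : ℤ) {q : ℕ} (hq : 2 ≤ q) :
    (Pool.Agent.H92.LP.rk k q : ℝ) ≤ 9 * (q : ℝ) ^ (5 / 6 : ℝ) := by
  classical
  obtain ⟨y, hy1, hy2, hy3⟩ : ∃ y : ℕ, 1 ≤ y ∧ y ^ 6 < q ∧ q ≤ (2 * y) ^ 6 := by
    let y := Nat.findGreatest (fun y => y ^ 6 < q) q
    have h1 : 1 ≤ y := Nat.le_findGreatest (by omega) (by omega)
    have h2 : y ^ 6 < q := Nat.findGreatest_spec (P := fun y => y ^ 6 < q) (m := 1) (by omega) (by omega)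
    refine ⟨y, h1, h2, ?_⟩
    have h3 : y + 1 ≤ q := by
      have : y ≤ y ^ 6 := Nat.le_self_pow (by norm_num) y
      omega
    have h4 : ¬ (y + 1) ^ 6 < q :=
      Nat.findGreatest_is_greatest (P := fun y => y ^ 6 < q) (n := q) (Nat.lt_succ_self _) h3
    have h5 : (y + 1) ^ 6 ≤ (2 * y) ^ 6 := Nat.pow_le_pow_left (by omega) 6
    omega
  have h1 := (rk_Nq k (show 0 < q by omega)).trans (Pool.Agent.H92.LP.Nq_gen k q q y hy1 hy2)
  have hq0 : (0 : ℝ) < q := by exact_mod_cast (show 0 < q by omega)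
  have hq1 : (1 : ℝ) ≤ q := by exact_mod_cast (show 1 ≤ q by omega)
  have hy0 : (0 : ℝ) < y := by exact_mod_cast hy1
  have h2 : (Pool.Agent.H92.LP.rk k q : ℝ) ≤ 3 * ((q : ℝ) / y + 1) := by
    have : ((q / y : ℕ) : ℝ) ≤ (q : ℝ) / y := Nat.cast_div_le
    have h3 : (Pool.Agent.H92.LP.rk k q : ℝ) ≤ 3 * (((q / y : ℕ) : ℝ) + 1) := by exact_mod_cast h1
    linarith
  have h3 : (q : ℝ) ^ (1 / 6 : ℝ) ≤ 2 * y := by
    have h4 : (q : ℝ) ≤ (2 * y : ℝ) ^ 6 := by exact_mod_cast hy3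
    calc (q : ℝ) ^ (1 / 6 : ℝ) ≤ ((2 * y : ℝ) ^ 6) ^ (1 / 6 : ℝ) :=
          Real.rpow_le_rpow hq0.le h4 (by norm_num)
      _ = 2 * y := by
          rw [← Real.rpow_natCast, ← Real.rpow_mul (by positivity)]
          norm_num
  have h4 : (q : ℝ) / y ≤ 2 * (q : ℝ) ^ (5 / 6 : ℝ) := by
    rw [div_le_iff₀ hy0]
    have h5 : (q : ℝ) = (q : ℝ) ^ (5 / 6 : ℝ) * (q : ℝ) ^ (1 / 6 : ℝ) := by
      rw [← Real.rpow_add hq0]; norm_num
    calc (q : ℝ) = (q : ℝ) ^ (5 / 6 : ℝ) * (q : ℝ) ^ (1 / 6 : ℝ) := h5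
      _ ≤ (q : ℝ) ^ (5 / 6 : ℝ) * (2 * y) := by gcongr
      _ = 2 * (q : ℝ) ^ (5 / 6 : ℝ) * y := by ring
  have h5 : (1 : ℝ) ≤ (q : ℝ) ^ (5 / 6 : ℝ) := Real.one_le_rpow hq1 (by norm_num)
  linarith

open Classical in
/-- local factor -/
noncomputable def lh (k : ℤ) (p q : ℕ) : ℝ :=
  if (p : ℤ) ∣ 6 * k then 9 * (q : ℝ) ^ (5 / 6 : ℝ) else 3

theorem lh_nonneg (k : ℤ) (p q : ℕ) : 0 ≤ lh k p q := by
  unfold lh
  split_ifs
  · positivity
  · norm_num

theorem rk_prod (k : ℤ) (r : ℕ) (hr : 0 < r) : (Pool.Agent.H92.LP.rk k r : ℝ) ≤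
    ∏ p ∈ r.primeFactors, lh k p (p ^ r.factorization p) := by
  induction r using Nat.recOnPosPrimePosCoprime with
  | prime_pow p n hp hn =>
    rw [Nat.primeFactors_prime_pow hn.ne' hp, prod_singleton, hp.factorization_pow,
      Finsupp.single_eq_same]
    unfold lh
    split_ifs with h
    · refine rk_pow k ?_
      calc 2 ≤ p := hp.two_le
        _ ≤ p ^ n := Nat.le_self_pow hn.ne' p
    · have h1 : ¬ (p : ℤ) ∣ 3 * k := by
        intro h1
        apply h
        have : (6 : ℤ) * k = 2 * (3 * k) := by ring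
        rw [this]
        exact h1.mul_left 2
      exact_mod_cast Pool.Agent.H92.LP.rk_le hp h1 hn
  | zero => omega
  | one =>
    simp only [Nat.primeFactors_one, prod_empty]
    have : Pool.Agent.H92.LP.rk k 1 ≤ 1 := by
      unfold Pool.Agent.H92.LP.rk
      exact (card_filter_le _ _).trans (le_of_eq (card_range 1))
    exact_mod_cast this
  | coprime a b ha hb hab iha ihb =>
    have ha0 : 0 < a := by omega
    have hb0 : 0 < b := by omega
    have h1 := rk_mul k ha0 hb0 hab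
    have h2 : (Pool.Agent.H92.LP.rk k (a * b) : ℝ) ≤
        (Pool.Agent.H92.LP.rk k a : ℝ) * Pool.Agent.H92.LP.rk k b := by exact_mod_cast h1
    refine h2.trans ((mul_le_mul (iha ha0) (ihb hb0) (Nat.cast_nonneg _)
      (prod_nonneg fun p _ => lh_nonneg _ _ _)).trans (le_of_eq ?_))
    rw [hab.primeFactors_mul, prod_union hab.disjoint_primeFactors]
    congr 1
    · refine prod_congr rfl fun p hp => ?_
      have h3 : (a * b).factorization p = a.factorization p := by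
        rw [Nat.factorization_mul ha0.ne' hb0.ne']
        have : b.factorization p = 0 := by
          apply Nat.factorization_eq_zero_of_not_dvd
          intro hpb
          have hp' := Nat.prime_of_mem_primeFactors hp
          have hpa := Nat.dvd_of_mem_primeFactors hp
          have := Nat.dvd_gcd hpa hpb
          rw [hab] at this
          exact hp'.one_lt.ne' (Nat.dvd_one.1 this)
        simp [this]
      rw [h3]
    · refine prod_congr rfl fun p hp => ?_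
      have h3 : (a * b).factorization p = b.factorization p := by
        rw [Nat.factorization_mul ha0.ne' hb0.ne']
        have : a.factorization p = 0 := by
          apply Nat.factorization_eq_zero_of_not_dvd
          intro hpa
          have hp' := Nat.prime_of_mem_primeFactors hp
          have hpb := Nat.dvd_of_mem_primeFactors hp
          have := Nat.dvd_gcd hpa hpb
          rw [hab] at this
          exact hp'.one_lt.ne' (Nat.dvd_one.1 this)
        simp [this]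
      rw [h3]

theorem rho_le (k : ℤ) (hk : k ≠ 0) : ∃ C : ℝ, 1 ≤ C ∧ ∀ r : ℕ, 0 < r →
    (rho k r : ℝ) ≤ C * 3 ^ r.primeFactors.card * (pk k r : ℝ) ^ (5 / 6 : ℝ) := by
  classical
  refine ⟨9 ^ (6 * k).natAbs.primeFactors.card, one_le_pow₀ (by norm_num), fun r hr => ?_⟩
  rw [rho_eq]
  refine (rk_prod k r hr).trans ?_
  rw [← prod_filter_mul_prod_filter_not r.primeFactors (fun p : ℕ => (p : ℤ) ∣ 6 * k)]
  have h1 : ∏ p ∈ r.primeFactors.filter (fun p : ℕ => (p : ℤ) ∣ 6 * k),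
      lh k p (p ^ r.factorization p) =
      9 ^ (r.primeFactors.filter (fun p : ℕ => (p : ℤ) ∣ 6 * k)).card * (pk k r : ℝ) ^ (5 / 6 : ℝ) := by
    have h2 : ∏ p ∈ r.primeFactors.filter (fun p : ℕ => (p : ℤ) ∣ 6 * k),
        lh k p (p ^ r.factorization p) =
        ∏ p ∈ r.primeFactors.filter (fun p : ℕ => (p : ℤ) ∣ 6 * k),
          (9 * (((p ^ r.factorization p : ℕ) : ℝ)) ^ (5 / 6 : ℝ)) := by
      refine prod_congr rfl fun p hp => ?_
      unfold lh
      rw [if_pos (mem_filter.1 hp).2]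
    rw [h2, prod_mul_distrib, prod_const, Real.finsetProd_rpow _ _ (fun p _ => Nat.cast_nonneg _)]
    congr 2
    unfold pk
    push_cast
    congr!
  have h3 : ∏ p ∈ r.primeFactors.filter (fun p : ℕ => ¬ (p : ℤ) ∣ 6 * k),
      lh k p (p ^ r.factorization p) ≤ 3 ^ r.primeFactors.card := by
    have h4 : ∏ p ∈ r.primeFactors.filter (fun p : ℕ => ¬ (p : ℤ) ∣ 6 * k),
        lh k p (p ^ r.factorization p) =
        3 ^ (r.primeFactors.filter (fun p : ℕ => ¬ (p : ℤ) ∣ 6 * k)).card := by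
      rw [← prod_const]
      refine prod_congr rfl fun p hp => ?_
      unfold lh
      rw [if_neg (mem_filter.1 hp).2]
    rw [h4]
    exact pow_le_pow_right₀ (by norm_num) (card_le_card (filter_subset _ _))
  have h5 : (9 : ℝ) ^ (r.primeFactors.filter (fun p : ℕ => (p : ℤ) ∣ 6 * k)).card ≤
      9 ^ (6 * k).natAbs.primeFactors.card := by
    refine pow_le_pow_right₀ (by norm_num) (card_le_card fun p hp => ?_)
    rw [mem_filter] at hp
    have hpp := Nat.prime_of_mem_primeFactors hp.1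
    refine Nat.mem_primeFactors.2 ⟨hpp, Int.natCast_dvd.1 hp.2, ?_⟩
    rw [Int.natAbs_ne_zero]
    exact mul_ne_zero (by norm_num) hk
  rw [h1]
  have h6 : 0 ≤ ∏ p ∈ r.primeFactors.filter (fun p : ℕ => ¬ (p : ℤ) ∣ 6 * k),
      lh k p (p ^ r.factorization p) := prod_nonneg fun p _ => lh_nonneg _ _ _
  calc (9 : ℝ) ^ (r.primeFactors.filter (fun p : ℕ => (p : ℤ) ∣ 6 * k)).card *
        (pk k r : ℝ) ^ (5 / 6 : ℝ) * _ ≤
      9 ^ (6 * k).natAbs.primeFactors.card * (pk k r : ℝ) ^ (5 / 6 : ℝ) * 3 ^ r.primeFactors.card := by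
        gcongr
    _ = _ := by ring

end H97.DR
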