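import Pool.Agent.H96.DR.Def

/-!
# [DR QGC] MP_4d57ea_nt, chapter Q: points with a large gcd, and the fibres of `(a, b, c) ↦ (a + g b, c)`, 50-100 lines. File Pool/Agent/H97/DR/Qgc.lean

`gcd_cnt`: for `e = gcd(s, c)`, `E < e ≤ T` (as `c ≠ 0`): `s` is one of at most `2 S / e + 1` multiples of `e` in `[-S, S]`, `c` one of at most `2 T / e` nonzero multiples. Sum over `E < e ≤ T`:
`∑ (2S/e + 1)(2T/e) ≤ 4 S T ∑_{e > E} 1/e^2 + 2 T ∑_{e ≤ T} 1/e ≤ 4 S T / E + 2 T (1 + log T)` (`harmonic_le_one_add_log`).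
`fib`: for given `s`, `c` the point is determined by `b`, and `a = s - g b` lies in an interval `(u, u + A]`, so `g b` lies in an interval of length `A` and `b` takes at most `A / g + 1` values.
-/

set_option autoImplicit false

namespace H97.DR

open Finset H23.LP H96.DR

theorem gcd_cnt (S T E : ℕ) (hE : 1 ≤ E) (hT : 1 ≤ T) (Z : Finset (ℤ × ℤ))
    (hZ : ∀ x ∈ Z, |x.1| ≤ S ∧ |x.2| ≤ T ∧ x.2 ≠ 0 ∧ E < Int.gcd x.1 x.2) :
    (Z.card : ℝ) ≤ 4 * S * T / E + 2 * T * (1 + Real.log T) := by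
  classical
  have hlog : 0 ≤ Real.log T := Real.log_nonneg (by exact_mod_cast hT)
  let g : ℕ → Finset (ℤ × ℤ) := fun e =>
    ((Icc (-((S / e : ℕ) : ℤ)) ((S / e : ℕ) : ℤ)) ×ˢ
      ((Icc (-((T / e : ℕ) : ℤ)) ((T / e : ℕ) : ℤ)).erase 0)).image fun y => (y.1 * (e : ℤ), y.2 * (e : ℤ))
  have hsub : Z ⊆ (Ioc E T).biUnion g := by
    intro x hx
    obtain ⟨h1, h2, h3, h4⟩ := hZ x hx
    set e := Int.gcd x.1 x.2 with he
    have he0 : 0 < e := by omega
    have he0' : (0 : ℤ) < e := by exact_mod_cast he0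
    obtain ⟨a, ha⟩ : (e : ℤ) ∣ x.1 := Int.gcd_dvd_left ..
    obtain ⟨b, hb⟩ : (e : ℤ) ∣ x.2 := Int.gcd_dvd_right ..
    have hb0 : b ≠ 0 := by
      rintro rfl
      exact h3 (by rw [hb]; simp)
    have heT : e ≤ T := by
      have h5 : (e : ℤ) ≤ |x.2| := Int.le_of_dvd (abs_pos.2 h3) ((dvd_abs _ _).2 ⟨b, hb⟩)
      have h6 : (e : ℤ) ≤ (T : ℤ) := h5.trans h2
      exact_mod_cast h6
    have ha' : |a| ≤ ((S / e : ℕ) : ℤ) := by
      push_cast
      rw [Int.le_ediv_iff_mul_le he0']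
      rw [ha, abs_mul, abs_of_pos he0'] at h1
      linarith [mul_comm (e : ℤ) |a|]
    have hb' : |b| ≤ ((T / e : ℕ) : ℤ) := by
      push_cast
      rw [Int.le_ediv_iff_mul_le he0']
      rw [hb, abs_mul, abs_of_pos he0'] at h2
      linarith [mul_comm (e : ℤ) |b|]
    rw [mem_biUnion]
    refine ⟨e, mem_Ioc.2 ⟨h4, heT⟩, ?_⟩
    simp only [g]
    rw [mem_image]
    refine ⟨(a, b), ?_, ?_⟩
    · rw [mem_product]
      exact ⟨mem_Icc.2 (abs_le.1 ha'), mem_erase.2 ⟨hb0, mem_Icc.2 (abs_le.1 hb')⟩⟩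
    · ext
      · simp only
        rw [ha]
        ring
      · simp only
        rw [hb]
        ring
  have hge : ∀ e ∈ Ioc E T, ((g e).card : ℝ) ≤ 4 * S * T * ((e : ℝ) ^ 2)⁻¹ + 2 * T * (e : ℝ)⁻¹ := by
    intro e he
    rw [mem_Ioc] at he
    have he0 : 0 < e := by omega
    have he0' : (0 : ℝ) < e := by exact_mod_cast he0
    have h1 : (g e).card ≤ (2 * (S / e) + 1) * (2 * (T / e)) := by
      refine card_image_le.trans ?_
      rw [card_product, card_erase_of_mem (mem_Icc.2 ⟨neg_nonpos.2 (Int.natCast_nonneg _), Int.natCast_nonneg _⟩), Int.card_Icc, Int.card_Icc]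
      generalize S / e = s1
      generalize T / e = t1
      apply Nat.mul_le_mul <;> omega
    have h2 : ((g e).card : ℝ) ≤ (2 * ((S / e : ℕ) : ℝ) + 1) * (2 * ((T / e : ℕ) : ℝ)) := by exact_mod_cast h1
    have h3 : ((S / e : ℕ) : ℝ) ≤ S / e := Nat.cast_div_le
    have h4 : ((T / e : ℕ) : ℝ) ≤ T / e := Nat.cast_div_le
    refine h2.trans ?_
    calc (2 * ((S / e : ℕ) : ℝ) + 1) * (2 * ((T / e : ℕ) : ℝ)) ≤ (2 * ((S : ℝ) / e) + 1) * (2 * ((T : ℝ) / e)) := by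
          apply mul_le_mul <;> first | positivity | linarith
      _ = 4 * S * T * ((e : ℝ) ^ 2)⁻¹ + 2 * T * (e : ℝ)⁻¹ := by
          field_simp
          ring
  by_cases hET : E ≤ T
  · have hsum2 : ∑ e ∈ Ioc E T, ((e : ℝ) ^ 2)⁻¹ ≤ (E : ℝ)⁻¹ := by
      have h := sum_Ioc_inv_sq_le_sub (α := ℝ) (k := E) (n := T) (by omega) hET
      have h' : (0 : ℝ) ≤ (T : ℝ)⁻¹ := by positivity
      linarith
    have hsum1 : ∑ e ∈ Ioc E T, (e : ℝ)⁻¹ ≤ 1 + Real.log T := by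
      have h := harmonic_le_one_add_log T
      rw [harmonic_eq_sum_Icc] at h
      push_cast at h
      refine le_trans ?_ h
      apply sum_le_sum_of_subset_of_nonneg
      · intro e he
        rw [mem_Ioc] at he
        rw [mem_Icc]
        omega
      · intro e _ _
        positivity
    have h1 : (Z.card : ℝ) ≤ ∑ e ∈ Ioc E T, ((g e).card : ℝ) := by
      have h := (card_le_card hsub).trans card_biUnion_le
      exact_mod_cast h
    refine h1.trans ((sum_le_sum hge).trans ?_)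
    rw [sum_add_distrib, ← mul_sum, ← mul_sum]
    have h2 : 4 * (S : ℝ) * T * ∑ e ∈ Ioc E T, ((e : ℝ) ^ 2)⁻¹ ≤ 4 * S * T * (E : ℝ)⁻¹ :=
      mul_le_mul_of_nonneg_left hsum2 (by positivity)
    have h3 : 2 * (T : ℝ) * ∑ e ∈ Ioc E T, (e : ℝ)⁻¹ ≤ 2 * T * (1 + Real.log T) :=
      mul_le_mul_of_nonneg_left hsum1 (by positivity)
    rw [div_eq_mul_inv]
    linarith
  · have h0 : Ioc E T = ∅ := by
      rw [Ioc_eq_empty_iff]
      omega
    rw [h0, biUnion_empty, subset_empty] at hsub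
    rw [hsub]
    simp only [card_empty, Nat.cast_zero]
    positivity

private theorem fib_one (u s : ℤ) (A : ℕ) (g : ℤ) (hg : 1 ≤ g) :
    (((Ioc (s - u - A - 1) (s - u - 1)).filter (g ∣ ·)).card : ℝ) ≤ (A : ℝ) / g + 1 := by
  have hg0 : (0 : ℤ) < g := by omega
  have hgq : (0 : ℚ) < g := by exact_mod_cast hg0
  have h := Int.Ioc_filter_dvd_card (s - u - A - 1) (s - u - 1) hg0
  have hq : (((Ioc (s - u - A - 1) (s - u - 1)).filter (g ∣ ·)).card : ℚ) ≤ (A : ℚ) / g + 1 := by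
    have h2 : (((Ioc (s - u - A - 1) (s - u - 1)).filter (g ∣ ·)).card : ℚ) =
        ((max (⌊((s - u - 1 : ℤ) : ℚ) / (g : ℚ)⌋ - ⌊((s - u - A - 1 : ℤ) : ℚ) / (g : ℚ)⌋) 0 : ℤ) : ℚ) := by
      rw [← h]
      simp
    rw [h2]
    push_cast
    apply max_le
    · have h3 := Int.floor_le (((s : ℚ) - u - 1) / (g : ℚ))
      have h4 := Int.lt_floor_add_one (((s : ℚ) - u - A - 1) / (g : ℚ))
      have h5 : ((s : ℚ) - u - 1) / (g : ℚ) - ((s : ℚ) - u - A - 1) / (g : ℚ) = (A : ℚ) / g := by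
        rw [← sub_div]
        congr 1
        ring
      linarith
    · positivity
  have h6 : (((((Ioc (s - u - A - 1) (s - u - 1)).filter (g ∣ ·)).card : ℚ)) : ℝ) ≤ (((A : ℚ) / g + 1 : ℚ) : ℝ) := by
    exact_mod_cast hq
  push_cast at h6
  exact h6

theorem fib (k : ℤ) (M A : ℕ) (g : ℤ) (hg : 1 ≤ g) (Z : Finset (ℤ × ℤ × ℤ)) (W : Finset (ℤ × ℤ))
    (hZ : ∀ x ∈ Z, x ∈ Bx k M A ∧ (x.1 + g * x.2.1, x.2.2) ∈ W) :
    (Z.card : ℝ) ≤ W.card * ((A : ℝ) / g + 1) := by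
  classical
  have hcard : Z.card = ∑ w ∈ W, (Z.filter fun x => (x.1 + g * x.2.1, x.2.2) = w).card :=
    Finset.card_eq_sum_card_fiberwise (f := fun x : ℤ × ℤ × ℤ => (x.1 + g * x.2.1, x.2.2)) (t := W)
      (fun x hx => (hZ x hx).2)
  rw [hcard]
  push_cast
  have hf : ∀ w ∈ W, ((Z.filter fun x => (x.1 + g * x.2.1, x.2.2) = w).card : ℝ) ≤ (A : ℝ) / g + 1 := by
    intro w _
    set u : ℤ := 2 * LL k ^ 2 * (M * A) with hu
    refine le_trans ?_ (fib_one u w.1 A g hg)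
    have h : (Z.filter fun x => (x.1 + g * x.2.1, x.2.2) = w).card ≤
        ((Ioc (w.1 - u - A - 1) (w.1 - u - 1)).filter (g ∣ ·)).card := by
      apply card_le_card_of_injOn (fun x => g * x.2.1)
      · intro x hx
        rw [mem_coe, mem_filter] at hx
        obtain ⟨hx1, hx2⟩ := hx
        have hbx := (hZ x hx1).1
        unfold Bx Ia at hbx
        rw [mem_product, mem_Ioc] at hbx
        obtain ⟨⟨h1, h2⟩, _⟩ := hbx
        have h3 : x.1 + g * x.2.1 = w.1 := by rw [← hx2]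
        rw [mem_coe, mem_filter, mem_Ioc]
        refine ⟨⟨?_, ?_⟩, Dvd.intro _ rfl⟩
        · rw [← hu] at h1 h2
          linarith
        · rw [← hu] at h1 h2
          linarith
      · intro x hx y hy hxy
        rw [mem_coe, mem_filter] at hx hy
        have h1 : g * x.2.1 = g * y.2.1 := hxy
        have h2 : x.2.1 = y.2.1 := by
          have hg0 : g ≠ 0 := by omega
          exact mul_left_cancel₀ hg0 h1
        have h3 : x.1 + g * x.2.1 = w.1 := by rw [← hx.2]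
        have h4 : y.1 + g * y.2.1 = w.1 := by rw [← hy.2]
        have h5 : x.2.2 = w.2 := by rw [← hx.2]
        have h6 : y.2.2 = w.2 := by rw [← hy.2]
        have h7 : x.1 = y.1 := by rw [h1] at h3; linarith
        exact Prod.ext h7 (Prod.ext h2 (h5.trans h6.symm))
    exact_mod_cast h
  calc ∑ w ∈ W, ((Z.filter fun x => (x.1 + g * x.2.1, x.2.2) = w).card : ℝ) ≤ ∑ _w ∈ W, ((A : ℝ) / g + 1) :=
        sum_le_sum hf
    _ = W.card * ((A : ℝ) / g + 1) := by rw [sum_const, nsmul_eq_mul]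

end H97.DR
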