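import Pool.Agent.H96.DR.Def

/-!
# [DR QNE] MP_4d57ea_nt, chapter Q: the index form does not vanish, 20-50 lines. File Pool/Agent/H97/DR/Qne.lean

`id_xy`: `xx^3 - k yy^3 = (g^3 - k) II`. If `II = 0` then `xx^3 = k yy^3`. If `yy ≠ 0` then `yy^3 ∣ xx^3`, so `yy ∣ xx` (`Int.pow_dvd_pow_iff`), `xx = yy t`, `t^3 = k`: contradiction. So `yy = 0`, `xx = 0`, and
`id_Nc`: `(g^3 - k) c = g yy - xx = 0`, `g^3 ≠ k`, so `c = 0`. Homogeneity: `II k g (e s) (e c) = e^3 II k g s c`.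
-/

set_option autoImplicit false

namespace H97.DR

open H23.LP H96.DR

theorem II_ne (k : ℤ) (hk : ∀ t : ℤ, t ^ 3 ≠ k) (g s c : ℤ) (hc : c ≠ 0) : II k g s c ≠ 0 := by
  intro h
  have h1 := id_xy k g s c
  rw [h, mul_zero, sub_eq_zero] at h1
  by_cases hy : yy g s c = 0
  · rw [hy] at h1
    have hx : xx k g s c = 0 := by
      have h2 : xx k g s c ^ 3 = 0 := by rw [h1]; ring
      exact pow_eq_zero_iff (by norm_num) |>.1 h2
    have h3 := id_Nc k g s c
    rw [hy, hx, mul_zero, sub_zero] at h3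
    rcases mul_eq_zero.1 h3 with h4 | h4
    · exact hk g (by linarith)
    · exact hc h4
  · have h2 : yy g s c ^ 3 ∣ xx k g s c ^ 3 := ⟨k, by rw [h1]; ring⟩
    obtain ⟨t, ht⟩ := (Int.pow_dvd_pow_iff (by norm_num)).1 h2
    rw [ht, mul_pow] at h1
    have h3 : yy g s c ^ 3 * (t ^ 3 - k) = 0 := by linear_combination h1
    rcases mul_eq_zero.1 h3 with h4 | h4
    · exact hy (pow_eq_zero_iff (by norm_num) |>.1 h4)
    · exact hk t (by linarith)

theorem II_hom (k g s c e : ℤ) : II k g (e * s) (e * c) = e ^ 3 * II k g s c := by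
  simp only [II]; ring

end H97.DR
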