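import Pool.Agent.H96.DR.Def

/-!
# [DR QRT] MP_4d57ea_nt, chapter Q: simple roots modulo `d^2`, 100-170 lines. File Pool/Agent/H97/DR/Qrt.lean

`II k g s c = s^3 - 3 k g c^2 s - k (g^3 + k) c^3`, `f(t) = II k g t 1 = t^3 - 3 k g t - k (g^3 + k)`, `f'(t) = 3 (t^2 - k g)`.
`rts k g d`: the roots `σ ∈ [0, d^2)` of `f` modulo `d^2` which are simple modulo every prime `p ∣ d`.
`rts_le`: `#rts ≤ 3^ω(d)`. The map `σ ↦ (σ mod p)_{p ∣ d}` is injective on `rts`: if `σ ≡ τ` modulo `p`, `v = v_p(d)`: `f(σ) - f(τ) = (σ - τ)(σ^2 + σ τ + τ^2 - 3 k g)` and the second factor is `≡ 3 σ^2 - 3 k g ≢ 0` modulo `p`, so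
`p^(2v) ∣ σ - τ` (`IsCoprime.dvd_of_dvd_mul_right`, `p^(2v) ∣ d^2`); for all `p ∣ d`: `d^2 ∣ σ - τ` (`Nat.Coprime` product of the prime powers: `Finset.prod_dvd_of_coprime`), so `σ = τ`. The image lies in a product of root sets of
a monic cubic polynomial over `ZMod p`, each of at most 3 elements (`Polynomial.card_roots'`). (`Finset.card_pi` or induction.)
`to_rts`: let `p ∣ d`. `p ∣ c` would give `p ∣ s^3`, contradiction to `gcd(s, c) = 1`. So `c` is a unit modulo `d^2`; `σ ≡ s c⁻¹`, `0 ≤ σ < d^2`. `II k g s c ≡ c^3 f(σ)` modulo `d^2` (homogeneous of degree 3), so `d^2 ∣ f(σ)`.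
Simple: let `p ∣ d`, `p ∣ 3 (σ^2 - k g)`; `p ∤ 3`, so `σ^2 ≡ k g` and `0 ≡ f(σ) ≡ -2 k g σ - k (g^3 + k)`, `k` a unit: `2 g σ ≡ -(g^3 + k)`; square: `4 g^2 k g ≡ (g^3 + k)^2`, i.e. `(g^3 - k)^2 ≡ 0`, `p ∣ g^3 - k`. Then `g^3 ≡ k`,
`2 g σ ≡ -2 g^3`, `p ∤ 2 g`, `σ ≡ -g^2`, `s ≡ -g^2 c`, `p ∣ yy g s c = s + g^2 c`: excluded by `h4`.
-/

set_option autoImplicit false

namespace H97.DR

open Finset H23.LP H96.DR

open Classical in
/-- the simple roots of `II k g t 1` modulo `d ^ 2` -/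
noncomputable def rts (k g : ℤ) (d : ℕ) : Finset ℕ := (range (d ^ 2)).filter fun σ : ℕ =>
  (d : ℤ) ^ 2 ∣ II k g σ 1 ∧ ∀ p : ℕ, p.Prime → p ∣ d → ¬ (p : ℤ) ∣ 3 * ((σ : ℤ) ^ 2 - k * g)

private theorem mem_rts {k g : ℤ} {d σ : ℕ} : σ ∈ rts k g d ↔ σ < d ^ 2 ∧ (d : ℤ) ^ 2 ∣ II k g σ 1 ∧
    ∀ p : ℕ, p.Prime → p ∣ d → ¬ (p : ℤ) ∣ 3 * ((σ : ℤ) ^ 2 - k * g) := by
  classical
  unfold rts
  rw [mem_filter, mem_range]

private theorem II_sub (k g s t : ℤ) : II k g s 1 - II k g t 1 =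
    (s - t) * (s ^ 2 + s * t + t ^ 2 - 3 * (k * g)) := by
  unfold II
  ring

/-- the roots modulo `p` -/
private noncomputable def Rp (k g : ℤ) (p : ℕ) : Finset ℕ :=
  (range p).filter fun r : ℕ => (p : ℤ) ∣ II k g r 1

private theorem card_Rp (k g : ℤ) (p : ℕ) (hp : p.Prime) : (Rp k g p).card ≤ 3 := by
  classical
  have : Fact p.Prime := ⟨hp⟩
  obtain ⟨F, hF⟩ : ∃ F : Polynomial (ZMod p), F = Polynomial.X ^ 3 +
      (Polynomial.C (-(3 * k * g : ℤ) : ZMod p) * Polynomial.X + Polynomial.C (-(k * (g ^ 3 + k) : ℤ) : ZMod p)) :=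
    ⟨_, rfl⟩
  have hdeg : (Polynomial.C (-(3 * k * g : ℤ) : ZMod p) * Polynomial.X +
      Polynomial.C (-(k * (g ^ 3 + k) : ℤ) : ZMod p)).degree < 3 := by
    refine lt_of_le_of_lt Polynomial.degree_linear_le ?_
    norm_num
  have hmon : F.Monic := by
    rw [hF]
    refine Polynomial.monic_X_pow_add (n := 3) ?_
    exact_mod_cast hdeg
  have hnd : F.natDegree = 3 := by
    rw [hF]
    exact Polynomial.natDegree_eq_of_degree_eq_some (by
      rw [Polynomial.degree_add_eq_left_of_degree_lt]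
      · rw [Polynomial.degree_X_pow]
      · rw [Polynomial.degree_X_pow]
        exact_mod_cast hdeg)
  have h1 : (Rp k g p).card ≤ F.roots.toFinset.card := by
    refine Finset.card_le_card_of_injOn (fun r : ℕ => (r : ZMod p)) ?_ ?_
    · intro r hr
      have hr2 := (mem_filter.1 (mem_coe.1 hr)).2
      rw [mem_coe, Multiset.mem_toFinset, Polynomial.mem_roots hmon.ne_zero, Polynomial.IsRoot.def]
      have h2 : ((II k g r 1 : ℤ) : ZMod p) = 0 := (ZMod.intCast_zmod_eq_zero_iff_dvd _ _).2 hr2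
      have h3 : Polynomial.eval (r : ZMod p) F = ((II k g r 1 : ℤ) : ZMod p) := by
        rw [hF]
        unfold II
        simp only [Polynomial.eval_add, Polynomial.eval_pow, Polynomial.eval_X, Polynomial.eval_mul,
          Polynomial.eval_C]
        push_cast
        ring
      rw [h3, h2]
    · intro a ha b hb hab
      have ha' : a < p := mem_range.1 (mem_filter.1 (mem_coe.1 ha)).1
      have hb' : b < p := mem_range.1 (mem_filter.1 (mem_coe.1 hb)).1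
      have h2 : (a : ZMod p) = (b : ZMod p) := hab
      rw [ZMod.natCast_eq_natCast_iff'] at h2
      rw [Nat.mod_eq_of_lt ha', Nat.mod_eq_of_lt hb'] at h2
      exact h2
  refine h1.trans ((Multiset.toFinset_card_le _).trans ?_)
  rw [← hnd]
  exact Polynomial.card_roots' F

theorem rts_le (k g : ℤ) (d : ℕ) (hd : 0 < d) : (rts k g d).card ≤ 3 ^ d.primeFactors.card := by
  classical
  have h1 : (rts k g d).card ≤ (d.primeFactors.pi fun p => Rp k g p).card := by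
    refine Finset.card_le_card_of_injOn (fun σ p _ => σ % p) ?_ ?_
    · intro σ hσ
      obtain ⟨-, h2, -⟩ := mem_rts.1 (mem_coe.1 hσ)
      rw [mem_coe, mem_pi]
      intro p hp
      have hpp := Nat.prime_of_mem_primeFactors hp
      have hpd := Nat.dvd_of_mem_primeFactors hp
      show σ % p ∈ Rp k g p
      refine mem_filter.2 ⟨mem_range.2 (Nat.mod_lt _ hpp.pos), ?_⟩
      have h3 : (p : ℤ) ∣ II k g σ 1 := by
        refine dvd_trans ?_ h2
        exact dvd_pow (by exact_mod_cast hpd) two_ne_zero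
      have h4 : (p : ℤ) ∣ (σ : ℤ) - ((σ % p : ℕ) : ℤ) := by
        have h5 := Nat.mod_add_div σ p
        refine ⟨((σ / p : ℕ) : ℤ), ?_⟩
        have h6 : ((σ % p : ℕ) : ℤ) + (p : ℤ) * ((σ / p : ℕ) : ℤ) = (σ : ℤ) := by exact_mod_cast h5
        linarith
      have h5 : (p : ℤ) ∣ II k g σ 1 - II k g ((σ % p : ℕ) : ℤ) 1 := by
        rw [II_sub]
        exact Dvd.dvd.mul_right h4 _
      have h6 := dvd_sub h3 h5
      rw [sub_sub_cancel] at h6
      exact h6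
    · intro σ hσ τ hτ hst
      obtain ⟨hσ1, hσ2, hσ3⟩ := mem_rts.1 (mem_coe.1 hσ)
      obtain ⟨hτ1, hτ2, hτ3⟩ := mem_rts.1 (mem_coe.1 hτ)
      have hdv : d ^ 2 ∣ ((σ : ℤ) - τ).natAbs := by
        rw [Nat.dvd_iff_prime_pow_dvd_dvd]
        intro p j hp hj
        rcases Nat.eq_zero_or_pos j with rfl | hj0
        · rw [pow_zero]
          exact one_dvd _
        have hpd : p ∣ d := hp.dvd_of_dvd_pow ((dvd_pow_self p hj0.ne').trans hj)
        have hpm : p ∈ d.primeFactors := Nat.mem_primeFactors.2 ⟨hp, hpd, hd.ne'⟩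
        have h2 : σ % p = τ % p := congrFun (congrFun hst p) hpm
        have h3 : (p : ℤ) ∣ (σ : ℤ) - τ := by
          have h4 : τ ≡ σ [MOD p] := h2.symm
          exact (Nat.modEq_iff_dvd.1 h4)
        have h4 : (p : ℤ) ^ j ∣ ((σ : ℤ) - τ) * ((σ : ℤ) ^ 2 + σ * τ + (τ : ℤ) ^ 2 - 3 * (k * g)) := by
          rw [← II_sub]
          have h5 : (p : ℤ) ^ j ∣ (d : ℤ) ^ 2 := by exact_mod_cast hj
          exact dvd_sub (h5.trans hσ2) (h5.trans hτ2)
        have h5 : ¬ (p : ℤ) ∣ (σ : ℤ) ^ 2 + σ * τ + (τ : ℤ) ^ 2 - 3 * (k * g) := by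
          intro h6
          apply hσ3 p hp hpd
          have h7 : 3 * ((σ : ℤ) ^ 2 - k * g) = ((σ : ℤ) ^ 2 + σ * τ + (τ : ℤ) ^ 2 - 3 * (k * g)) +
              ((σ : ℤ) - τ) * (τ + 2 * σ) := by ring
          rw [h7]
          exact dvd_add h6 (Dvd.dvd.mul_right h3 _)
        have hpi : Prime (p : ℤ) := Nat.prime_iff_prime_int.1 hp
        have h6 : IsCoprime ((p : ℤ) ^ j) ((σ : ℤ) ^ 2 + σ * τ + (τ : ℤ) ^ 2 - 3 * (k * g)) :=
          IsCoprime.pow_left ((Prime.coprime_iff_not_dvd hpi).2 h5)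
        have h7 := h6.dvd_of_dvd_mul_right h4
        have h8 := Int.natAbs_dvd_natAbs.2 h7
        rw [Int.natAbs_pow, Int.natAbs_natCast] at h8
        exact h8
      have hlt : ((σ : ℤ) - τ).natAbs < d ^ 2 := by omega
      have h0 := Nat.eq_zero_of_dvd_of_lt hdv hlt
      omega
  refine h1.trans ?_
  rw [card_pi]
  exact Finset.prod_le_pow_card _ _ _ fun p hp => card_Rp k g p (Nat.prime_of_mem_primeFactors hp)

theorem to_rts (k g s c : ℤ) (d : ℕ) (hd : 0 < d) (h1 : Int.gcd s c = 1)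
    (h2 : (d : ℤ) ^ 2 ∣ II k g s c) (h3 : ∀ p : ℕ, p.Prime → p ∣ d → ¬ (p : ℤ) ∣ 6 * k)
    (h4 : ∀ p : ℕ, p.Prime → p ∣ d → (p : ℤ) ∣ g ^ 3 - k → ¬ (p : ℤ) ∣ yy g s c) :
    ∃ σ ∈ rts k g d, ((d ^ 2 : ℕ) : ℤ) ∣ s - (σ : ℤ) * c := by
  have hcop : ∀ p : ℕ, p.Prime → p ∣ d → ¬ (p : ℤ) ∣ c := by
    intro p hp hpd hpc
    have hpi : Prime (p : ℤ) := Nat.prime_iff_prime_int.1 hp
    have h5 : (p : ℤ) ∣ II k g s c := (dvd_pow (by exact_mod_cast hpd) two_ne_zero).trans h2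
    have h6 : (p : ℤ) ∣ s ^ 3 := by
      have h7 : s ^ 3 = II k g s c + c * (3 * k * g * c * s + k * (g ^ 3 + k) * c ^ 2) := by
        unfold II
        ring
      rw [h7]
      exact dvd_add h5 (Dvd.dvd.mul_right hpc _)
    have h7 : (p : ℤ) ∣ s := hpi.dvd_of_dvd_pow h6
    have h8 : (p : ℤ) ∣ (Int.gcd s c : ℤ) := Int.dvd_coe_gcd h7 hpc
    rw [h1] at h8
    exact hpi.not_isUnit (isUnit_of_dvd_one (by exact_mod_cast h8))
  have hcd : IsCoprime c ((d : ℤ) ^ 2) := by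
    refine IsCoprime.pow_right ?_
    rw [Int.isCoprime_iff_gcd_eq_one]
    by_contra hne
    obtain ⟨p, hp, hpd⟩ := Nat.exists_prime_and_dvd hne
    have h5 : (p : ℤ) ∣ (Int.gcd c d : ℤ) := by exact_mod_cast hpd
    have h6 : (p : ℤ) ∣ (d : ℤ) := h5.trans (Int.gcd_dvd_right _ _)
    exact hcop p hp (by exact_mod_cast h6) (h5.trans (Int.gcd_dvd_left _ _))
  obtain ⟨a, b, hab⟩ := id hcd
  have hd2 : (0 : ℤ) < (d : ℤ) ^ 2 := by positivity
  have hmod := Int.emod_nonneg (s * a) hd2.ne'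
  obtain ⟨σ, hσ⟩ := Int.eq_ofNat_of_zero_le hmod
  have hσlt : σ < d ^ 2 := by
    have h5 := Int.emod_lt_of_pos (s * a) hd2
    rw [hσ] at h5
    exact_mod_cast h5
  have hdv : (d : ℤ) ^ 2 ∣ s - (σ : ℤ) * c := by
    have h5 : (d : ℤ) ^ 2 ∣ s * a - σ := by
      rw [← hσ]
      exact Int.dvd_self_sub_emod
    have h6 : s - (σ : ℤ) * c = (s * a - σ) * c + (d : ℤ) ^ 2 * (s * b) := by
      linear_combination (-s) * hab
    rw [h6]
    exact dvd_add (Dvd.dvd.mul_right h5 _) (dvd_mul_right _ _)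
  have hf : (d : ℤ) ^ 2 ∣ II k g σ 1 := by
    have h5 : (d : ℤ) ^ 2 ∣ c ^ 3 * II k g σ 1 := by
      have h6 : c ^ 3 * II k g σ 1 = II k g s c - (s - σ * c) * (s ^ 2 + s * (σ * c) + (σ * c) ^ 2 -
          3 * k * g * c ^ 2) := by
        unfold II
        ring
      rw [h6]
      exact dvd_sub h2 (Dvd.dvd.mul_right hdv _)
    exact (IsCoprime.pow_left hcd : IsCoprime (c ^ 3) ((d : ℤ) ^ 2)).symm.dvd_of_dvd_mul_left h5
  refine ⟨σ, mem_rts.2 ⟨hσlt, hf, ?_⟩, by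
    rw [Nat.cast_pow]
    exact hdv⟩
  intro p hp hpd h5
  have hpi : Prime (p : ℤ) := Nat.prime_iff_prime_int.1 hp
  have h6 := h3 p hp hpd
  have hp3 : ¬ (p : ℤ) ∣ 3 := fun h => h6 (by
    have : (6 : ℤ) * k = 3 * (2 * k) := by ring
    rw [this]
    exact Dvd.dvd.mul_right h _)
  have hp2 : ¬ (p : ℤ) ∣ 2 := fun h => h6 (by
    have : (6 : ℤ) * k = 2 * (3 * k) := by ring
    rw [this]
    exact Dvd.dvd.mul_right h _)
  have hpk : ¬ (p : ℤ) ∣ k := fun h => h6 (Dvd.dvd.mul_left h _)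
  have h7 : (p : ℤ) ∣ (σ : ℤ) ^ 2 - k * g := (hpi.dvd_or_dvd h5).resolve_left hp3
  have hpd2 : (p : ℤ) ∣ (d : ℤ) ^ 2 := dvd_pow (by exact_mod_cast hpd) two_ne_zero
  have h8 : (p : ℤ) ∣ k * (2 * g * σ + (g ^ 3 + k)) := by
    have h9 : k * (2 * g * σ + (g ^ 3 + k)) = σ * ((σ : ℤ) ^ 2 - k * g) - II k g σ 1 := by
      unfold II
      ring
    rw [h9]
    exact dvd_sub (Dvd.dvd.mul_left h7 _) (hpd2.trans hf)
  have h9 : (p : ℤ) ∣ 2 * g * σ + (g ^ 3 + k) := (hpi.dvd_or_dvd h8).resolve_left hpk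
  have h10 : (p : ℤ) ∣ (g ^ 3 - k) ^ 2 := by
    have h11 : (g ^ 3 - k) ^ 2 = 4 * g ^ 2 * ((σ : ℤ) ^ 2 - k * g) -
        (2 * g * σ + (g ^ 3 + k)) * (2 * g * σ - (g ^ 3 + k)) := by ring
    rw [h11]
    exact dvd_sub (Dvd.dvd.mul_left h7 _) (Dvd.dvd.mul_right h9 _)
  have h11 : (p : ℤ) ∣ g ^ 3 - k := hpi.dvd_of_dvd_pow h10
  have hpg : ¬ (p : ℤ) ∣ g := by
    intro h
    apply hpk
    have h12 : k = g * g ^ 2 - (g ^ 3 - k) := by ring
    rw [h12]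
    exact dvd_sub (Dvd.dvd.mul_right h _) h11
  have h12 : (p : ℤ) ∣ 2 * (g * (σ + g ^ 2)) := by
    have h13 : 2 * (g * (σ + g ^ 2)) = (2 * g * σ + (g ^ 3 + k)) + (g ^ 3 - k) := by ring
    rw [h13]
    exact dvd_add h9 h11
  have h13 : (p : ℤ) ∣ σ + g ^ 2 :=
    (hpi.dvd_or_dvd ((hpi.dvd_or_dvd h12).resolve_left hp2)).resolve_left hpg
  apply h4 p hp hpd h11
  have h14 : yy g s c = (s - σ * c) + (σ + g ^ 2) * c := by
    unfold yy
    ring
  rw [h14]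
  exact dvd_add (hpd2.trans hdv) (Dvd.dvd.mul_right h13 _)

end H97.DR
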