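import Pool.Agent.H97.DR.Qla
import Pool.Agent.H97.DR.Qrt
import Pool.Agent.H23.LP.Tau

/-!
# [DR QPC] MP_4d57ea_nt, chapter Q: primitive `(s, c)` with a large square divisor of the index form, 50-100 lines. File Pool/Agent/H97/DR/Qpc.lean

`4^ω(d) ≤ C₁ d^ε` from `tau (ε/2)` (square it), `3^ω ≤ 4^ω`. Every element of `Z` lies, for some `d ∈ (D, N]` and some `σ ∈ rts k g d` (`to_rts`), in the set of `lat2` for the modulus `d^2`. So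
`#Z ≤ ∑_{D < d ≤ N} 3^ω(d) (49 S T / d^2 + 2) ≤ C₁ N^ε (49 S T ∑_{d > D} 1/d^2 + 2 N) ≤ C₁ N^ε (49 S T / D + 2 N)` (`∑_{D < d ≤ N} 1/d^2 ≤ 1/D`, telescoping `1/d^2 ≤ 1/(d-1) - 1/d`;
`Finset.card_biUnion_le`). `C = 49 C₁`.
-/

set_option autoImplicit false

namespace H97.DR

open Finset H23.LP H96.DR

private theorem qpc_sum (D N : ℕ) (hD : 1 ≤ D) :
    ∑ d ∈ Ioc D N, ((d : ℝ) ^ 2)⁻¹ ≤ (D : ℝ)⁻¹ := by
  rcases le_or_gt D N with h | h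
  · refine (sum_Ioc_inv_sq_le_sub (by omega) h).trans ?_
    have : (0 : ℝ) ≤ (N : ℝ)⁻¹ := by positivity
    linarith
  · rw [Ioc_eq_empty (by omega), sum_empty]
    positivity

open Classical in
private theorem qpc_card (k g : ℤ) (S T D N : ℕ) (hS : 1 ≤ S) (hT : 1 ≤ T) (hD : 1 ≤ D)
    (Z : Finset (ℤ × ℤ)) (hZ : ∀ x ∈ Z, |x.1| ≤ S ∧ |x.2| ≤ T ∧ Int.gcd x.1 x.2 = 1 ∧ ∃ d : ℕ, D < d ∧ d ≤ N ∧
      (d : ℤ) ^ 2 ∣ II k g x.1 x.2 ∧ (∀ p : ℕ, p.Prime → p ∣ d → ¬ (p : ℤ) ∣ 6 * k) ∧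
      ∀ p : ℕ, p.Prime → p ∣ d → (p : ℤ) ∣ g ^ 3 - k → ¬ (p : ℤ) ∣ yy g x.1 x.2) :
    (Z.card : ℝ) ≤ ∑ d ∈ Ioc D N, (3 : ℝ) ^ d.primeFactors.card * (49 * S * T * ((d : ℝ) ^ 2)⁻¹ + 2) := by
  let L : ℕ → ℕ → Finset (ℤ × ℤ) := fun d σ => (Icc (-(S : ℤ)) S ×ˢ Icc (-(T : ℤ)) T).filter fun x =>
      (((d ^ 2 : ℕ) : ℤ)) ∣ x.1 - (σ : ℤ) * x.2 ∧ Int.gcd x.1 x.2 = 1
  have h1 : Z ⊆ (Ioc D N).biUnion fun d => (rts k g d).biUnion fun σ => L d σ := by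
    intro x hx
    obtain ⟨h1, h2, h3, d, h4, h5, h6, h7, h8⟩ := hZ x hx
    obtain ⟨σ, hσ, hdvd⟩ := to_rts k g x.1 x.2 d (by omega) h3 h6 h7 h8
    refine mem_biUnion.2 ⟨d, mem_Ioc.2 ⟨h4, h5⟩, mem_biUnion.2 ⟨σ, hσ, mem_filter.2 ⟨?_, hdvd, h3⟩⟩⟩
    rw [mem_product, mem_Icc, mem_Icc]
    exact ⟨abs_le.1 h1, abs_le.1 h2⟩
  have h2 : (Z.card : ℝ) ≤ ∑ d ∈ Ioc D N, ∑ σ ∈ rts k g d, ((L d σ).card : ℝ) := by
    have h3 : Z.card ≤ ∑ d ∈ Ioc D N, ∑ σ ∈ rts k g d, (L d σ).card :=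
      (card_le_card h1).trans (card_biUnion_le.trans (sum_le_sum fun d _ => card_biUnion_le))
    exact_mod_cast h3
  refine h2.trans (sum_le_sum fun d hd => ?_)
  have hd0 : 0 < d := by
    have := (mem_Ioc.1 hd).1
    omega
  have h4 : ∀ σ ∈ rts k g d, ((L d σ).card : ℝ) ≤ 49 * S * T * ((d : ℝ) ^ 2)⁻¹ + 2 := by
    intro σ _
    have h5 := lat2 (d ^ 2) (by positivity) (σ : ℤ) S T hS hT
    have h6 : ((d ^ 2 : ℕ) : ℝ) = (d : ℝ) ^ 2 := Nat.cast_pow d 2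
    rw [h6, div_eq_mul_inv] at h5
    refine le_trans (le_of_eq ?_) h5
    congr!
  have h7 := sum_le_card_nsmul (rts k g d) _ _ h4
  refine h7.trans ?_
  rw [nsmul_eq_mul]
  refine mul_le_mul_of_nonneg_right ?_ (by positivity)
  exact_mod_cast rts_le k g d hd0

theorem prim_cnt (ε : ℝ) (hε : 0 < ε) : ∃ C : ℝ, 1 ≤ C ∧ ∀ (k g : ℤ) (S T D N : ℕ), 1 ≤ S → 1 ≤ T →
    1 ≤ D → 1 ≤ N → ∀ Z : Finset (ℤ × ℤ),
    (∀ x ∈ Z, |x.1| ≤ S ∧ |x.2| ≤ T ∧ Int.gcd x.1 x.2 = 1 ∧ ∃ d : ℕ, D < d ∧ d ≤ N ∧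
      (d : ℤ) ^ 2 ∣ II k g x.1 x.2 ∧ (∀ p : ℕ, p.Prime → p ∣ d → ¬ (p : ℤ) ∣ 6 * k) ∧
      ∀ p : ℕ, p.Prime → p ∣ d → (p : ℤ) ∣ g ^ 3 - k → ¬ (p : ℤ) ∣ yy g x.1 x.2) →
    (Z.card : ℝ) ≤ C * (N : ℝ) ^ ε * ((S : ℝ) * T / D + N) := by
  obtain ⟨C₀, hC₀, htau⟩ := tau (ε / 2) (by positivity)
  have h3 : ∀ d : ℕ, 0 < d → (3 : ℝ) ^ d.primeFactors.card ≤ C₀ ^ 2 * (d : ℝ) ^ ε := by
    intro d hd
    have hd' : (0 : ℝ) < d := by exact_mod_cast hd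
    calc (3 : ℝ) ^ d.primeFactors.card ≤ (4 : ℝ) ^ d.primeFactors.card :=
          pow_le_pow_left₀ (by norm_num) (by norm_num) _
      _ = ((2 : ℝ) ^ d.primeFactors.card) ^ 2 := by
          rw [← pow_mul, mul_comm, pow_mul]
          norm_num
      _ ≤ (C₀ * (d : ℝ) ^ (ε / 2)) ^ 2 := pow_le_pow_left₀ (by positivity) (htau d hd) 2
      _ = C₀ ^ 2 * (d : ℝ) ^ ε := by
          rw [mul_pow]
          congr 1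
          rw [← Real.rpow_natCast, ← Real.rpow_mul hd'.le]
          norm_num
  refine ⟨max 1 (49 * C₀ ^ 2), le_max_left _ _, ?_⟩
  intro k g S T D N hS hT hD hN Z hZ
  refine (qpc_card k g S T D N hS hT hD Z hZ).trans ?_
  have hD' : (0 : ℝ) < D := by exact_mod_cast hD
  have hNε : (0 : ℝ) ≤ (N : ℝ) ^ ε := by positivity
  have h4 : ∑ d ∈ Ioc D N, (3 : ℝ) ^ d.primeFactors.card * (49 * S * T * ((d : ℝ) ^ 2)⁻¹ + 2) ≤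
      ∑ d ∈ Ioc D N, C₀ ^ 2 * (N : ℝ) ^ ε * (49 * S * T * ((d : ℝ) ^ 2)⁻¹ + 2) := by
    refine sum_le_sum fun d hd => ?_
    obtain ⟨hd1, hd2⟩ := mem_Ioc.1 hd
    refine mul_le_mul_of_nonneg_right ((h3 d (by omega)).trans ?_) (by positivity)
    refine mul_le_mul_of_nonneg_left ?_ (by positivity)
    exact Real.rpow_le_rpow (by positivity) (by exact_mod_cast hd2) hε.le
  refine h4.trans ?_
  rw [← mul_sum, sum_add_distrib, ← mul_sum, sum_const, Nat.card_Ioc, nsmul_eq_mul]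
  have h5 : 49 * (S : ℝ) * T * ∑ d ∈ Ioc D N, ((d : ℝ) ^ 2)⁻¹ ≤ 49 * S * T * (D : ℝ)⁻¹ :=
    mul_le_mul_of_nonneg_left (qpc_sum D N hD) (by positivity)
  have h6 : ((N - D : ℕ) : ℝ) * 2 ≤ 49 * N := by
    have h7 : ((N - D : ℕ) : ℝ) ≤ N := by exact_mod_cast Nat.sub_le N D
    have h8 : (0 : ℝ) ≤ N := Nat.cast_nonneg N
    linarith
  calc C₀ ^ 2 * (N : ℝ) ^ ε * (49 * (S : ℝ) * T * ∑ d ∈ Ioc D N, ((d : ℝ) ^ 2)⁻¹ + ((N - D : ℕ) : ℝ) * 2)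
      ≤ C₀ ^ 2 * (N : ℝ) ^ ε * (49 * S * T * (D : ℝ)⁻¹ + 49 * N) :=
        mul_le_mul_of_nonneg_left (add_le_add h5 h6) (by positivity)
    _ = 49 * C₀ ^ 2 * (N : ℝ) ^ ε * ((S : ℝ) * T / D + N) := by
        rw [div_eq_mul_inv]
        ring
    _ ≤ max 1 (49 * C₀ ^ 2) * (N : ℝ) ^ ε * ((S : ℝ) * T / D + N) := by
        refine mul_le_mul_of_nonneg_right (mul_le_mul_of_nonneg_right (le_max_right _ _) hNε) ?_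
        positivity

end H97.DR
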