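import Pool.Agent.H97.DR.Qsf
import Pool.Agent.H97.DR.Qne
import Pool.Agent.H97.DR.Qpc
import Pool.Agent.H97.DR.Qgc

/-!
# [DR QBD] MP_4d57ea_nt, chapter Q: the bad lines, 120-200 lines. File Pool/Agent/H97/DR/Qbd.lean

`L = LL k`, `G = Gn A`, `g ∈ (G, 2G]`, `A ^ 0.0062 ≤ G ≤ 2 A ^ 0.0062`. Points `x = (a, b, c)` of the box: `s = a + g b`, `|s| ≤ S := 8 L^2 (M+1) G A`, `1 ≤ c ≤ T := (M+1) A`, so `II k g s c ≠ 0` (`II_ne`, `Qne.lean`).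
`|II| ≤ 10 L^2 (S^3 + g S T^2 + g^3 T^3) ≤ C A^3.04`. Let `W` be the set of the pairs `(s, c)` of the bad points; `#bad ≤ #W (A / g + 1) ≤ 2 A^(1 - 0.0062) #W` (`fib`). `e = gcd(s, c)`, `s = e s'`, `c = e c'`, `II k g s c = e^3 II k g s' c'`.
(1) `e > E := ⌊A ^ 0.0126⌋`: `gcd_cnt`: `≤ 4 S T / E + 2 T (1 + log T) ≤ C A^(2.0062 - 0.0126)`.
(2) `e ≤ E`: `SF_mul`: `A^0.09 < SF |II| ≤ e^4 SF |II'|`, so `SF |II'| > A^(0.09 - 0.0504) = A^0.0396` and `SF_sq`: `d^2 ∣ II'`, `d^3 ≥ SF`, `d > D := ⌊A^0.0132⌋ - 1` or so (`d ≥ A^0.0132`), `d ≤ N := ⌈A^1.6⌉` (`d^2 ≤ |II'|`).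
The primes `p ∣ d` divide `II`, so do not divide `6k`; if `p ∣ g^3 - k` then `p ∤ yy g s c = e yy g s' c'`, so `p ∤ yy g s' c'`. For every `e ≤ E` the pairs `(s', c')` are counted by `prim_cnt` (`ε = 0.001`) with `S`, `T` (`|s'| ≤ S / e`, `|c'| ≤ T / e`;
use `⌈S/e⌉`, `⌈T/e⌉` or simply `S`, `T` and the factor `#e ≤ A^0.0126`?: NO: use `S/e`, `T/e`: `∑_e 1/e^2` converges; `S / e ≥ 1`, `T / e ≥ 1`): `≤ C N^0.001 (4 S T / (e^2 D) + N)`; sum over `e ≤ E`: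
`≤ C' A^0.0016 (A^(2.0062 - 0.0132) + A^(1.6 + 0.0126)) ≤ C'' A^(2.0062 - 0.0116)`.
Total: `#bad ≤ 2 A^0.9938 C (A^1.9936 + A^1.9946) ≤ C A^2.9884 ≤ A^2.9938` for large `A`.
-/

set_option autoImplicit false

namespace H97.DR

open Finset H23.LP H96.DR

private lemma II_bd {k g s c l G T S : ℤ} (hl : |k| ≤ l) (hl1 : 1 ≤ l) (hG : 1 ≤ G) (hT : 1 ≤ T)
    (hg0 : 0 ≤ g) (hg : g ≤ 2 * G) (hS : S = 8 * l ^ 2 * G * T) (hs : |s| ≤ S) (hc : |c| ≤ T) :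
    |II k g s c| ≤ 3 * S ^ 3 := by
  have hS0 : 0 ≤ S := by rw [hS]; positivity
  have hk0 := abs_nonneg k
  have h1 : |s ^ 3| ≤ S ^ 3 := by rw [abs_pow]; gcongr
  have h2 : |3 * k * g * c ^ 2 * s| ≤ 3 * l * (2 * G) * T ^ 2 * S := by
    rw [abs_mul, abs_mul, abs_mul, abs_mul, abs_pow, abs_of_nonneg hg0,
      abs_of_nonneg (by norm_num : (0 : ℤ) ≤ 3)]
    gcongr
  have h3 : |k * (g ^ 3 + k) * c ^ 3| ≤ l * ((2 * G) ^ 3 + l) * T ^ 3 := by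
    rw [abs_mul, abs_mul, abs_pow]
    have : |g ^ 3 + k| ≤ (2 * G) ^ 3 + l := (abs_add_le _ _).trans
      (add_le_add (by rw [abs_pow, abs_of_nonneg hg0]; gcongr) hl)
    gcongr
  have h4 : 3 * l * (2 * G) * T ^ 2 * S ≤ S ^ 3 := by
    have : 3 * l * (2 * G) * T ^ 2 ≤ S ^ 2 := by
      have e1 : (1 : ℤ) ≤ l ^ 3 := one_le_pow₀ hl1
      have e2 : 3 * l * (2 * G) * T ^ 2 * 1 ≤ 3 * l * (2 * G) * T ^ 2 * (11 * (l ^ 3 * G)) := by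
        gcongr
        have : (1 : ℤ) ≤ l ^ 3 * G := one_le_mul_of_one_le_of_one_le e1 hG
        linarith
      have e3 : S ^ 2 = 64 * (l ^ 4 * G ^ 2 * T ^ 2) := by rw [hS]; ring
      have e4 : 3 * l * (2 * G) * T ^ 2 * (11 * (l ^ 3 * G)) = 66 * (l ^ 4 * G ^ 2 * T ^ 2) := by ring
      have e5 : 3 * l * (2 * G) * T ^ 2 * 1 ≤ 3 * l * (2 * G) * T ^ 2 * (10 * (l ^ 3 * G)) := by
        gcongr
        have : (1 : ℤ) ≤ l ^ 3 * G := one_le_mul_of_one_le_of_one_le e1 hG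
        linarith
      have e6 : 3 * l * (2 * G) * T ^ 2 * (10 * (l ^ 3 * G)) = 60 * (l ^ 4 * G ^ 2 * T ^ 2) := by ring
      have e7 : 0 ≤ l ^ 4 * G ^ 2 * T ^ 2 := by positivity
      linarith
    calc 3 * l * (2 * G) * T ^ 2 * S ≤ S ^ 2 * S := by gcongr
      _ = S ^ 3 := by ring
  have h5 : l * ((2 * G) ^ 3 + l) * T ^ 3 ≤ S ^ 3 := by
    have e1 : (1 : ℤ) ≤ G ^ 3 := one_le_pow₀ hG
    have e2 : (1 : ℤ) ≤ l ^ 4 := one_le_pow₀ hl1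
    have e0 : l ≤ l ^ 2 := by nlinarith
    have e3 : l * ((2 * G) ^ 3 + l) ≤ 9 * (l ^ 2 * G ^ 3) := by
      have a1 : l * (2 * G) ^ 3 ≤ 8 * (l ^ 2 * G ^ 3) := by
        calc l * (2 * G) ^ 3 = 8 * (l * G ^ 3) := by ring
          _ ≤ 8 * (l ^ 2 * G ^ 3) := by gcongr
      have a2 : l * l ≤ l ^ 2 * G ^ 3 := by
        calc l * l = l ^ 2 * 1 := by ring
          _ ≤ l ^ 2 * G ^ 3 := by gcongr
      linarith
    have e4 : S ^ 3 = 512 * (l ^ 2 * G ^ 3 * T ^ 3 * l ^ 4) := by rw [hS]; ring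
    have e5 : l ^ 2 * G ^ 3 * T ^ 3 * 1 ≤ l ^ 2 * G ^ 3 * T ^ 3 * l ^ 4 := by gcongr
    have e6 : l * ((2 * G) ^ 3 + l) * T ^ 3 ≤ 9 * (l ^ 2 * G ^ 3) * T ^ 3 := by gcongr
    have e7 : 0 ≤ l ^ 2 * G ^ 3 * T ^ 3 := by positivity
    linarith
  have h6 : |II k g s c| ≤ |s ^ 3| + |3 * k * g * c ^ 2 * s| + |k * (g ^ 3 + k) * c ^ 3| := by
    rw [II]
    exact (abs_sub _ _).trans (add_le_add (abs_sub _ _) le_rfl)
  linarith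

private lemma one_e {k g : ℤ} {e S T D N : ℕ} {ε C : ℝ} (hC0 : 0 ≤ C) (he : 1 ≤ e) (heS : e ≤ S)
    (heT : e ≤ T) (hD : 1 ≤ D) (hN : 1 ≤ N)
    (hC : ∀ (k g : ℤ) (S T D N : ℕ), 1 ≤ S → 1 ≤ T →
    1 ≤ D → 1 ≤ N → ∀ Z : Finset (ℤ × ℤ),
    (∀ x ∈ Z, |x.1| ≤ S ∧ |x.2| ≤ T ∧ Int.gcd x.1 x.2 = 1 ∧ ∃ d : ℕ, D < d ∧ d ≤ N ∧
      (d : ℤ) ^ 2 ∣ II k g x.1 x.2 ∧ (∀ p : ℕ, p.Prime → p ∣ d → ¬ (p : ℤ) ∣ 6 * k) ∧
      ∀ p : ℕ, p.Prime → p ∣ d → (p : ℤ) ∣ g ^ 3 - k → ¬ (p : ℤ) ∣ yy g x.1 x.2) →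
    (Z.card : ℝ) ≤ C * (N : ℝ) ^ ε * ((S : ℝ) * T / D + N))
    (W : Finset (ℤ × ℤ)) (hW : ∀ x ∈ W, |x.1| ≤ S ∧ |x.2| ≤ T ∧ Int.gcd x.1 x.2 = e ∧
      ∃ d : ℕ, D < d ∧ d ≤ N ∧
      (d : ℤ) ^ 2 ∣ II k g (x.1 / e) (x.2 / e) ∧ (∀ p : ℕ, p.Prime → p ∣ d → ¬ (p : ℤ) ∣ 6 * k) ∧
      ∀ p : ℕ, p.Prime → p ∣ d → (p : ℤ) ∣ g ^ 3 - k → ¬ (p : ℤ) ∣ yy g (x.1 / e) (x.2 / e)) :
    (W.card : ℝ) ≤ C * (N : ℝ) ^ ε * ((S : ℝ) * T / (e ^ 2 * D) + N) := by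
  have he0 : (0 : ℤ) < e := by exact_mod_cast he
  have hd1 : ∀ x ∈ W, (e : ℤ) ∣ x.1 ∧ (e : ℤ) ∣ x.2 := by
    intro x hx
    have h := (hW x hx).2.2.1
    exact ⟨by rw [← h]; exact Int.gcd_dvd_left _ _, by rw [← h]; exact Int.gcd_dvd_right _ _⟩
  have hcard : (W.image fun x => (x.1 / (e : ℤ), x.2 / (e : ℤ))).card = W.card := by
    apply card_image_of_injOn
    intro x hx y hy hxy
    obtain ⟨a1, a2⟩ := hd1 x hx
    obtain ⟨b1, b2⟩ := hd1 y hy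
    simp only [Prod.mk.injEq] at hxy
    obtain ⟨h1, h2⟩ := hxy
    ext
    · rw [← Int.ediv_mul_cancel a1, ← Int.ediv_mul_cancel b1, h1]
    · rw [← Int.ediv_mul_cancel a2, ← Int.ediv_mul_cancel b2, h2]
  have hdv : ∀ (u : ℤ) (R : ℕ), (e : ℤ) ∣ u → |u| ≤ R → |u / e| ≤ ((R / e : ℕ) : ℤ) := by
    rintro u R ⟨v, rfl⟩ h
    rw [Int.mul_ediv_cancel_left _ he0.ne', Int.natCast_div, Int.le_ediv_iff_mul_le he0]
    rw [abs_mul, abs_of_pos he0] at h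
    linarith
  have h := hC k g (S / e) (T / e) D N (Nat.div_pos heS he) (Nat.div_pos heT he) hD hN
    (W.image fun x => (x.1 / (e : ℤ), x.2 / (e : ℤ))) (by
      intro y hy
      obtain ⟨x, hx, rfl⟩ := mem_image.1 hy
      obtain ⟨h1, h2, h3, d, h4, h5, h6, h7, h8⟩ := hW x hx
      obtain ⟨a1, a2⟩ := hd1 x hx
      refine ⟨hdv _ _ a1 h1, hdv _ _ a2 h2, ?_, d, h4, h5, h6, h7, h8⟩
      have := Int.gcd_div_gcd_div_gcd (i := x.1) (j := x.2) (by rw [h3]; exact he)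
      rw [h3] at this
      exact this)
  rw [hcard] at h
  refine h.trans ?_
  have he1 : (0 : ℝ) < e := by exact_mod_cast he
  have hD1 : (0 : ℝ) < D := by exact_mod_cast hD
  have hS : ((S / e : ℕ) : ℝ) ≤ S / e := Nat.cast_div_le
  have hT : ((T / e : ℕ) : ℝ) ≤ T / e := Nat.cast_div_le
  have : ((S / e : ℕ) : ℝ) * ((T / e : ℕ) : ℝ) / D ≤ (S : ℝ) * T / (e ^ 2 * D) := by
    calc ((S / e : ℕ) : ℝ) * ((T / e : ℕ) : ℝ) / D ≤ ((S : ℝ) / e) * ((T : ℝ) / e) / D := by gcongr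
      _ = (S : ℝ) * T / (e ^ 2 * D) := by field_simp
  gcongr

private lemma final_est {x C c1 : ℝ} (hx : 1 ≤ x) (hC : 1 ≤ C) (hc : 1 ≤ c1) (S T D N E : ℕ)
    (hT1 : 1 ≤ T) (hS : (S : ℝ) ≤ c1 * x ^ (1.0062 : ℝ)) (hT : (T : ℝ) ≤ c1 * x)
    (hD : x ^ (0.0132 : ℝ) / 2 ≤ D) (hN : (N : ℝ) ≤ 2 * x ^ (1.6 : ℝ))
    (hE1 : x ^ (0.0126 : ℝ) / 2 ≤ E) (hE2 : (E : ℝ) ≤ x ^ (0.0126 : ℝ)) :
    (4 * (S : ℝ) * T / E + 2 * T * (1 + Real.log T)) +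
      ∑ e ∈ Icc 1 E, C * (N : ℝ) ^ (0.001 : ℝ) * ((S : ℝ) * T / ((e : ℝ) ^ 2 * D) + N) ≤
      26 * C * c1 ^ 2 * x ^ (1.9946 : ℝ) := by
  have hx0 : 0 < x := by linarith
  have pm : ∀ a b c : ℝ, a + b = c → x ^ a * x ^ b = x ^ c := by
    intro a b c h; rw [← Real.rpow_add hx0, h]
  have mon : ∀ a b : ℝ, a ≤ b → x ^ a ≤ x ^ b := fun a b h => Real.rpow_le_rpow_of_exponent_le hx h
  have pos : ∀ a : ℝ, 0 < x ^ a := fun a => Real.rpow_pos_of_pos hx0 a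
  have hST : (S : ℝ) * T ≤ c1 ^ 2 * x ^ (2.0062 : ℝ) := by
    calc (S : ℝ) * T ≤ (c1 * x ^ (1.0062 : ℝ)) * (c1 * x) := by gcongr
      _ = c1 ^ 2 * (x ^ (1.0062 : ℝ) * x ^ (1 : ℝ)) := by rw [Real.rpow_one]; ring
      _ = c1 ^ 2 * x ^ (2.0062 : ℝ) := by rw [pm _ _ 2.0062 (by norm_num)]
  have hc2 : 1 ≤ c1 ^ 2 := one_le_pow₀ hc
  have hE0 : (0 : ℝ) < E := lt_of_lt_of_le (by have := pos 0.0126; positivity) hE1
  have hD0 : (0 : ℝ) < D := lt_of_lt_of_le (by have := pos 0.0132; positivity) hD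
  -- first term
  have A1 : 4 * (S : ℝ) * T / E ≤ 8 * c1 ^ 2 * x ^ (1.9946 : ℝ) := by
    rw [div_le_iff₀ hE0]
    calc 4 * (S : ℝ) * T = 4 * ((S : ℝ) * T) := by ring
      _ ≤ 4 * (c1 ^ 2 * x ^ (2.0062 : ℝ)) := by gcongr
      _ ≤ 4 * (c1 ^ 2 * x ^ (1.9946 + 0.0126 : ℝ)) := by
        have := mon 2.0062 (1.9946 + 0.0126) (by norm_num)
        gcongr
      _ = 8 * c1 ^ 2 * x ^ (1.9946 : ℝ) * (x ^ (0.0126 : ℝ) / 2) := by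
        rw [Real.rpow_add hx0]; ring
      _ ≤ 8 * c1 ^ 2 * x ^ (1.9946 : ℝ) * E := by gcongr
  -- second term
  have A2 : 2 * (T : ℝ) * (1 + Real.log T) ≤ 6 * c1 ^ 2 * x ^ (1.9946 : ℝ) := by
    have hT0 : (0 : ℝ) ≤ T := by positivity
    have l1 : Real.log T ≤ (T : ℝ) ^ (0.5 : ℝ) / 0.5 := Real.log_le_rpow_div hT0 (by norm_num)
    have l2 : (T : ℝ) ^ (0.5 : ℝ) ≤ c1 * x ^ (0.5 : ℝ) := by
      calc (T : ℝ) ^ (0.5 : ℝ) ≤ (c1 * x) ^ (0.5 : ℝ) := by gcongr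
        _ = c1 ^ (0.5 : ℝ) * x ^ (0.5 : ℝ) := Real.mul_rpow (by linarith) hx0.le
        _ ≤ c1 ^ (1 : ℝ) * x ^ (0.5 : ℝ) := by
          have := Real.rpow_le_rpow_of_exponent_le hc (show (0.5 : ℝ) ≤ 1 by norm_num)
          gcongr
        _ = c1 * x ^ (0.5 : ℝ) := by rw [Real.rpow_one]
    have l3 : 1 + Real.log T ≤ 3 * (c1 * x ^ (0.5 : ℝ)) := by
      have h1 : (1 : ℝ) ≤ c1 * x ^ (0.5 : ℝ) :=
        one_le_mul_of_one_le_of_one_le hc (Real.one_le_rpow hx (by norm_num))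
      have : (T : ℝ) ^ (0.5 : ℝ) / 0.5 = 2 * (T : ℝ) ^ (0.5 : ℝ) := by ring
      linarith
    calc 2 * (T : ℝ) * (1 + Real.log T) ≤ 2 * (c1 * x) * (3 * (c1 * x ^ (0.5 : ℝ))) := by
          have : 0 ≤ 1 + Real.log T := by
            have := Real.log_nonneg (show (1 : ℝ) ≤ T by exact_mod_cast hT1)
            linarith
          gcongr
      _ = 6 * c1 ^ 2 * (x ^ (1 : ℝ) * x ^ (0.5 : ℝ)) := by rw [Real.rpow_one]; ring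
      _ = 6 * c1 ^ 2 * x ^ (1.5 : ℝ) := by rw [pm _ _ 1.5 (by norm_num)]
      _ ≤ 6 * c1 ^ 2 * x ^ (1.9946 : ℝ) := by
        have := mon 1.5 1.9946 (by norm_num)
        gcongr
  -- third
  have hN1 : (N : ℝ) ^ (0.001 : ℝ) ≤ 2 * x ^ (0.0016 : ℝ) := by
    calc (N : ℝ) ^ (0.001 : ℝ) ≤ (2 * x ^ (1.6 : ℝ)) ^ (0.001 : ℝ) := by gcongr
      _ = (2 : ℝ) ^ (0.001 : ℝ) * x ^ (0.0016 : ℝ) := by
        rw [Real.mul_rpow (by norm_num) (pos _).le, ← Real.rpow_mul hx0.le]; norm_num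
      _ ≤ (2 : ℝ) ^ (1 : ℝ) * x ^ (0.0016 : ℝ) := by
        have := Real.rpow_le_rpow_of_exponent_le (show (1 : ℝ) ≤ 2 by norm_num)
          (show (0.001 : ℝ) ≤ 1 by norm_num)
        gcongr
      _ = 2 * x ^ (0.0016 : ℝ) := by rw [Real.rpow_one]
  have hSTD : (S : ℝ) * T / D ≤ 2 * c1 ^ 2 * x ^ (1.993 : ℝ) := by
    rw [div_le_iff₀ hD0]
    calc (S : ℝ) * T ≤ c1 ^ 2 * x ^ (2.0062 : ℝ) := hST
      _ = 2 * c1 ^ 2 * x ^ (1.993 : ℝ) * (x ^ (0.0132 : ℝ) / 2) := by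
        rw [← pm 1.993 0.0132 2.0062 (by norm_num)]; ring
      _ ≤ 2 * c1 ^ 2 * x ^ (1.993 : ℝ) * D := by gcongr
  have hsum2 : ∑ e ∈ Icc 1 E, (((e : ℝ) ^ 2)⁻¹) ≤ 2 := by
    have h := sum_Ioo_inv_sq_le (α := ℝ) 0 (E + 1)
    have h2 : Ioo 0 (E + 1) = Icc 1 E := by ext i; simp only [mem_Ioo, mem_Icc]; omega
    rw [h2] at h
    refine h.trans ?_
    norm_num
  have A3 : ∑ e ∈ Icc 1 E, C * (N : ℝ) ^ (0.001 : ℝ) * ((S : ℝ) * T / ((e : ℝ) ^ 2 * D) + N) ≤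
      12 * C * c1 ^ 2 * x ^ (1.9946 : ℝ) := by
    have s1 : ∑ e ∈ Icc 1 E, C * (N : ℝ) ^ (0.001 : ℝ) * ((S : ℝ) * T / ((e : ℝ) ^ 2 * D) + N) =
        C * (N : ℝ) ^ (0.001 : ℝ) * ((S : ℝ) * T / D * (∑ e ∈ Icc 1 E, (((e : ℝ) ^ 2)⁻¹)) + E * N) := by
      rw [← mul_sum, sum_add_distrib]
      congr 1
      congr 1
      · rw [mul_sum]
        refine sum_congr rfl fun e he => ?_
        have : (0 : ℝ) < e := by exact_mod_cast (mem_Icc.1 he).1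
        field_simp
      · simp
    rw [s1]
    have hEN : (E : ℝ) * N ≤ 2 * x ^ (1.6126 : ℝ) := by
      calc (E : ℝ) * N ≤ x ^ (0.0126 : ℝ) * (2 * x ^ (1.6 : ℝ)) := by gcongr
        _ = 2 * (x ^ (0.0126 : ℝ) * x ^ (1.6 : ℝ)) := by ring
        _ = 2 * x ^ (1.6126 : ℝ) := by rw [pm _ _ 1.6126 (by norm_num)]
    have b1 : (S : ℝ) * T / D * (∑ e ∈ Icc 1 E, (((e : ℝ) ^ 2)⁻¹)) + E * N ≤
        6 * c1 ^ 2 * x ^ (1.993 : ℝ) := by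
      have b2 : (S : ℝ) * T / D * (∑ e ∈ Icc 1 E, (((e : ℝ) ^ 2)⁻¹)) ≤
          2 * c1 ^ 2 * x ^ (1.993 : ℝ) * 2 := by
        have : 0 ≤ ∑ e ∈ Icc 1 E, (((e : ℝ) ^ 2)⁻¹) := sum_nonneg fun e _ => by positivity
        gcongr
      have b3 : 2 * x ^ (1.6126 : ℝ) ≤ 2 * c1 ^ 2 * x ^ (1.993 : ℝ) := by
        have h1 := mon 1.6126 1.993 (by norm_num)
        have h2 := pos 1.993
        calc 2 * x ^ (1.6126 : ℝ) ≤ 2 * x ^ (1.993 : ℝ) := by linarith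
          _ = 2 * 1 * x ^ (1.993 : ℝ) := by ring
          _ ≤ 2 * c1 ^ 2 * x ^ (1.993 : ℝ) := by gcongr
      linarith
    calc C * (N : ℝ) ^ (0.001 : ℝ) * ((S : ℝ) * T / D * (∑ e ∈ Icc 1 E, (((e : ℝ) ^ 2)⁻¹)) + E * N)
        ≤ C * (2 * x ^ (0.0016 : ℝ)) * (6 * c1 ^ 2 * x ^ (1.993 : ℝ)) := by
          have : 0 ≤ (S : ℝ) * T / D * (∑ e ∈ Icc 1 E, (((e : ℝ) ^ 2)⁻¹)) + E * N := by
            have : 0 ≤ ∑ e ∈ Icc 1 E, (((e : ℝ) ^ 2)⁻¹) := sum_nonneg fun e _ => by positivity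
            positivity
          gcongr
      _ = 12 * C * c1 ^ 2 * (x ^ (0.0016 : ℝ) * x ^ (1.993 : ℝ)) := by ring
      _ = 12 * C * c1 ^ 2 * x ^ (1.9946 : ℝ) := by rw [pm _ _ 1.9946 (by norm_num)]
  have f1 : 8 * c1 ^ 2 * x ^ (1.9946 : ℝ) ≤ 8 * C * c1 ^ 2 * x ^ (1.9946 : ℝ) := by
    have := pos 1.9946
    calc 8 * c1 ^ 2 * x ^ (1.9946 : ℝ) = 8 * 1 * c1 ^ 2 * x ^ (1.9946 : ℝ) := by ring
      _ ≤ 8 * C * c1 ^ 2 * x ^ (1.9946 : ℝ) := by gcongr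
  have f2 : 6 * c1 ^ 2 * x ^ (1.9946 : ℝ) ≤ 6 * C * c1 ^ 2 * x ^ (1.9946 : ℝ) := by
    have := pos 1.9946
    calc 6 * c1 ^ 2 * x ^ (1.9946 : ℝ) = 6 * 1 * c1 ^ 2 * x ^ (1.9946 : ℝ) := by ring
      _ ≤ 6 * C * c1 ^ 2 * x ^ (1.9946 : ℝ) := by gcongr
  linarith

private lemma floor_half {y : ℝ} (hy : 1 ≤ y) : y / 2 ≤ (⌊y⌋₊ : ℝ) := by
  have h1 := Nat.lt_floor_add_one y
  have h2 : (1 : ℝ) ≤ ⌊y⌋₊ := by exact_mod_cast (Nat.one_le_floor_iff y).2 hy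
  linarith

private lemma ceil_two {y : ℝ} (hy : 1 ≤ y) : (⌈y⌉₊ : ℝ) ≤ 2 * y := by
  have h1 := Nat.ceil_lt_add_one (show 0 ≤ y by linarith)
  linarith

private lemma pts {k g : ℤ} {M A G S T : ℕ} {l : ℕ} (hl : (l : ℤ) = LL k) (hA : 1 ≤ A) (hM : 1 ≤ M)
    (hG : 1 ≤ G) (hg0 : 0 ≤ g) (hg : g ≤ 2 * G) (hT : T = (M + 1) * A) (hS : S = 8 * l ^ 2 * G * T)
    {x : ℤ × ℤ × ℤ} (hx : x ∈ Bx k M A) :
    |x.1 + g * x.2.1| ≤ (S : ℤ) ∧ |x.2.2| ≤ (T : ℤ) ∧ x.2.2 ≠ 0 := by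
  simp only [Bx, Ia, Ib, Ic, mem_product, mem_Ioc, ← hl] at hx
  obtain ⟨⟨a1, a2⟩, ⟨b1, b2⟩, c1, c2⟩ := hx
  have hl1 : (1 : ℤ) ≤ l := by rw [hl, LL]; have := abs_nonneg k; linarith
  have hA' : (1 : ℤ) ≤ A := by exact_mod_cast hA
  have hM' : (1 : ℤ) ≤ M := by exact_mod_cast hM
  have hG' : (1 : ℤ) ≤ G := by exact_mod_cast hG
  have hMA : (0 : ℤ) < M * A := by positivity
  have ha0 : 0 ≤ x.1 := by
    have : (0 : ℤ) ≤ 2 * (l : ℤ) ^ 2 * (M * A) := by positivity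
    linarith
  have hb0 : 0 ≤ x.2.1 := by
    have : (0 : ℤ) ≤ (l : ℤ) * (M * A) := by positivity
    linarith
  have hc0 : 0 < x.2.2 := by linarith
  have hT' : (T : ℤ) = (M + 1) * A := by rw [hT]; push_cast; ring
  have hS' : (S : ℤ) = 8 * (l : ℤ) ^ 2 * G * T := by rw [hS]; push_cast; ring
  refine ⟨?_, ?_, hc0.ne'⟩
  · rw [abs_of_nonneg (by positivity), hS']
    have hl2 : (1 : ℤ) ≤ (l : ℤ) ^ 2 := one_le_pow₀ hl1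
    have hT0 : (1 : ℤ) ≤ T := by rw [hT']; nlinarith
    have e1 : x.1 ≤ 2 * (l : ℤ) ^ 2 * T := by
      have : 2 * (l : ℤ) ^ 2 * T = 2 * (l : ℤ) ^ 2 * (M * A) + 2 * (l : ℤ) ^ 2 * A := by
        rw [hT']; ring
      rw [this]
      nlinarith
    have e2 : x.2.1 ≤ (l : ℤ) * T := by
      have : (l : ℤ) * T = (l : ℤ) * (M * A) + (l : ℤ) * A := by rw [hT']; ring
      rw [this]
      nlinarith
    have e3 : g * x.2.1 ≤ 2 * G * ((l : ℤ) * T) := by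
      calc g * x.2.1 ≤ (2 * G) * x.2.1 := by gcongr
        _ ≤ (2 * G) * ((l : ℤ) * T) := by gcongr
    have e4 : 2 * (l : ℤ) ^ 2 * T * 1 ≤ 2 * (l : ℤ) ^ 2 * T * G := by gcongr
    have e5 : 2 * G * ((l : ℤ) * T) ≤ 2 * (l : ℤ) ^ 2 * T * G := by
      calc 2 * G * ((l : ℤ) * T) = 2 * (l * 1) * T * G := by ring
        _ ≤ 2 * (l * l) * T * G := by gcongr
        _ = 2 * (l : ℤ) ^ 2 * T * G := by ring
    have e6 : 0 ≤ 2 * (l : ℤ) ^ 2 * T * G := by positivity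
    have e7 : 8 * (l : ℤ) ^ 2 * G * T = 4 * (2 * (l : ℤ) ^ 2 * T * G) := by ring
    rw [e7]
    linarith
  · rw [abs_of_pos hc0, hT']
    linarith

theorem bad_lines (k : ℤ) (hk : ∀ t : ℤ, t ^ 3 ≠ k) (M : ℕ) (hM : 1 ≤ M) : ∃ A0 : ℕ, ∀ A : ℕ, A0 ≤ A →
    ∀ g ∈ GG A, ∀ Z : Finset (ℤ × ℤ × ℤ), (∀ x ∈ Z, x ∈ Bx k M A ∧
      Int.gcd (II k g (x.1 + g * x.2.1) x.2.2) (6 * k) = 1 ∧
      Int.gcd (yy g (x.1 + g * x.2.1) x.2.2) (g ^ 3 - k) = 1 ∧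
      (A : ℝ) ^ (0.09 : ℝ) < (SF (II k g (x.1 + g * x.2.1) x.2.2).natAbs : ℝ)) →
    (Z.card : ℝ) ≤ (A : ℝ) ^ (2.9938 : ℝ) := by
  obtain ⟨C, hC1, hC⟩ := prim_cnt 0.001 (by norm_num)
  obtain ⟨l, hl⟩ : ∃ l : ℕ, (l : ℤ) = LL k := ⟨k.natAbs + 2, by rw [LL]; push_cast; rfl⟩
  have hl1 : 1 ≤ l := by
    have : (1 : ℤ) ≤ l := by rw [hl, LL]; have := abs_nonneg k; linarith
    exact_mod_cast this
  obtain ⟨c1, hc1⟩ : ∃ c1 : ℝ, c1 = 16 * (l : ℝ) ^ 2 * (M + 1) := ⟨_, rfl⟩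
  have hl1r : (1 : ℝ) ≤ l := by exact_mod_cast hl1
  have hMr : (1 : ℝ) ≤ M := by exact_mod_cast hM
  have hc1' : 1 ≤ c1 := by
    have : (1 : ℝ) ≤ (l : ℝ) ^ 2 := one_le_pow₀ hl1r
    rw [hc1]; nlinarith
  obtain ⟨A1, hA1⟩ := Filter.eventually_atTop.1 (((tendsto_rpow_atTop
    (show (0 : ℝ) < 0.0054 by norm_num)).comp
    (tendsto_natCast_atTop_atTop (R := ℝ))).eventually_ge_atTop (52 * C * c1 ^ 3))
  refine ⟨max A1 1, fun A hA g hg Z hZ => ?_⟩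
  have hA1' : 52 * C * c1 ^ 3 ≤ (A : ℝ) ^ (0.0054 : ℝ) := hA1 A (le_trans (le_max_left _ _) hA)
  have hA2 : 1 ≤ A := le_trans (le_max_right _ _) hA
  obtain ⟨y, hy⟩ : ∃ y : ℝ, y = A := ⟨_, rfl⟩
  rw [← hy] at hA1' hZ ⊢
  have hx : 1 ≤ y := by rw [hy]; exact_mod_cast hA2
  have hx0 : 0 < y := by linarith
  have pm : ∀ a b c : ℝ, a + b = c → y ^ a * y ^ b = y ^ c := by
    intro a b c h; rw [← Real.rpow_add hx0, h]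
  have mon : ∀ a b : ℝ, a ≤ b → y ^ a ≤ y ^ b := fun a b h => Real.rpow_le_rpow_of_exponent_le hx h
  have pos : ∀ a : ℝ, 0 < y ^ a := fun a => Real.rpow_pos_of_pos hx0 a
  have one : ∀ a : ℝ, 0 ≤ a → 1 ≤ y ^ a := fun a h => Real.one_le_rpow hx h
  -- G
  obtain ⟨G, hGd⟩ : ∃ G : ℕ, G = Gn A := ⟨_, rfl⟩
  have hGlo : y ^ (0.0062 : ℝ) ≤ G := by rw [hGd, Gn, ← hy]; exact Nat.le_ceil _
  have hGhi : (G : ℝ) ≤ 2 * y ^ (0.0062 : ℝ) := by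
    rw [hGd, Gn, ← hy]; exact ceil_two (one _ (by norm_num))
  have hG1 : 1 ≤ G := by
    have : (1 : ℝ) ≤ G := (one 0.0062 (by norm_num)).trans hGlo
    exact_mod_cast this
  rw [GG, ← hGd, mem_Ioc] at hg
  obtain ⟨hg1, hg2⟩ := hg
  have hgpos : 1 ≤ g := by have : (1 : ℤ) ≤ G := by exact_mod_cast hG1
                           linarith
  obtain ⟨T, hT⟩ : ∃ T : ℕ, T = (M + 1) * A := ⟨_, rfl⟩
  obtain ⟨S, hS⟩ : ∃ S : ℕ, S = 8 * l ^ 2 * G * T := ⟨_, rfl⟩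
  have hAT : A ≤ T := by rw [hT]; nlinarith
  have hTS : T ≤ S := by
    rw [hS]
    have : 1 ≤ 8 * l ^ 2 * G := by
      have : 1 ≤ l ^ 2 := one_le_pow₀ hl1
      nlinarith
    nlinarith
  have hTr : (T : ℝ) ≤ c1 * y := by
    rw [hT, hc1, hy]; push_cast
    have : (1 : ℝ) ≤ 16 * (l : ℝ) ^ 2 := by
      have : (1 : ℝ) ≤ (l : ℝ) ^ 2 := one_le_pow₀ hl1r
      linarith
    calc ((M : ℝ) + 1) * A = 1 * ((M : ℝ) + 1) * A := by ring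
      _ ≤ 16 * (l : ℝ) ^ 2 * ((M : ℝ) + 1) * A := by gcongr
  have hSr : (S : ℝ) ≤ c1 * y ^ (1.0062 : ℝ) := by
    have : (S : ℝ) = 8 * (l : ℝ) ^ 2 * G * ((M + 1) * y) := by rw [hS, hT, hy]; push_cast; ring
    rw [this]
    calc 8 * (l : ℝ) ^ 2 * G * ((M + 1) * y) ≤ 8 * (l : ℝ) ^ 2 * (2 * y ^ (0.0062 : ℝ)) * ((M + 1) * y) := by
          gcongr
      _ = c1 * (y ^ (0.0062 : ℝ) * y ^ (1 : ℝ)) := by rw [hc1, Real.rpow_one]; ring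
      _ = c1 * y ^ (1.0062 : ℝ) := by rw [pm _ _ 1.0062 (by norm_num)]
  obtain ⟨E, hE⟩ : ∃ E : ℕ, E = ⌊y ^ (0.0126 : ℝ)⌋₊ := ⟨_, rfl⟩
  obtain ⟨D, hD⟩ : ∃ D : ℕ, D = ⌊y ^ (0.0132 : ℝ)⌋₊ := ⟨_, rfl⟩
  obtain ⟨N, hN⟩ : ∃ N : ℕ, N = ⌈y ^ (1.6 : ℝ)⌉₊ := ⟨_, rfl⟩
  have hE1 : y ^ (0.0126 : ℝ) / 2 ≤ E := by rw [hE]; exact floor_half (one _ (by norm_num))
  have hE2 : (E : ℝ) ≤ y ^ (0.0126 : ℝ) := by rw [hE]; exact Nat.floor_le (pos _).le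
  have hD1 : y ^ (0.0132 : ℝ) / 2 ≤ D := by rw [hD]; exact floor_half (one _ (by norm_num))
  have hD2 : (D : ℝ) ≤ y ^ (0.0132 : ℝ) := by rw [hD]; exact Nat.floor_le (pos _).le
  have hN1 : (N : ℝ) ≤ 2 * y ^ (1.6 : ℝ) := by rw [hN]; exact ceil_two (one _ (by norm_num))
  have hN2 : y ^ (1.6 : ℝ) ≤ N := by rw [hN]; exact Nat.le_ceil _
  have hE0 : 1 ≤ E := by rw [hE]; exact (Nat.one_le_floor_iff _).2 (one _ (by norm_num))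
  have hD0 : 1 ≤ D := by rw [hD]; exact (Nat.one_le_floor_iff _).2 (one _ (by norm_num))
  have hN0 : 1 ≤ N := by
    have : (1 : ℝ) ≤ N := (one 1.6 (by norm_num)).trans hN2
    exact_mod_cast this
  have hEA : E ≤ A := by
    have : (E : ℝ) ≤ A := by
      rw [← hy]
      calc (E : ℝ) ≤ y ^ (0.0126 : ℝ) := hE2
        _ ≤ y ^ (1 : ℝ) := mon _ _ (by norm_num)
        _ = y := Real.rpow_one _
    exact_mod_cast this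
  -- the pairs
  obtain ⟨W, hWd⟩ : ∃ W : Finset (ℤ × ℤ), W = Z.image fun x => (x.1 + g * x.2.1, x.2.2) := ⟨_, rfl⟩
  have hW : ∀ w ∈ W, |w.1| ≤ (S : ℤ) ∧ |w.2| ≤ (T : ℤ) ∧ w.2 ≠ 0 ∧
      Int.gcd (II k g w.1 w.2) (6 * k) = 1 ∧ Int.gcd (yy g w.1 w.2) (g ^ 3 - k) = 1 ∧
      y ^ (0.09 : ℝ) < (SF (II k g w.1 w.2).natAbs : ℝ) := by
    intro w hw
    rw [hWd] at hw
    obtain ⟨x, hxZ, rfl⟩ := mem_image.1 hw
    obtain ⟨h1, h2, h3, h4⟩ := hZ x hxZ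
    obtain ⟨p1, p2, p3⟩ := pts hl hA2 hM hG1 (by linarith) hg2 hT hS h1
    exact ⟨p1, p2, p3, h2, h3, h4⟩
  have hfib : (Z.card : ℝ) ≤ W.card * ((A : ℝ) / g + 1) :=
    fib k M A g hgpos Z W fun x hxZ => ⟨(hZ x hxZ).1, by rw [hWd]; exact mem_image_of_mem _ hxZ⟩
  -- large gcd
  have hbig := gcd_cnt S T E hE0 (hA2.trans hAT) (W.filter fun w => E < Int.gcd w.1 w.2) (by
    intro w hw
    rw [mem_filter] at hw
    obtain ⟨h1, h2, h3, -⟩ := hW w hw.1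
    exact ⟨h1, h2, h3, hw.2⟩)
  -- small gcd
  have hsm : ∀ e ∈ Icc 1 E, ((W.filter fun w => Int.gcd w.1 w.2 = e).card : ℝ) ≤
      C * (N : ℝ) ^ (0.001 : ℝ) * ((S : ℝ) * T / ((e : ℝ) ^ 2 * D) + N) := by
    intro e he
    rw [mem_Icc] at he
    refine one_e (k := k) (g := g) (by linarith) he.1 (by omega) (by omega) hD0 hN0 hC _ ?_
    intro w hw
    rw [mem_filter] at hw
    obtain ⟨hwW, hgcd⟩ := hw
    obtain ⟨h1, h2, h3, h4, h5, h6⟩ := hW w hwW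
    have he0 : (0 : ℤ) < e := by exact_mod_cast he.1
    have d1 : (e : ℤ) ∣ w.1 := by rw [← hgcd]; exact Int.gcd_dvd_left _ _
    have d2 : (e : ℤ) ∣ w.2 := by rw [← hgcd]; exact Int.gcd_dvd_right _ _
    have m1 : w.1 = e * (w.1 / e) := (Int.mul_ediv_cancel' d1).symm
    have m2 : w.2 = e * (w.2 / e) := (Int.mul_ediv_cancel' d2).symm
    have hII : II k g w.1 w.2 = e ^ 3 * II k g (w.1 / e) (w.2 / e) := by
      rw [← II_hom, ← m1, ← m2]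
    have hyy : yy g w.1 w.2 = e * yy g (w.1 / e) (w.2 / e) := by
      conv_lhs => rw [m1, m2]
      simp only [yy]; ring
    have hc' : w.2 / (e : ℤ) ≠ 0 := by intro h0; rw [h0, mul_zero] at m2; exact h3 m2
    have hne := II_ne k hk g (w.1 / e) (w.2 / e) hc'
    obtain ⟨n, hn⟩ : ∃ n : ℕ, n = (II k g (w.1 / e) (w.2 / e)).natAbs := ⟨_, rfl⟩
    have hn0 : 0 < n := by rw [hn]; exact Int.natAbs_pos.2 hne
    have hnat : (II k g w.1 w.2).natAbs = e ^ 3 * n := by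
      rw [hII, Int.natAbs_mul, Int.natAbs_pow, Int.natAbs_natCast, hn]
    have hsf1 := SF_mul e n he.1 hn0
    obtain ⟨d, hd0, hdn, hdS⟩ := SF_sq n hn0
    refine ⟨h1, h2, hgcd, d, ?_, ?_, ?_, ?_, ?_⟩
    · by_contra hcon
      push Not at hcon
      have e1 : (d : ℝ) ≤ y ^ (0.0132 : ℝ) := le_trans (by exact_mod_cast hcon) hD2
      have e2 : (e : ℝ) ≤ y ^ (0.0126 : ℝ) := le_trans (by exact_mod_cast he.2) hE2
      have e3 : (SF (e ^ 3 * n) : ℝ) ≤ (e : ℝ) ^ 4 * (d : ℝ) ^ 3 := by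
        have : SF (e ^ 3 * n) ≤ e ^ 4 * d ^ 3 := hsf1.trans (Nat.mul_le_mul_left _ hdS)
        exact_mod_cast this
      rw [hnat] at h6
      have e4 : (e : ℝ) ^ 4 * (d : ℝ) ^ 3 ≤ y ^ (0.09 : ℝ) := by
        calc (e : ℝ) ^ 4 * (d : ℝ) ^ 3 ≤ (y ^ (0.0126 : ℝ)) ^ 4 * (y ^ (0.0132 : ℝ)) ^ 3 := by gcongr
          _ = y ^ (0.0504 : ℝ) * y ^ (0.0396 : ℝ) := by
            rw [← Real.rpow_natCast, ← Real.rpow_natCast, ← Real.rpow_mul hx0.le,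
              ← Real.rpow_mul hx0.le]
            norm_num
          _ = y ^ (0.09 : ℝ) := pm _ _ _ (by norm_num)
      linarith
    · -- d ≤ N
      have b1 : d ^ 2 ≤ n := Nat.le_of_dvd hn0 hdn
      have b2 : n ≤ (II k g w.1 w.2).natAbs := by
        rw [hnat]; exact Nat.le_mul_of_pos_left _ (pow_pos he.1 3)
      have b3 : |II k g w.1 w.2| ≤ 3 * (S : ℤ) ^ 3 := by
        refine II_bd (l := l) (G := G) (T := T) ?_ ?_ ?_ ?_ (by linarith) hg2 ?_ h1 h2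
        · rw [hl, LL]; linarith
        · exact_mod_cast hl1
        · exact_mod_cast hG1
        · exact_mod_cast (hA2.trans hAT)
        · rw [hS]; push_cast; ring
      have b4 : ((d : ℝ)) ^ 2 ≤ 3 * (S : ℝ) ^ 3 := by
        have : ((d : ℤ)) ^ 2 ≤ 3 * (S : ℤ) ^ 3 := by
          calc ((d : ℤ)) ^ 2 ≤ ((II k g w.1 w.2).natAbs : ℤ) := by exact_mod_cast b1.trans b2
            _ = |II k g w.1 w.2| := Int.natCast_natAbs _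
            _ ≤ _ := b3
        exact_mod_cast this
      have b5 : 3 * (S : ℝ) ^ 3 ≤ (y ^ (1.6 : ℝ)) ^ 2 := by
        calc 3 * (S : ℝ) ^ 3 ≤ 3 * (c1 * y ^ (1.0062 : ℝ)) ^ 3 := by gcongr
          _ = 3 * 1 * c1 ^ 3 * (y ^ (1.0062 : ℝ)) ^ 3 := by ring
          _ ≤ 52 * C * c1 ^ 3 * (y ^ (1.0062 : ℝ)) ^ 3 := by gcongr; norm_num
          _ ≤ y ^ (0.0054 : ℝ) * (y ^ (1.0062 : ℝ)) ^ 3 := by gcongr
          _ = y ^ (0.0054 : ℝ) * y ^ (3.0186 : ℝ) := by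
            rw [← Real.rpow_natCast (y ^ (1.0062 : ℝ)), ← Real.rpow_mul hx0.le]; norm_num
          _ = y ^ (3.024 : ℝ) := pm _ _ _ (by norm_num)
          _ ≤ y ^ (3.2 : ℝ) := mon _ _ (by norm_num)
          _ = (y ^ (1.6 : ℝ)) ^ 2 := by
            rw [← Real.rpow_natCast, ← Real.rpow_mul hx0.le]; norm_num
      have b6 : (d : ℝ) ≤ y ^ (1.6 : ℝ) :=
        le_of_sq_le_sq (b4.trans b5) (pos _).le
      exact_mod_cast b6.trans hN2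
    · rw [← Int.natCast_pow, Int.natCast_dvd, ← hn]; exact hdn
    · intro p hp hpd hp6
      have q1 : (p : ℤ) ∣ II k g w.1 w.2 := by
        have : p ∣ (II k g w.1 w.2).natAbs := by
          rw [hnat]
          exact Dvd.dvd.mul_left ((dvd_pow hpd two_ne_zero).trans hdn) _
        exact Int.natCast_dvd.2 this
      have q2 := Int.dvd_coe_gcd q1 hp6
      rw [h4] at q2
      exact hp.one_lt.ne' (by exact_mod_cast Int.eq_one_of_dvd_one (by positivity) q2)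
    · intro p hp hpd hpg hpy
      have q1 : (p : ℤ) ∣ yy g w.1 w.2 := by rw [hyy]; exact Dvd.dvd.mul_left hpy _
      have q2 := Int.dvd_coe_gcd q1 hpg
      rw [h5] at q2
      exact hp.one_lt.ne' (by exact_mod_cast Int.eq_one_of_dvd_one (by positivity) q2)
  -- all pairs
  have hcov : (W.card : ℝ) ≤ ((W.filter fun w => E < Int.gcd w.1 w.2).card : ℝ) +
      ∑ e ∈ Icc 1 E, ((W.filter fun w => Int.gcd w.1 w.2 = e).card : ℝ) := by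
    have h1 : W ⊆ (W.filter fun w => E < Int.gcd w.1 w.2) ∪
        (Icc 1 E).biUnion fun e => W.filter fun w => Int.gcd w.1 w.2 = e := by
      intro w hw
      rw [mem_union, mem_filter, mem_biUnion]
      by_cases h : E < Int.gcd w.1 w.2
      · exact Or.inl ⟨hw, h⟩
      · refine Or.inr ⟨Int.gcd w.1 w.2, mem_Icc.2 ⟨?_, by omega⟩, mem_filter.2 ⟨hw, rfl⟩⟩
        exact Nat.pos_of_ne_zero fun h0 => (hW w hw).2.2.1 (Int.gcd_eq_zero_iff.1 h0).2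
    have h2 : W.card ≤ (W.filter fun w => E < Int.gcd w.1 w.2).card +
        ∑ e ∈ Icc 1 E, (W.filter fun w => Int.gcd w.1 w.2 = e).card :=
      (card_le_card h1).trans ((card_union_le _ _).trans (Nat.add_le_add_left card_biUnion_le _))
    exact_mod_cast h2
  have hWc : (W.card : ℝ) ≤ 26 * C * c1 ^ 2 * y ^ (1.9946 : ℝ) :=
    hcov.trans ((add_le_add hbig (sum_le_sum hsm)).trans
      (final_est hx hC1 hc1' S T D N E (hA2.trans hAT) hSr hTr hD1 hN1 hE1 hE2))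
  have hAg : (A : ℝ) / g + 1 ≤ 2 * y ^ (0.9938 : ℝ) := by
    have g1 : y ^ (0.0062 : ℝ) ≤ (g : ℝ) := hGlo.trans (by exact_mod_cast hg1.le)
    have g2 : (A : ℝ) / g ≤ y ^ (0.9938 : ℝ) := by
      rw [← hy, div_le_iff₀ (lt_of_lt_of_le (pos _) g1)]
      calc y = y ^ (0.9938 : ℝ) * y ^ (0.0062 : ℝ) := by
            rw [pm _ _ 1 (by norm_num), Real.rpow_one]
        _ ≤ y ^ (0.9938 : ℝ) * g := by gcongr
    have := one 0.9938 (by norm_num)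
    linarith
  calc (Z.card : ℝ) ≤ W.card * ((A : ℝ) / g + 1) := hfib
    _ ≤ (26 * C * c1 ^ 2 * y ^ (1.9946 : ℝ)) * (2 * y ^ (0.9938 : ℝ)) := by
      have : (0 : ℝ) ≤ (A : ℝ) / g + 1 := by
        have : (0 : ℝ) ≤ g := by exact_mod_cast (by linarith : (0 : ℤ) ≤ g)
        positivity
      gcongr
    _ = 52 * C * c1 ^ 2 * (y ^ (1.9946 : ℝ) * y ^ (0.9938 : ℝ)) := by ring
    _ = 52 * C * c1 ^ 2 * y ^ (2.9884 : ℝ) := by rw [pm _ _ 2.9884 (by norm_num)]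
    _ ≤ y ^ (0.0054 : ℝ) * y ^ (2.9884 : ℝ) := by
      have h1 : 52 * C * c1 ^ 2 ≤ 52 * C * c1 ^ 3 := by
        have : c1 ^ 2 ≤ c1 ^ 3 := pow_le_pow_right₀ hc1' (by norm_num)
        gcongr
      have h2 := h1.trans hA1'
      gcongr
    _ = y ^ (2.9938 : ℝ) := pm _ _ _ (by norm_num)

end H97.DR
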