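import Mathlib

/-!
# [DR PCH] MP_4d57ea_nt, chapter P: an elementary bound for `∑_m χ(m^3 + k)`, 80-140 lines. File Pool/Agent/H97/DR/Pch.lean

`χ = quadraticChar (ZMod p)`, `S(j) = ∑_m χ(m^3 + j)`.
(1) `S(u^6 j) = S(j)` for `u ≠ 0`: substitute `m = u^2 m'` (`m' ↦ u^2 m'` is a bijection), `χ(u^6 x) = χ(u)^6 χ(x) = χ(x)`.
(2) `∑_j χ((j + a)(j + b)) = -1` for `a ≠ b` and `= p - 1` for `a = b`. [`a = b`: `χ(x^2) = 1` for `x ≠ 0`. `a ≠ b`: substitute `j = x - a`: `∑_x χ(x (x + c))`, `c = b - a ≠ 0`;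
the term `x = 0` is `0`, for `x ≠ 0` `χ(x (x + c)) = χ(1 + c x⁻¹)` (as `x (x+c) = x^2 (1 + c x⁻¹)`), and `1 + c x⁻¹` runs through all elements `≠ 1`; `∑ χ = 0` (`quadraticChar_sum_zero`), `χ(1) = 1`.]
(3) `∑_j S(j)^2 = ∑_{m, m'} ∑_j χ((m^3 + j)(m'^3 + j)) = p N - p^2`, `N = #{(m, m') : m^3 = m'^3} ≤ 3 p` (for every `m'` at most three `m`: roots of a polynomial of degree 3),
so `∑_j S(j)^2 ≤ 2 p^2`.
(4) The set `U = {u^6 k : u ≠ 0}` has at least `(p - 1) / 6` elements (every fibre of `u ↦ u^6` has at most 6 elements) and `S(j)^2 = S(k)^2` on `U`. So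
`(p - 1) S(k)^2 ≤ 6 * 2 p^2 = 12 p^2` and `p ≤ 2 (p - 1)`, so `S(k)^2 ≤ 24 p`.
-/

set_option autoImplicit false

namespace H97.DR

section

variable {p : ℕ} [Fact p.Prime]

private theorem ch_ne2 (hp : 3 < p) : ringChar (ZMod p) ≠ 2 := by
  rw [ZMod.ringChar_zmod_n]
  omega

/-- the sum over the first variable -/
private theorem ch_pair (hp : 3 < p) (a b : ZMod p) :
    ∑ j : ZMod p, quadraticChar (ZMod p) ((a + j) * (b + j)) = if a = b then (p : ℤ) - 1 else -1 := by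
  classical
  have h2 := ch_ne2 hp
  split_ifs with hab
  · subst hab
    rw [← Equiv.sum_comp (Equiv.subRight a)]
    have h1 : ∀ x : ZMod p, quadraticChar (ZMod p)
        ((a + (Equiv.subRight a) x) * (a + (Equiv.subRight a) x)) = if x = 0 then 0 else 1 := by
      intro x
      rw [Equiv.subRight_apply, add_sub_cancel]
      split_ifs with hx
      · rw [hx, mul_zero, quadraticChar_zero]
      · rw [← pow_two, quadraticChar_sq_one' hx]
    rw [Finset.sum_congr rfl fun x _ => h1 x, Finset.sum_ite, Finset.sum_const_zero, zero_add,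
      Finset.sum_const, nsmul_eq_mul, mul_one, Finset.filter_ne' , Finset.card_erase_of_mem (Finset.mem_univ _),
      Finset.card_univ, ZMod.card, Nat.cast_sub (Fact.out : p.Prime).one_lt.le, Nat.cast_one]
  · have hc : b - a ≠ 0 := sub_ne_zero.2 (Ne.symm hab)
    have hc' : -(b - a) ≠ 0 := neg_ne_zero.2 hc
    have hJ := jacobiSum_nontrivial_inv (quadraticChar_ne_one h2)
    rw [(quadraticChar_isQuadratic (ZMod p)).inv] at hJ
    unfold jacobiSum at hJ
    -- substitution `j = - (b - a) y - a`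
    rw [← Equiv.sum_comp ((Equiv.mulLeft₀ (-(b - a)) hc').trans (Equiv.subRight a))]
    have h1 : ∀ y : ZMod p, quadraticChar (ZMod p)
        ((a + ((Equiv.mulLeft₀ (-(b - a)) hc').trans (Equiv.subRight a)) y) *
          (b + ((Equiv.mulLeft₀ (-(b - a)) hc').trans (Equiv.subRight a)) y)) =
        quadraticChar (ZMod p) (-1) * (quadraticChar (ZMod p) y * quadraticChar (ZMod p) (1 - y)) := by
      intro y
      rw [Equiv.trans_apply, Equiv.subRight_apply, Equiv.mulLeft₀_apply]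
      have e1 : (a + (-(b - a) * y - a)) * (b + (-(b - a) * y - a)) =
          (-1) * ((y * (1 - y)) * (b - a) ^ 2) := by ring
      rw [e1, map_mul, map_mul, map_mul, quadraticChar_sq_one' hc, mul_one]
    rw [Finset.sum_congr rfl fun y _ => h1 y, ← Finset.mul_sum, hJ, mul_neg, ← pow_two,
      quadraticChar_sq_one (neg_ne_zero.2 one_ne_zero)]

private theorem ch_roots (n : ℕ) (hn : 0 < n) (a : ZMod p) :
    (Finset.univ.filter fun m : ZMod p => m ^ n = a).card ≤ n := by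
  classical
  have h1 : (Finset.univ.filter fun m : ZMod p => m ^ n = a) ⊆ (Polynomial.nthRoots n a).toFinset := by
    intro m hm
    rw [Finset.mem_filter] at hm
    rw [Multiset.mem_toFinset, Polynomial.mem_nthRoots hn]
    exact hm.2
  exact (Finset.card_le_card h1).trans ((Multiset.toFinset_card_le _).trans (Polynomial.card_nthRoots n a))

/-- the second moment -/
private theorem ch_second (hp : 3 < p) :
    ∑ j : ZMod p, (∑ m : ZMod p, quadraticChar (ZMod p) (m ^ 3 + j)) ^ 2 ≤ 2 * (p : ℤ) ^ 2 := by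
  classical
  have h1 : ∑ j : ZMod p, (∑ m : ZMod p, quadraticChar (ZMod p) (m ^ 3 + j)) ^ 2 =
      ∑ m : ZMod p, ∑ m' : ZMod p, if m ^ 3 = m' ^ 3 then (p : ℤ) - 1 else -1 := by
    have h2 : ∀ j : ZMod p, (∑ m : ZMod p, quadraticChar (ZMod p) (m ^ 3 + j)) ^ 2 =
        ∑ m : ZMod p, ∑ m' : ZMod p, quadraticChar (ZMod p) ((m ^ 3 + j) * (m' ^ 3 + j)) := by
      intro j
      rw [pow_two, Finset.sum_mul_sum]
      refine Finset.sum_congr rfl fun m _ => Finset.sum_congr rfl fun m' _ => ?_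
      rw [map_mul]
    rw [Finset.sum_congr rfl fun j _ => h2 j, Finset.sum_comm]
    refine Finset.sum_congr rfl fun m _ => ?_
    rw [Finset.sum_comm]
    refine Finset.sum_congr rfl fun m' _ => ?_
    exact ch_pair hp (m ^ 3) (m' ^ 3)
  rw [h1]
  have h3 : ∀ m : ZMod p, (∑ m' : ZMod p, if m ^ 3 = m' ^ 3 then (p : ℤ) - 1 else -1) ≤ 2 * p := by
    intro m
    have h4 := ch_roots (p := p) 3 (by norm_num) (m ^ 3)
    have h5 : (∑ m' : ZMod p, if m ^ 3 = m' ^ 3 then (p : ℤ) - 1 else -1) =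
        ∑ m' : ZMod p, ((if m' ^ 3 = m ^ 3 then (p : ℤ) else 0) - 1) := by
      refine Finset.sum_congr rfl fun m' _ => ?_
      by_cases h : m' ^ 3 = m ^ 3
      · rw [if_pos h.symm, if_pos h]
      · rw [if_neg fun h' => h h'.symm, if_neg h]
        ring
    rw [h5, Finset.sum_sub_distrib, ← Finset.sum_filter, Finset.sum_const, Finset.sum_const, Finset.card_univ,
      ZMod.card, nsmul_eq_mul, nsmul_eq_mul, mul_one]
    have h6 : (((Finset.univ.filter fun m' : ZMod p => m' ^ 3 = m ^ 3).card : ℕ) : ℤ) ≤ 3 := by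
      exact_mod_cast h4
    have h7 : (0 : ℤ) ≤ p := Int.natCast_nonneg p
    nlinarith
  calc ∑ m : ZMod p, ∑ m' : ZMod p, (if m ^ 3 = m' ^ 3 then (p : ℤ) - 1 else -1)
      ≤ ∑ m : ZMod p, (2 * (p : ℤ)) := Finset.sum_le_sum fun m _ => h3 m
    _ = 2 * (p : ℤ) ^ 2 := by
      rw [Finset.sum_const, Finset.card_univ, ZMod.card, nsmul_eq_mul]
      ring

private theorem ch_inv (u k : ZMod p) (hu : u ≠ 0) :
    ∑ m : ZMod p, quadraticChar (ZMod p) (m ^ 3 + u ^ 6 * k) =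
      ∑ m : ZMod p, quadraticChar (ZMod p) (m ^ 3 + k) := by
  have hu2 : u ^ 2 ≠ 0 := pow_ne_zero 2 hu
  rw [← Equiv.sum_comp (Equiv.mulLeft₀ (u ^ 2) hu2)]
  refine Finset.sum_congr rfl fun m _ => ?_
  rw [Equiv.mulLeft₀_apply]
  have e1 : (u ^ 2 * m) ^ 3 + u ^ 6 * k = (u ^ 3) ^ 2 * (m ^ 3 + k) := by ring
  rw [e1, map_mul, quadraticChar_sq_one' (pow_ne_zero 3 hu), one_mul]

end

theorem chs {p : ℕ} [Fact p.Prime] (hp : 3 < p) (k : ZMod p) (hk : k ≠ 0) :
    (∑ m : ZMod p, quadraticChar (ZMod p) (m ^ 3 + k)) ^ 2 ≤ 24 * (p : ℤ) := by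
  classical
  obtain ⟨S, hS⟩ : ∃ S : ZMod p → ℤ, S = fun j => (∑ m : ZMod p, quadraticChar (ZMod p) (m ^ 3 + j)) ^ 2 := ⟨_, rfl⟩
  have hSk : S k = (∑ m : ZMod p, quadraticChar (ZMod p) (m ^ 3 + k)) ^ 2 := by rw [hS]
  rw [← hSk]
  have h0 : ∀ j, 0 ≤ S j := by
    intro j
    rw [hS]
    exact sq_nonneg _
  have h1 : ∑ j : ZMod p, S j ≤ 2 * (p : ℤ) ^ 2 := by
    rw [hS]
    exact ch_second hp
  have h2 : ∀ u ∈ Finset.univ.erase (0 : ZMod p), S (u ^ 6 * k) = S k := by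
    intro u hu
    rw [hS]
    simp only
    rw [ch_inv u k (Finset.ne_of_mem_erase hu)]
  have h3 : ∑ u ∈ Finset.univ.erase (0 : ZMod p), S (u ^ 6 * k) = ((p : ℤ) - 1) * S k := by
    rw [Finset.sum_congr rfl h2, Finset.sum_const, Finset.card_erase_of_mem (Finset.mem_univ _),
      Finset.card_univ, ZMod.card, nsmul_eq_mul, Nat.cast_sub (Fact.out : p.Prime).one_lt.le, Nat.cast_one]
  have h4 : ∑ u ∈ Finset.univ.erase (0 : ZMod p), S (u ^ 6 * k) ≤ 6 * ∑ j : ZMod p, S j := by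
    rw [← Finset.sum_fiberwise_of_maps_to (s := Finset.univ.erase (0 : ZMod p)) (t := Finset.univ)
      (g := fun u : ZMod p => u ^ 6 * k) (fun _ _ => Finset.mem_univ _), Finset.mul_sum]
    refine Finset.sum_le_sum fun j _ => ?_
    have h5 : ∀ u ∈ (Finset.univ.erase (0 : ZMod p)).filter (fun u => u ^ 6 * k = j), S (u ^ 6 * k) = S j := by
      intro u hu
      rw [(Finset.mem_filter.1 hu).2]
    rw [Finset.sum_congr rfl h5, Finset.sum_const, nsmul_eq_mul]
    refine mul_le_mul_of_nonneg_right ?_ (h0 j)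
    have h6 : (Finset.univ.erase (0 : ZMod p)).filter (fun u => u ^ 6 * k = j) ⊆
        Finset.univ.filter fun m : ZMod p => m ^ 6 = j / k := by
      intro u hu
      rw [Finset.mem_filter] at hu ⊢
      refine ⟨Finset.mem_univ _, ?_⟩
      rw [← hu.2, mul_div_cancel_right₀ _ hk]
    have h7 := (Finset.card_le_card h6).trans (ch_roots (p := p) 6 (by norm_num) (j / k))
    exact_mod_cast h7
  have hp' : (3 : ℤ) < p := by exact_mod_cast hp
  have h5 : ((p : ℤ) - 1) * S k ≤ 12 * (p : ℤ) ^ 2 := by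
    rw [← h3]
    linarith
  have h6 : ((p : ℤ) - 1) * S k ≤ ((p : ℤ) - 1) * (24 * p) := by
    nlinarith
  exact le_of_mul_le_mul_left h6 (by linarith)

end H97.DR
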