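import Pool.Agent.H97.DR.Pch

/-!
# [DR PCN] MP_4d57ea_nt, chapter P: the number of `m` modulo `p` with `(m^3 + k) / r` a square, 40-90 lines. File Pool/Agent/H97/DR/Pcn.lean

`χ = quadraticChar (ZMod p)`. If `m^3 + k = r y^2` then `χ(r) χ(m^3 + k) = χ(r)^2 χ(y)^2 ∈ {0, 1}`, and it is `0` only for `m^3 + k = 0` (at most 3 values of `m`).
So with `z = #{m : m^3 + k = 0} ≤ 3`, `n = #{m : χ(r) χ(m^3+k) = 1}`, `n' = #{... = -1}`: `n + n' + z = p`, `n - n' = χ(r) S`, `S = ∑ χ(m^3+k)`, so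
`2 n ≤ p + |S|` and the number in question is `≤ n + z ≤ (p + |S|) / 2 + 3`. By `chs` `S^2 ≤ 24 p`. `4 (n + z) ≤ 2 p + 2 |S| + 12 ≤ 3 p` iff `2 |S| + 12 ≤ p`:
for `p ≥ 128`: `(p - 12)^2 ≥ 4 * 24 p = 96 p` (`p^2 - 120 p + 144 ≥ 0` for `p ≥ 120`) `≥ (2 |S|)^2`, so `2 |S| ≤ p - 12` (`abs_le_of_sq_le_sq`, `pow_le_pow_left₀`).
-/

set_option autoImplicit false

namespace H97.DR

open Finset

private theorem pcn_z {p : ℕ} [Fact p.Prime] (k : ZMod p) :
    (univ.filter fun m : ZMod p => m ^ 3 + k = 0).card ≤ 3 := by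
  have h0 : (Polynomial.X ^ 3 + Polynomial.C k : Polynomial (ZMod p)) ≠ 0 :=
    Polynomial.X_pow_add_C_ne_zero (by norm_num) k
  have h1 : (univ.filter fun m : ZMod p => m ^ 3 + k = 0) ⊆
      (Polynomial.X ^ 3 + Polynomial.C k : Polynomial (ZMod p)).roots.toFinset := by
    intro m hm
    rw [Multiset.mem_toFinset, Polynomial.mem_roots h0, Polynomial.IsRoot.def]
    simpa using (Finset.mem_filter.1 hm).2
  refine (card_le_card h1).trans ((Multiset.toFinset_card_le _).trans ?_)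
  refine (Polynomial.card_roots' _).trans ?_
  rw [Polynomial.natDegree_X_pow_add_C]

theorem cnt {p : ℕ} [Fact p.Prime] (hp : 128 ≤ p) (k r : ZMod p) (hk : k ≠ 0) (hr : r ≠ 0)
    (U : Finset (ZMod p)) (hU : ∀ m ∈ U, ∃ y : ZMod p, m ^ 3 + k = r * y ^ 2) :
    4 * U.card ≤ 3 * p := by
  classical
  have hχr : quadraticChar (ZMod p) r ^ 2 = 1 := quadraticChar_sq_one hr
  have key : ∀ m : ZMod p, (2 : ℤ) * (if m ∈ U then 1 else 0) ≤
      1 + quadraticChar (ZMod p) r * quadraticChar (ZMod p) (m ^ 3 + k) +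
        (if m ^ 3 + k = 0 then 1 else 0) := by
    intro m
    by_cases h0 : m ^ 3 + k = 0
    · rw [if_pos h0, h0, quadraticChar_zero]
      split_ifs <;> norm_num
    · rw [if_neg h0]
      by_cases hm : m ∈ U
      · rw [if_pos hm]
        obtain ⟨y, hy⟩ := hU m hm
        have hy0 : y ≠ 0 := by
          rintro rfl
          apply h0
          rw [hy]
          ring
        rw [hy, map_mul, quadraticChar_sq_one' hy0]
        nlinarith [hχr]
      · rw [if_neg hm]
        rcases quadraticChar_dichotomy hr with h1 | h1 <;>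
          rcases quadraticChar_dichotomy h0 with h2 | h2 <;> rw [h1, h2] <;> norm_num
  have hsum := Finset.sum_le_sum (s := (univ : Finset (ZMod p))) fun m _ => key m
  rw [← Finset.mul_sum, Finset.sum_add_distrib, Finset.sum_add_distrib, ← Finset.mul_sum,
    Finset.sum_boole, Finset.sum_boole, Finset.sum_const, card_univ, ZMod.card,
    Finset.filter_univ_mem] at hsum
  have hz : ((univ.filter fun m : ZMod p => m ^ 3 + k = 0).card : ℤ) ≤ 3 := by
    exact_mod_cast pcn_z k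
  have hS := chs (by omega : 3 < p) k hk
  have hT : (quadraticChar (ZMod p) r *
      ∑ m : ZMod p, quadraticChar (ZMod p) (m ^ 3 + k)) ^ 2 ≤ 24 * (p : ℤ) := by
    rw [mul_pow, hχr, one_mul]
    exact hS
  generalize (quadraticChar (ZMod p) r *
      ∑ m : ZMod p, quadraticChar (ZMod p) (m ^ 3 + k)) = T at hT hsum
  have hp' : (128 : ℤ) ≤ (p : ℤ) := by exact_mod_cast hp
  have hT2 : 2 * T + 6 ≤ (p : ℤ) := by
    by_contra hcon
    push Not at hcon
    nlinarith
  have hfin : (4 : ℤ) * (U.card : ℤ) ≤ 3 * (p : ℤ) := by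
    have h3 : (2 : ℤ) * (U.card : ℤ) ≤ (p : ℤ) * 1 + T + 3 := by
      simp only [nsmul_eq_mul] at hsum
      linarith
    linarith
  exact_mod_cast hfin

end H97.DR
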