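import Pool.Agent.H97.DR.Prh

/-!
# [DR PSU] MP_4d57ea_nt, chapter P: `∑_{r ≤ N} ρ(r) (4/3)^ω(r) / r ≤ C (log N)^4`, 90-160 lines. File Pool/Agent/H97/DR/Psu.lean

(1) `∑_{n ≤ N} j^ω(n) / n ≤ (∑_{n ≤ N} 1/n)^j` for every natural `j` (`omega_sum`): induction on `j`; `j = 0`: only `n = 1` (`0^0 = 1`) (or start with `j = 1`). Step:
`(1 + j)^ω(n) = ∑_{T ⊆ primeFactors n} j^#T` (`Finset.prod_one_add` or `Finset.sum_pow_mul_eq_add_pow`) and `T ↦ d = ∏_{p ∈ T} p^{v_p(n)}` is injective into the divisors of `n` with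
`ω(d) = #T`, so `(1 + j)^ω(n) ≤ ∑_{d ∣ n} j^ω(d)`; then `∑_{n ≤ N} 1/n ∑_{d ∣ n} j^ω(d) ≤ ∑_{d ≤ N} j^ω(d)/d ∑_{e ≤ N} 1/e` (`n = d e`).
(2) `∑_{n ≤ N} 1/n ≤ 1 + log N ≤ 3 log N` for `N ≥ 2` (`harmonic_le_one_add_log`, `log 2 > 0.69`; so `1 + log N ≤ 3 log N`).
(3) `r = r₁ r₂`, `r₁ = pk k r`, `r₂` = the part prime to `6 k`; `ω(r) ≤ ω(6k) + ω(r₂)`. By `rho_le` `ρ(r) (4/3)^ω(r) / r ≤ C 4^ω(r) r₁^(5/6) / r ≤ C 4^ω(6k) r₁^(-1/6) 4^ω(r₂) / r₂`.
The map `r ↦ (r₁, r₂)` is injective, so the sum is `≤ C 4^ω(6k) (∑_{r₁} r₁^(-1/6)) ∑_{r₂ ≤ N} 4^ω(r₂)/r₂`, `r₁` over the numbers `≤ N` composed of the primes of `6k`: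
`∑_{r₁} r₁^(-1/6) ≤ ∏_{p ∣ 6k} (1 - p^(-1/6))⁻¹` =: a constant (`r₁ ↦ (v_p(r₁))_p` injective and a finite product of geometric series, `Finset.prod_sum`/`Finset.prod_univ_sum`; or
Mathlib: `summable` over `Nat.factoredNumbers`: `EulerProduct.summable_and_hasSum_factoredNumbers_prod_filter_prime_geometric` for the completely multiplicative `n ↦ n^(-1/6)`).
-/

set_option autoImplicit false

namespace H97.DR

open Finset H23.LP H96.DR

private theorem psu_pairs (g : ℕ → ℕ → ℝ) (hg : ∀ a b, 0 ≤ g a b) (N : ℕ) :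
    ∑ n ∈ Icc 1 N, ∑ d ∈ n.divisors, g d (n / d) ≤ ∑ a ∈ Icc 1 N, ∑ b ∈ Icc 1 N, g a b := by
  classical
  have h1 : ∑ a ∈ Icc 1 N, ∑ b ∈ Icc 1 N, g a b = ∑ x ∈ Icc 1 N ×ˢ Icc 1 N, g x.1 x.2 := by
    rw [Finset.sum_product]
  have h2 : ∑ n ∈ Icc 1 N, ∑ x ∈ ((Icc 1 N ×ˢ Icc 1 N).filter fun x => x.1 * x.2 ≤ N) with x.1 * x.2 = n,
      g x.1 x.2 = ∑ x ∈ (Icc 1 N ×ˢ Icc 1 N).filter fun x => x.1 * x.2 ≤ N, g x.1 x.2 := by
    refine Finset.sum_fiberwise_of_maps_to (fun x hx => ?_) _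
    rw [mem_filter, mem_product, mem_Icc, mem_Icc] at hx
    rw [mem_Icc]
    exact ⟨Nat.mul_pos hx.1.1.1 hx.1.2.1, hx.2⟩
  rw [h1]
  refine le_trans ?_ (Finset.sum_le_sum_of_subset_of_nonneg (Finset.filter_subset
    (fun x : ℕ × ℕ => x.1 * x.2 ≤ N) _) fun x _ _ => hg _ _)
  rw [← h2]
  refine Finset.sum_le_sum fun n hn => ?_
  rw [mem_Icc] at hn
  rw [← Nat.sum_divisorsAntidiagonal (fun a b => g a b)]
  refine Finset.sum_le_sum_of_subset_of_nonneg (fun x hx => ?_) fun x _ _ => hg _ _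
  rw [Nat.mem_divisorsAntidiagonal] at hx
  have ha : x.1 ≠ 0 := by
    intro h
    rw [h, zero_mul] at hx
    omega
  have hb : x.2 ≠ 0 := by
    intro h
    rw [h, mul_zero] at hx
    omega
  have h3 : x.1 ≤ n := by
    rw [← hx.1]
    exact Nat.le_mul_of_pos_right _ (Nat.pos_of_ne_zero hb)
  have h4 : x.2 ≤ n := by
    rw [← hx.1]
    exact Nat.le_mul_of_pos_left _ (Nat.pos_of_ne_zero ha)
  rw [mem_filter, mem_filter, mem_product, mem_Icc, mem_Icc]
  refine ⟨⟨⟨⟨by omega, by omega⟩, by omega, by omega⟩, by rw [hx.1]; exact hn.2⟩, hx.1⟩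

private theorem psu_pow (j n : ℕ) (hn : n ≠ 0) :
    ((j + 1 : ℕ) : ℝ) ^ n.primeFactors.card ≤ ∑ d ∈ n.divisors, (j : ℝ) ^ d.primeFactors.card := by
  classical
  have h1 := Finset.sum_pow_mul_eq_add_pow (j : ℝ) 1 n.primeFactors
  simp only [one_pow, mul_one] at h1
  push_cast
  rw [← h1]
  have hp : ∀ T ∈ n.primeFactors.powerset, (∏ p ∈ T, p).primeFactors = T := fun T hT =>
    Nat.primeFactors_prod fun p hp => Nat.prime_of_mem_primeFactors (Finset.mem_powerset.1 hT hp)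
  have h2 : ∑ T ∈ n.primeFactors.powerset, (j : ℝ) ^ T.card =
      ∑ d ∈ n.primeFactors.powerset.image (fun T => ∏ p ∈ T, p), (j : ℝ) ^ d.primeFactors.card := by
    rw [Finset.sum_image]
    · refine Finset.sum_congr rfl fun T hT => ?_
      rw [hp T hT]
    · intro T hT T' hT' h
      have h3 := congrArg Nat.primeFactors h
      simp only at h3
      rwa [hp T hT, hp T' hT'] at h3
  rw [h2]
  refine Finset.sum_le_sum_of_subset_of_nonneg (fun d hd => ?_) fun d _ _ => by positivity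
  rw [Finset.mem_image] at hd
  obtain ⟨T, hT, rfl⟩ := hd
  rw [Nat.mem_divisors]
  refine ⟨?_, hn⟩
  exact (Finset.prod_dvd_prod_of_subset _ _ _ (Finset.mem_powerset.1 hT)).trans (Nat.prod_primeFactors_dvd n)

theorem omega_sum (j N : ℕ) (hj : 1 ≤ j) :
    ∑ n ∈ Icc 1 N, (j : ℝ) ^ n.primeFactors.card / (n : ℝ) ≤ (∑ n ∈ Icc 1 N, 1 / (n : ℝ)) ^ j := by
  induction j, hj using Nat.le_induction with
  | base =>
    rw [pow_one]
    refine Finset.sum_le_sum fun n _ => ?_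
    rw [Nat.cast_one, one_pow]
  | succ j hj ih =>
    have hH : 0 ≤ ∑ n ∈ Icc 1 N, 1 / (n : ℝ) := Finset.sum_nonneg fun n _ => by positivity
    have h1 : ∑ n ∈ Icc 1 N, ((j + 1 : ℕ) : ℝ) ^ n.primeFactors.card / (n : ℝ) ≤
        ∑ n ∈ Icc 1 N, ∑ d ∈ n.divisors, (j : ℝ) ^ d.primeFactors.card / (d : ℝ) * (1 / ((n / d : ℕ) : ℝ)) := by
      refine Finset.sum_le_sum fun n hn => ?_
      rw [mem_Icc] at hn
      have hn0 : n ≠ 0 := by omega
      refine (div_le_div_of_nonneg_right (psu_pow j n hn0) (Nat.cast_nonneg n)).trans ?_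
      rw [Finset.sum_div]
      refine Finset.sum_le_sum fun d hd => le_of_eq ?_
      have hd' := Nat.dvd_of_mem_divisors hd
      obtain ⟨e, rfl⟩ := hd'
      have hd0 : d ≠ 0 := by
        rintro rfl
        simp at hn0
      rw [Nat.mul_div_cancel_left e (Nat.pos_of_ne_zero hd0)]
      push_cast
      rw [div_mul_div_comm, mul_one]
    refine h1.trans ((psu_pairs (fun d e => (j : ℝ) ^ d.primeFactors.card / (d : ℝ) * (1 / (e : ℝ)))
      (fun a b => by positivity) N).trans ?_)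
    rw [pow_succ]
    rw [Finset.sum_congr rfl fun a _ => (Finset.mul_sum _ _ _).symm, ← Finset.sum_mul]
    exact mul_le_mul_of_nonneg_right ih hH

private theorem psu_log (N : ℕ) (hN : 2 ≤ N) : ∑ n ∈ Icc 1 N, 1 / (n : ℝ) ≤ 3 * Real.log N := by
  have h1 : ∑ n ∈ Icc 1 N, 1 / (n : ℝ) = (harmonic N : ℝ) := by
    rw [harmonic_eq_sum_Icc]
    push_cast
    exact Finset.sum_congr rfl fun n _ => by rw [one_div]
  have h2 := harmonic_le_one_add_log N
  have h3 : Real.log 2 ≤ Real.log N := Real.log_le_log (by norm_num) (by exact_mod_cast hN)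
  have h4 := Real.log_two_gt_d9
  rw [h1]
  linarith

private theorem psu_dvd (k : ℤ) (r : ℕ) (hr : r ≠ 0) : pk k r ∣ r := by
  conv_rhs => rw [← Nat.factorization_prod_pow_eq_self hr]
  unfold pk
  rw [Finsupp.prod, Nat.support_factorization]
  exact Finset.prod_dvd_prod_of_subset _ _ _ (Finset.filter_subset _ _)

private theorem psu_prime (k : ℤ) (r p : ℕ) (hp : p.Prime) (h : p ∣ pk k r) : (p : ℤ) ∣ 6 * k := by
  unfold pk at h
  obtain ⟨q, hq, hq2⟩ := (hp.prime.dvd_finset_prod_iff _).1 h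
  rw [mem_filter] at hq
  have h1 : p = q := (Nat.prime_dvd_prime_iff_eq hp (Nat.prime_of_mem_primeFactors hq.1)).1
    (hp.dvd_of_dvd_pow hq2)
  rw [h1]
  exact hq.2

/-- the completely multiplicative function `n ^ (-1/6)` -/
private noncomputable def psuf : ℕ →* ℝ where
  toFun n := (n : ℝ) ^ (-(1 / 6) : ℝ)
  map_one' := by rw [Nat.cast_one, Real.one_rpow]
  map_mul' a b := by rw [Nat.cast_mul, Real.mul_rpow (Nat.cast_nonneg a) (Nat.cast_nonneg b)]

theorem rho_sum (k : ℤ) (hk : k ≠ 0) : ∃ C : ℝ, 1 ≤ C ∧ ∀ N : ℕ, 2 ≤ N →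
    ∑ r ∈ Icc 1 N, (rho k r : ℝ) * (4 / 3) ^ r.primeFactors.card / (r : ℝ) ≤
      C * Real.log N ^ 4 := by
  classical
  obtain ⟨C, hC1, hC⟩ := rho_le k hk
  obtain ⟨s, hs⟩ : ∃ s : Finset ℕ, s = (6 * k).natAbs.primeFactors := ⟨_, rfl⟩
  have h6k : (6 * k).natAbs ≠ 0 := by
    rw [Int.natAbs_ne_zero]
    exact mul_ne_zero (by norm_num) hk
  have hf0 : ∀ n, 0 ≤ psuf n := fun n => Real.rpow_nonneg (Nat.cast_nonneg n) _
  have hsum := (EulerProduct.summable_and_hasSum_factoredNumbers_prod_filter_prime_geometric (f := psuf)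
    (fun {p} hp => by
      rw [Real.norm_of_nonneg (hf0 p)]
      exact Real.rpow_lt_one_of_one_lt_of_neg (by exact_mod_cast hp.one_lt) (by norm_num)) s).1
  have hsum2 : Summable fun m : Nat.factoredNumbers s => psuf m := hsum.of_norm
  obtain ⟨g, hg⟩ : ∃ g : ℕ → ℝ, g = (Nat.factoredNumbers s).indicator (fun n => psuf n) := ⟨_, rfl⟩
  have hgs : Summable g := by
    rw [hg]
    exact summable_subtype_iff_indicator.1 hsum2
  have hg0 : ∀ n, 0 ≤ g n := by
    intro n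
    rw [hg]
    exact Set.indicator_nonneg (fun n _ => hf0 n) n
  obtain ⟨K, hK⟩ : ∃ K : ℝ, K = ∑' n, g n := ⟨_, rfl⟩
  have hK0 : 0 ≤ K := by
    rw [hK]
    exact tsum_nonneg hg0
  refine ⟨C * 4 ^ s.card * (K + 1) * 81, ?_, ?_⟩
  · have h1 : (1 : ℝ) ≤ 4 ^ s.card := one_le_pow₀ (by norm_num)
    have h2 : 1 ≤ C * 4 ^ s.card := one_le_mul_of_one_le_of_one_le hC1 h1
    have h3 : 1 ≤ C * 4 ^ s.card * (K + 1) := one_le_mul_of_one_le_of_one_le h2 (by linarith)
    linarith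
  · intro N hN
    have hterm : ∀ r ∈ Icc 1 N, (rho k r : ℝ) * (4 / 3) ^ r.primeFactors.card / (r : ℝ) ≤
        ∑ d ∈ r.divisors, C * 4 ^ s.card * (g d * ((4 : ℝ) ^ (r / d).primeFactors.card / ((r / d : ℕ) : ℝ))) := by
      intro r hr
      rw [mem_Icc] at hr
      have hr0 : r ≠ 0 := by omega
      have hq := psu_dvd k r hr0
      obtain ⟨q, hqd⟩ : ∃ q, q = pk k r := ⟨_, rfl⟩
      rw [← hqd] at hq
      have hmem : q ∈ r.divisors := Nat.mem_divisors.2 ⟨hq, hr0⟩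
      refine le_trans ?_ (Finset.single_le_sum (f := fun d => C * 4 ^ s.card *
        (g d * ((4 : ℝ) ^ (r / d).primeFactors.card / ((r / d : ℕ) : ℝ))))
        (fun d _ => mul_nonneg (by positivity) (mul_nonneg (hg0 d) (by positivity))) hmem)
      obtain ⟨b, hb⟩ := hq
      have hq0 : q ≠ 0 := by
        rintro rfl
        rw [zero_mul] at hb
        exact hr0 hb
      have hb0 : b ≠ 0 := by
        rintro rfl
        rw [mul_zero] at hb
        exact hr0 hb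
      have hrb : r / q = b := by
        rw [hb, Nat.mul_div_cancel_left b (Nat.pos_of_ne_zero hq0)]
      have hgq : g q = (q : ℝ) ^ (-(1 / 6) : ℝ) := by
        rw [hg]
        rw [Set.indicator_of_mem]
        · rfl
        · rw [Nat.mem_factoredNumbers']
          intro p hp hpq
          rw [hs, Nat.mem_primeFactors]
          refine ⟨hp, ?_, h6k⟩
          rw [hqd] at hpq
          exact Int.natCast_dvd.1 (psu_prime k r p hp hpq)
      have hcard : r.primeFactors.card ≤ s.card + b.primeFactors.card := by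
        refine (Finset.card_le_card (t := s ∪ b.primeFactors) ?_).trans (Finset.card_union_le _ _)
        intro p hp
        rw [Nat.mem_primeFactors] at hp
        rw [Finset.mem_union]
        have h1 : p ∣ q * b := by
          rw [← hb]
          exact hp.2.1
        rcases (hp.1.dvd_mul).1 h1 with h2 | h2
        · left
          rw [hs, Nat.mem_primeFactors]
          rw [hqd] at h2
          exact ⟨hp.1, Int.natCast_dvd.1 (psu_prime k r p hp.1 h2), h6k⟩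
        · right
          exact Nat.mem_primeFactors.2 ⟨hp.1, h2, hb0⟩
      show _ ≤ C * 4 ^ s.card * (g q * ((4 : ℝ) ^ (r / q).primeFactors.card / ((r / q : ℕ) : ℝ)))
      rw [hrb, hgq]
      have hqp : (0 : ℝ) < q := Nat.cast_pos.2 (Nat.pos_of_ne_zero hq0)
      have hbp : (0 : ℝ) < b := Nat.cast_pos.2 (Nat.pos_of_ne_zero hb0)
      have h1 := hC r (by omega)
      rw [← hqd] at h1
      have h2 : (q : ℝ) ^ (5 / 6 : ℝ) = (q : ℝ) ^ (-(1 / 6) : ℝ) * q := by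
        rw [← Real.rpow_add_one hqp.ne']
        norm_num
      have h3 : (r : ℝ) = q * b := by
        rw [hb]
        push_cast
        ring
      have h4 : (4 : ℝ) ^ r.primeFactors.card ≤ 4 ^ s.card * 4 ^ b.primeFactors.card := by
        rw [← pow_add]
        exact pow_le_pow_right₀ (by norm_num) hcard
      have h5 : (3 : ℝ) ^ r.primeFactors.card * (4 / 3) ^ r.primeFactors.card = 4 ^ r.primeFactors.card := by
        rw [← mul_pow]
        norm_num
      have hx : 0 ≤ (q : ℝ) ^ (-(1 / 6) : ℝ) := Real.rpow_nonneg hqp.le _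
      calc (rho k r : ℝ) * (4 / 3) ^ r.primeFactors.card / (r : ℝ)
          ≤ C * 3 ^ r.primeFactors.card * (q : ℝ) ^ (5 / 6 : ℝ) * (4 / 3) ^ r.primeFactors.card / (r : ℝ) :=
            div_le_div_of_nonneg_right (mul_le_mul_of_nonneg_right h1 (by positivity)) (Nat.cast_nonneg r)
        _ = C * 4 ^ r.primeFactors.card * ((q : ℝ) ^ (-(1 / 6) : ℝ) / b) := by
            rw [← h5, h2, h3]
            field_simp
        _ ≤ C * (4 ^ s.card * 4 ^ b.primeFactors.card) * ((q : ℝ) ^ (-(1 / 6) : ℝ) / b) := by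
            refine mul_le_mul_of_nonneg_right (mul_le_mul_of_nonneg_left h4 (by linarith)) (by positivity)
        _ = C * 4 ^ s.card * ((q : ℝ) ^ (-(1 / 6) : ℝ) * (4 ^ b.primeFactors.card / b)) := by ring
    refine (Finset.sum_le_sum hterm).trans ?_
    refine (psu_pairs (fun d e => C * 4 ^ s.card * (g d * ((4 : ℝ) ^ e.primeFactors.card / (e : ℝ))))
      (fun a b => mul_nonneg (by positivity) (mul_nonneg (hg0 a) (by positivity))) N).trans ?_
    have h1 : ∑ a ∈ Icc 1 N, ∑ b ∈ Icc 1 N, C * 4 ^ s.card * (g a * ((4 : ℝ) ^ b.primeFactors.card / (b : ℝ))) =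
        C * 4 ^ s.card * ((∑ a ∈ Icc 1 N, g a) * ∑ b ∈ Icc 1 N, (4 : ℝ) ^ b.primeFactors.card / (b : ℝ)) := by
      rw [Finset.sum_mul_sum, Finset.mul_sum]
      refine Finset.sum_congr rfl fun a _ => ?_
      rw [Finset.mul_sum]
    rw [h1]
    have h2 : ∑ a ∈ Icc 1 N, g a ≤ K := by
      rw [hK]
      exact hgs.sum_le_tsum _ fun i _ => hg0 i
    have h3 := omega_sum 4 N (by norm_num)
    rw [Nat.cast_ofNat] at h3
    have h4 := psu_log N hN
    have h5 : 0 ≤ ∑ n ∈ Icc 1 N, 1 / (n : ℝ) := Finset.sum_nonneg fun n _ => by positivity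
    have h6 := pow_le_pow_left₀ h5 h4 4
    have h7 : (3 * Real.log N) ^ 4 = 81 * Real.log N ^ 4 := by ring
    rw [h7] at h6
    have h8 : (∑ a ∈ Icc 1 N, g a) * ∑ b ∈ Icc 1 N, (4 : ℝ) ^ b.primeFactors.card / (b : ℝ) ≤
        (K + 1) * (81 * Real.log N ^ 4) :=
      mul_le_mul (by linarith) (h3.trans h6) (Finset.sum_nonneg fun n _ => by positivity) (by linarith)
    have h9 : 0 ≤ C * (4 : ℝ) ^ s.card := by positivity
    calc C * 4 ^ s.card * ((∑ a ∈ Icc 1 N, g a) * ∑ b ∈ Icc 1 N, (4 : ℝ) ^ b.primeFactors.card / (b : ℝ))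
        ≤ C * 4 ^ s.card * ((K + 1) * (81 * Real.log N ^ 4)) := mul_le_mul_of_nonneg_left h8 h9
      _ = C * 4 ^ s.card * (K + 1) * 81 * Real.log N ^ 4 := by ring

end H97.DR
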