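import Mathlib

/-!
# [DR QLA] MP_4d57ea_nt, chapter Q: primitive points of a lattice of index `m` in a rectangle, 80-140 lines. File Pool/Agent/H97/DR/Qla.lean

`Λ = {(s, c) : m ∣ s - σ c}`, `B` = the rectangle `|s| ≤ S`, `|c| ≤ T`. CLAIM: at most `49 S T / m + 2` primitive points of `Λ` in `B`.
Case 1: any two points of `Λ ∩ B` are linearly dependent (`s c' = s' c`). Then all primitive points are `± v` for one primitive `v`: at most 2. [If `gcd(s,c) = gcd(s',c') = 1` and `s c' = s' c` then `(s', c') = ± (s, c)`.]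
Case 2: there are independent `v₁, v₂ ∈ Λ ∩ B`, `D = det(v₁, v₂) ≠ 0`. For `0 ≤ i < m` write `(i, 0) = α v₁ + β v₂` with rational `α, β` and put `w_i = (i, 0) - ⌊α⌋ v₁ - ⌊β⌋ v₂` (an integral vector, `|w_i| ≤ |v₁| + |v₂|`
coordinatewise, so `w_i` lies in the rectangle `2S × 2T`). The map `(x, i) ↦ x + w_i`, `x ∈ Λ ∩ B`, `0 ≤ i < m`, is injective: if `x + w_i = x' + w_j` then `(i, 0) - (j, 0) ∈ Λ`, so `m ∣ i - j`, `i = j`, `x = x'`.
Its values lie in the rectangle `|s| ≤ 3S`, `|c| ≤ 3T` with `(6S+1)(6T+1) ≤ 49 S T` integral points. So `m #(Λ ∩ B) ≤ 49 S T`.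
-/

set_option autoImplicit false

namespace H97.DR

open Finset

private theorem prim_eq {a b c d : ℤ} (h1 : Int.gcd a b = 1) (h2 : Int.gcd c d = 1)
    (h : a * d = b * c) : (c = a ∧ d = b) ∨ (c = -a ∧ d = -b) := by
  have c1 : IsCoprime a b := Int.isCoprime_iff_gcd_eq_one.2 h1
  have c2 : IsCoprime c d := Int.isCoprime_iff_gcd_eq_one.2 h2
  have e1 : a ∣ c := c1.dvd_of_dvd_mul_left ⟨d, h.symm⟩
  have e2 : c ∣ a := c2.dvd_of_dvd_mul_right ⟨b, by rw [h]; ring⟩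
  have e3 : b ∣ d := c1.symm.dvd_of_dvd_mul_left ⟨c, h⟩
  have e4 : d ∣ b := c2.symm.dvd_of_dvd_mul_right ⟨a, by rw [← h]; ring⟩
  have f1 : a.natAbs = c.natAbs := Nat.dvd_antisymm (Int.natAbs_dvd_natAbs.2 e1) (Int.natAbs_dvd_natAbs.2 e2)
  have f2 : b.natAbs = d.natAbs := Nat.dvd_antisymm (Int.natAbs_dvd_natAbs.2 e3) (Int.natAbs_dvd_natAbs.2 e4)
  rcases Int.natAbs_eq_natAbs_iff.1 f1 with g1 | g1 <;>
    rcases Int.natAbs_eq_natAbs_iff.1 f2 with g2 | g2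
  · exact Or.inl ⟨g1.symm, g2.symm⟩
  · have hz : c * d = 0 := by
      rw [g1, g2] at h
      nlinarith
    rcases mul_eq_zero.1 hz with h0 | h0
    · right; constructor
      · rw [g1, h0]; rfl
      · rw [g2]; ring
    · left; constructor
      · exact g1.symm
      · rw [g2, h0]; rfl
  · have hz : c * d = 0 := by
      rw [g1, g2] at h
      nlinarith
    rcases mul_eq_zero.1 hz with h0 | h0
    · left; constructor
      · rw [g1, h0]; rfl
      · exact g2.symm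
    · right; constructor
      · rw [g1]; ring
      · rw [g2, h0]; rfl
  · right; constructor
    · rw [g1]; ring
    · rw [g2]; ring

private theorem fl_bd (v w : ℤ) (D : ℤ) (hD : D ≠ 0) (p q : ℤ) (z : ℤ) (N : ℤ) (hv : |v| ≤ N) (hw : |w| ≤ N)
    (h : z * D = p * v + q * w) :
    |z - ⌊(p : ℚ) / D⌋ * v - ⌊(q : ℚ) / D⌋ * w| ≤ 2 * N := by
  have hD' : (D : ℚ) ≠ 0 := by exact_mod_cast hD
  have h' : (z : ℚ) = p / D * v + q / D * w := by
    have : (z : ℚ) * D = p * v + q * w := by exact_mod_cast h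
    field_simp
    linarith
  have e : ((z - ⌊(p : ℚ) / D⌋ * v - ⌊(q : ℚ) / D⌋ * w : ℤ) : ℚ) =
      Int.fract ((p : ℚ) / D) * v + Int.fract ((q : ℚ) / D) * w := by
    push_cast
    rw [h', Int.fract, Int.fract]
    ring
  have b1 : |Int.fract ((p : ℚ) / D) * v| ≤ N := by
    rw [abs_mul, abs_of_nonneg (Int.fract_nonneg _)]
    have hv' : |(v : ℚ)| ≤ N := by exact_mod_cast hv
    nlinarith [Int.fract_nonneg ((p : ℚ) / D), Int.fract_lt_one ((p : ℚ) / D), abs_nonneg (v : ℚ)]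
  have b2 : |Int.fract ((q : ℚ) / D) * w| ≤ N := by
    rw [abs_mul, abs_of_nonneg (Int.fract_nonneg _)]
    have hw' : |(w : ℚ)| ≤ N := by exact_mod_cast hw
    nlinarith [Int.fract_nonneg ((q : ℚ) / D), Int.fract_lt_one ((q : ℚ) / D), abs_nonneg (w : ℚ)]
  have b3 : |((z - ⌊(p : ℚ) / D⌋ * v - ⌊(q : ℚ) / D⌋ * w : ℤ) : ℚ)| ≤ 2 * N := by
    rw [e]
    have := abs_add_le (Int.fract ((p : ℚ) / D) * (v : ℚ)) (Int.fract ((q : ℚ) / D) * (w : ℚ))
    linarith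
  exact_mod_cast b3

theorem lat2 (m : ℕ) (hm : 0 < m) (σ : ℤ) (S T : ℕ) (hS : 1 ≤ S) (hT : 1 ≤ T) :
    (((Icc (-(S : ℤ)) S ×ˢ Icc (-(T : ℤ)) T).filter fun x =>
      (m : ℤ) ∣ x.1 - σ * x.2 ∧ Int.gcd x.1 x.2 = 1).card : ℝ) ≤ 49 * S * T / m + 2 := by
  set F := (Icc (-(S : ℤ)) S ×ˢ Icc (-(T : ℤ)) T).filter fun x =>
      (m : ℤ) ∣ x.1 - σ * x.2 ∧ Int.gcd x.1 x.2 = 1 with hF
  have hmem : ∀ x : ℤ × ℤ, x ∈ F ↔ ((-(S : ℤ) ≤ x.1 ∧ x.1 ≤ S) ∧ (-(T : ℤ) ≤ x.2 ∧ x.2 ≤ T)) ∧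
      (m : ℤ) ∣ x.1 - σ * x.2 ∧ Int.gcd x.1 x.2 = 1 := by
    intro x
    simp only [hF, mem_filter, mem_product, mem_Icc]
  have hm' : (0 : ℝ) < m := by exact_mod_cast hm
  have hpos : (0 : ℝ) ≤ 49 * S * T / m := by positivity
  by_cases hc : ∀ x ∈ F, ∀ y ∈ F, x.1 * y.2 = x.2 * y.1
  · -- all points are dependent
    have h2 : F.card ≤ 2 := by
      rcases F.eq_empty_or_nonempty with h0 | ⟨x, hx⟩
      · rw [h0]; simp
      · have hsub : F ⊆ {x, -x} := by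
          intro y hy
          rcases prim_eq ((hmem x).1 hx).2.2 ((hmem y).1 hy).2.2 (hc x hx y hy) with h | h
          · rw [mem_insert]; left; exact Prod.ext h.1 h.2
          · rw [mem_insert, mem_singleton]; right; exact Prod.ext h.1 h.2
        exact (card_le_card hsub).trans card_le_two
    have h2' : (F.card : ℝ) ≤ 2 := by exact_mod_cast h2
    linarith
  · push Not at hc
    obtain ⟨v, hv, w, hw, hvw⟩ := hc
    have hv' := (hmem v).1 hv
    have hw' := (hmem w).1 hw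
    set D : ℤ := v.1 * w.2 - v.2 * w.1 with hD
    have hD0 : D ≠ 0 := sub_ne_zero.2 hvw
    let a : ℕ → ℤ := fun i => ⌊(((i : ℤ) * w.2 : ℤ) : ℚ) / D⌋
    let b : ℕ → ℤ := fun i => ⌊((-((i : ℤ) * v.2) : ℤ) : ℚ) / D⌋
    let f : (ℤ × ℤ) × ℕ → ℤ × ℤ := fun z =>
      (z.1.1 + (z.2 - a z.2 * v.1 - b z.2 * w.1), z.1.2 + (0 - a z.2 * v.2 - b z.2 * w.2))
    have hmaps : ∀ z ∈ F ×ˢ range m, f z ∈ Icc (-(3 * S : ℤ)) (3 * S) ×ˢ Icc (-(3 * T : ℤ)) (3 * T) := by
      intro z hz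
      rw [mem_product] at hz
      have hz1 := (hmem z.1).1 hz.1
      have q1 : |(z.2 : ℤ) - a z.2 * v.1 - b z.2 * w.1| ≤ 2 * S :=
        fl_bd v.1 w.1 D hD0 _ _ _ S (abs_le.2 hv'.1.1) (abs_le.2 hw'.1.1) (by rw [hD]; ring)
      have q2 : |(0 : ℤ) - a z.2 * v.2 - b z.2 * w.2| ≤ 2 * T :=
        fl_bd v.2 w.2 D hD0 _ _ _ T (abs_le.2 hv'.1.2) (abs_le.2 hw'.1.2) (by ring)
      rw [abs_le] at q1 q2
      rw [mem_product, mem_Icc, mem_Icc]
      refine ⟨⟨?_, ?_⟩, ?_, ?_⟩ <;> simp only [f] <;> linarith [hz1.1.1.1, hz1.1.1.2, hz1.1.2.1, hz1.1.2.2]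
    have hinj : Set.InjOn f (F ×ˢ range m : Finset ((ℤ × ℤ) × ℕ)) := by
      intro z hz y hy hzy
      rw [mem_coe, mem_product, mem_range] at hz hy
      have hz1 := (hmem z.1).1 hz.1
      have hy1 := (hmem y.1).1 hy.1
      have g1 : z.1.1 + (z.2 - a z.2 * v.1 - b z.2 * w.1) = y.1.1 + (y.2 - a y.2 * v.1 - b y.2 * w.1) :=
        congrArg Prod.fst hzy
      have g2 : z.1.2 + (0 - a z.2 * v.2 - b z.2 * w.2) = y.1.2 + (0 - a y.2 * v.2 - b y.2 * w.2) :=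
        congrArg Prod.snd hzy
      have hdvd : (m : ℤ) ∣ (z.2 : ℤ) - y.2 := by
        have : (z.2 : ℤ) - y.2 = (y.1.1 - σ * y.1.2) - (z.1.1 - σ * z.1.2) +
            (a z.2 - a y.2) * (v.1 - σ * v.2) + (b z.2 - b y.2) * (w.1 - σ * w.2) := by
          linear_combination g1 - σ * g2
        rw [this]
        exact dvd_add (dvd_add (dvd_sub hy1.2.1 hz1.2.1) (hv'.2.1.mul_left _)) (hw'.2.1.mul_left _)
      have hi : z.2 = y.2 := by
        have hlt : |(z.2 : ℤ) - y.2| < m := by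
          rw [abs_lt]
          have := hz.2
          have := hy.2
          constructor <;> omega
        have := Int.eq_zero_of_abs_lt_dvd hdvd hlt
        omega
      rw [hi] at g1 g2
      exact Prod.ext (Prod.ext (by linarith) (by linarith)) hi
    have hcard := card_le_card_of_injOn f hmaps hinj
    rw [card_product, card_range, card_product, Int.card_Icc, Int.card_Icc] at hcard
    have c1 : ((3 * S : ℤ) + 1 - (-(3 * S : ℤ))).toNat = 6 * S + 1 := by omega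
    have c2 : ((3 * T : ℤ) + 1 - (-(3 * T : ℤ))).toNat = 6 * T + 1 := by omega
    rw [c1, c2] at hcard
    have hle : F.card * m ≤ 49 * S * T := by
      have : S ≤ S * T := Nat.le_mul_of_pos_right S (by omega)
      have : T ≤ S * T := Nat.le_mul_of_pos_left T (by omega)
      calc F.card * m ≤ (6 * S + 1) * (6 * T + 1) := hcard
        _ = 36 * (S * T) + 6 * S + 6 * T + 1 := by ring
        _ ≤ 49 * (S * T) := by omega
        _ = 49 * S * T := by ring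
    have hle' : (F.card : ℝ) * m ≤ 49 * S * T := by exact_mod_cast hle
    have : (F.card : ℝ) ≤ 49 * S * T / m := by rw [le_div_iff₀ hm']; exact hle'
    linarith

end H97.DR
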