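import Pool.Agent.H96.DR.Def

/-!
# [DR QSF] MP_4d57ea_nt, chapter Q: the squarefull part, 50-100 lines. File Pool/Agent/H97/DR/Qsf.lean

`SF n = ∏_{p ∣ n, p^2 ∣ n} p^{v_p(n)}` (`H96/DR/Def.lean`).
`SF_mul`: let `p` be a prime with `p^2 ∣ e^3 n`, `v = v_p(e)`, `w = v_p(n)`, `v_p(e^3 n) = 3 v + w`. If `v = 0` the factor is `p^w` with `w ≥ 2`: the same factor as in `SF n`. If `v ≥ 1`: the factor is `p^(3v+w)`;
if `w ≥ 2` it is `p^{3v} p^w ≤ p^{4v} (factor of SF n)`, if `w ≤ 1` it is `≤ p^{3v+1} ≤ p^{4v}`. The product over `p ∣ e` of `p^{4v}` is `e^4`. In Lean: `SF (e^3 n) = ∏_{p ∈ (e n).primeFactors} (if 2 ≤ 3v+w then p^(3v+w) else 1)`,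
similarly `SF n` and `e^4` as products over `(e n).primeFactors` (factors 1 outside), and `Finset.prod_le_prod'`.
`SF_sq`: `d = ∏_{p ∣ n, p^2 ∣ n} p^{⌊v/2⌋}`: `d^2 ∣ n` and `v ≤ 3 ⌊v/2⌋` for `v ≥ 2`, so `SF n ≤ d^3`.
`SF_dvd`: `SF n ∣ n` (needed for the size only).
-/

set_option autoImplicit false

namespace H97.DR

open Finset H23.LP H96.DR

private theorem sf_expand (x : ℕ) (hx : x ≠ 0) (S : Finset ℕ) (hS : x.primeFactors ⊆ S) :
    SF x = ∏ p ∈ S, (if 2 ≤ x.factorization p then p ^ x.factorization p else 1) := by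
  unfold SF
  rw [Finset.prod_filter]
  rw [← Finset.prod_subset hS]
  · refine Finset.prod_congr rfl fun p hp => ?_
    have hpp := Nat.prime_of_mem_primeFactors hp
    simp only [hpp.pow_dvd_iff_le_factorization hx]
  · intro p _ hp
    have h0 : x.factorization p = 0 := by
      rw [← Finsupp.notMem_support_iff, Nat.support_factorization]
      exact hp
    rw [h0]
    simp

private theorem self_expand (x : ℕ) (hx : x ≠ 0) (S : Finset ℕ) (hS : x.primeFactors ⊆ S) :
    x = ∏ p ∈ S, p ^ x.factorization p := by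
  rw [← Finset.prod_subset hS]
  · have h := Nat.prod_factorization_pow_eq_self hx
    rw [Nat.prod_factorization_eq_prod_primeFactors] at h
    exact h.symm
  · intro p _ hp
    have h0 : x.factorization p = 0 := by
      rw [← Finsupp.notMem_support_iff, Nat.support_factorization]
      exact hp
    rw [h0]
    simp

theorem SF_mul (e n : ℕ) (he : 0 < e) (hn : 0 < n) : SF (e ^ 3 * n) ≤ e ^ 4 * SF n := by
  have he' : e ≠ 0 := he.ne'
  have hn' : n ≠ 0 := hn.ne'
  have he3 : e ^ 3 ≠ 0 := pow_ne_zero 3 he'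
  obtain ⟨S, hS⟩ : ∃ S : Finset ℕ, S = (e * n).primeFactors := ⟨_, rfl⟩
  have hSe : e.primeFactors ⊆ S := by
    rw [hS]; exact Nat.primeFactors_mono (dvd_mul_right e n) (mul_ne_zero he' hn')
  have hSn : n.primeFactors ⊆ S := by
    rw [hS]; exact Nat.primeFactors_mono (dvd_mul_left n e) (mul_ne_zero he' hn')
  have hSen : (e ^ 3 * n).primeFactors ⊆ S := by
    rw [hS, Nat.primeFactors_mul he3 hn', Nat.primeFactors_mul he' hn',
      Nat.primeFactors_pow e (by norm_num)]
  have hSp : ∀ p ∈ S, p.Prime := by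
    intro p hp
    rw [hS] at hp
    exact Nat.prime_of_mem_primeFactors hp
  have e4 : e ^ 4 = ∏ p ∈ S, p ^ (4 * e.factorization p) := by
    conv_lhs => rw [self_expand e he' S hSe]
    rw [← Finset.prod_pow]
    refine Finset.prod_congr rfl fun p _ => ?_
    rw [← pow_mul, mul_comm]
  rw [sf_expand _ (mul_ne_zero he3 hn') S hSen, sf_expand n hn' S hSn, e4, ← Finset.prod_mul_distrib]
  refine Finset.prod_le_prod' fun p hp => ?_
  have hpp := hSp p hp
  have hf : (e ^ 3 * n).factorization p = 3 * e.factorization p + n.factorization p := by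
    rw [Nat.factorization_mul he3 hn', Nat.factorization_pow]
    simp
  rw [hf]
  obtain ⟨v, hv⟩ : ∃ v, v = e.factorization p := ⟨_, rfl⟩
  obtain ⟨w, hw⟩ : ∃ w, w = n.factorization p := ⟨_, rfl⟩
  rw [← hv, ← hw]
  by_cases h2 : 2 ≤ w
  · rw [if_pos h2, if_pos (by omega), ← pow_add]
    exact Nat.pow_le_pow_right hpp.pos (by omega)
  · rw [if_neg h2, mul_one]
    by_cases h3 : 2 ≤ 3 * v + w
    · rw [if_pos h3]
      exact Nat.pow_le_pow_right hpp.pos (by omega)
    · rw [if_neg h3]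
      exact Nat.one_le_pow _ _ hpp.pos

theorem SF_sq (n : ℕ) (hn : 0 < n) : ∃ d : ℕ, 0 < d ∧ d ^ 2 ∣ n ∧ SF n ≤ d ^ 3 := by
  have hn' : n ≠ 0 := hn.ne'
  refine ⟨∏ p ∈ n.primeFactors.filter fun p => p ^ 2 ∣ n, p ^ (n.factorization p / 2), ?_, ?_, ?_⟩
  · refine Finset.prod_pos fun p hp => ?_
    rw [Finset.mem_filter] at hp
    exact Nat.pow_pos (Nat.prime_of_mem_primeFactors hp.1).pos
  · rw [← Finset.prod_pow]
    have h1 : ∏ p ∈ n.primeFactors.filter (fun p => p ^ 2 ∣ n), (p ^ (n.factorization p / 2)) ^ 2 ∣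
        ∏ p ∈ n.primeFactors, p ^ n.factorization p := by
      refine dvd_trans (Finset.prod_dvd_prod_of_dvd _ (fun p => p ^ n.factorization p) fun p _ => ?_)
        (Finset.prod_dvd_prod_of_subset _ _ _ (Finset.filter_subset _ _))
      rw [← pow_mul]
      exact pow_dvd_pow p (Nat.div_mul_le_self _ _)
    have h2 := self_expand n hn' n.primeFactors (Finset.Subset.refl _)
    rw [← h2] at h1
    exact h1
  · unfold SF
    rw [← Finset.prod_pow]
    refine Finset.prod_le_prod' fun p hp => ?_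
    rw [Finset.mem_filter] at hp
    have hpp := Nat.prime_of_mem_primeFactors hp.1
    have h2 : 2 ≤ n.factorization p := (hpp.pow_dvd_iff_le_factorization hn').1 hp.2
    rw [← pow_mul]
    exact Nat.pow_le_pow_right hpp.pos (by omega)

end H97.DR
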